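import Pool.Agent.H35.WL.Bc

/-!
# Project WT: definitions

The sum over the frequencies `l` inside the amplified Kloosterman-fraction form.
-/

set_option autoImplicit false

namespace Pool.Agent.H35.WT

open Finset
open Pool.Agent.H80.KF
open Pool.Agent.H35.KL (n2 r2)

open Classical in
/-- the general term of the amplified sum: weights `F1`, `F2`, numerator `ξ` -/
noncomputable def gG (F1 F2 : ℝ → ℂ) (ξ : ℤ) (N : ℕ) (τ : ℕ × ℕ × ℤ) (m1 m2 : ℕ) : ℂ :=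
  if Adm N τ.1 τ.2.1 τ.2.2 m1 m2 then
    F1 ((m1 : ℝ) * (nn τ.1 τ.2.1 τ.2.2 m1 m2 : ℝ)) *
      (starRingEnd ℂ) (F2 ((m2 : ℝ) * (nn τ.1 τ.2.1 τ.2.2 m1 m2 : ℝ))) *
      kf (nn τ.1 τ.2.1 τ.2.2 m1 m2) ξ (τ.1 * m1)
  else 0

/-- the smooth weight -/
noncomputable def GG4 (F1 F2 F3 F4 : ℝ → ℂ) (A c1 c2 : ℝ) (m n n' : ℝ) : ℂ :=
  F1 (A * n) * (starRingEnd ℂ) (F2 (m * n)) * ((starRingEnd ℂ) (F3 (A * n')) * F4 (m * n')) *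
    (ee (c1 / n) * (starRingEnd ℂ) (ee (c2 / n')))

/-- the numerator of the phase after the second Cauchy step -/
def KK (ξ ξ' : ℤ) (τ τ' : ℕ × ℕ × ℤ) : ℤ :=
  ξ * τ.2.2 * τ'.1 * τ'.2.1 - ξ' * τ'.2.2 * τ.1 * τ.2.1

/-- `|K r r'| p₁ p₂ p₃ p₄` -/
def B1 (ξ ξ' : ℤ) (τ τ' : ℕ × ℕ × ℤ) : ℕ :=
  (KK ξ ξ' τ τ').natAbs * (τ.2.2.natAbs * τ'.2.2.natAbs) * (τ.1 * τ.2.1 * (τ'.1 * τ'.2.1))

/-- `ξ/(p m₁)` -/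
noncomputable def ccG (ξ : ℤ) (p m1 : ℕ) : ℝ := (ξ : ℝ) / ((p : ℝ) * m1)

/-- `ξ = η (l₁ p₁ - l₂ p₂)` -/
def xi (η : ℤ) (t : (ℕ × ℕ × ℤ) × (ℤ × ℤ)) : ℤ := η * (t.2.1 * t.1.1 - t.2.2 * t.1.2.1)

/-- the term with frequencies `l₁, l₂` -/
noncomputable def gL (F : ℤ → ℝ → ℂ) (η : ℤ) (N : ℕ) (t : (ℕ × ℕ × ℤ) × (ℤ × ℤ)) (m1 m2 : ℕ) : ℂ :=
  gG (F t.2.1) (F t.2.2) (xi η t) N t.1 m1 m2

/-- the index set -/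
noncomputable def SL (P : ℕ) (L : Finset ℤ) : Finset ((ℕ × ℕ × ℤ) × (ℤ × ℤ)) := TT P ×ˢ (L ×ˢ L)

/-- the phase numerator of a pair -/
def Kt (η : ℤ) (t t' : (ℕ × ℕ × ℤ) × (ℤ × ℤ)) : ℤ := KK (xi η t) (xi η t') t.1 t'.1

/-- the amplified sum -/
noncomputable def UL (F : ℤ → ℝ → ℂ) (η : ℤ) (N P : ℕ) (L : Finset ℤ) (α : ℕ → ℂ) : ℂ :=
  ∑ m1 ∈ II N, ∑ m2 ∈ II N, α m1 * (starRingEnd ℂ) (α m2) *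
    ∑ t ∈ SL P L, gL F η N t m1 m2

/-- the nondegenerate part of the second Cauchy step -/
noncomputable def OL (F : ℤ → ℝ → ℂ) (η : ℤ) (N P : ℕ) (L : Finset ℤ) : ℝ :=
  ∑ t ∈ (SL P L ×ˢ SL P L).filter (fun t => Kt η t.1 t.2 ≠ 0), ∑ m1 ∈ II N,
    ‖∑ m2 ∈ II N, gL F η N t.1 m1 m2 * (starRingEnd ℂ) (gL F η N t.2 m1 m2)‖

open Classical in
/-- the number of degenerate pairs -/
noncomputable def DG (η : ℤ) (N P : ℕ) (L : Finset ℤ) : ℝ :=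
  ∑ t ∈ (SL P L ×ˢ SL P L).filter (fun t => Kt η t.1 t.2 = 0), ∑ m1 ∈ II N, ∑ m2 ∈ II N,
    if Adm N t.1.1.1 t.1.1.2.1 t.1.1.2.2 m1 m2 ∧ Adm N t.2.1.1 t.2.1.2.1 t.2.1.2.2 m1 m2 then
      (1 : ℝ) else 0

/-- the frequencies: nonzero, at most `A` -/
def Fr (A : ℕ) (L : Finset ℤ) : Prop := ∀ l ∈ L, l ≠ 0 ∧ |l| ≤ A

/-- the trilinear bound -/
def KT : Prop := ∀ ε : ℝ, 0 < ε → ∃ N0 : ℕ, ∀ N : ℕ, N0 ≤ N → ∀ A : ℕ, 1 ≤ A →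
    (A : ℝ) ≤ (N : ℝ) ^ (1 / 14 - ε) → ∀ L : Finset ℤ, Fr A L →
    ∀ η : ℤ, η ≠ 0 → |η| * A ≤ 4 * (N : ℤ) ^ 2 →
    ∀ α β : ℕ → ℂ, ∀ F : ℤ → ℝ → ℂ, (∀ l ∈ L, Wt N (F l)) →
    ‖∑ l ∈ L, ∑ n ∈ II N, ∑ m ∈ (II N).filter (fun m => Nat.Coprime m n),
        α m * β n * F l ((m : ℝ) * n) * kf n (l * η) m‖ ≤
      (N : ℝ) ^ (19 / 20 + ε) * (A : ℝ) ^ ((7 : ℝ) / 10) *
        (Real.sqrt (n2 (II N) α) * Real.sqrt (n2 (II N) β))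

/-- a small exponent -/
noncomputable def mt (θ κ : ℝ) : ℝ := (14 - 27 * θ - 20 * κ) / 160

/-- the level `x^θ` -/
noncomputable def QT (θ : ℝ) (x : ℕ) : ℕ := ⌊(x : ℝ) ^ θ⌋₊

end Pool.Agent.H35.WT
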