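import Pool.Agent.H35.WT.Tk

/-!
# WT-Tb: the trilinear bound, all `α`

Bad `m`: `gcd(η,m) > √N`: `m = d m'` with `d ∣ η`, `d > √N`, so there are at most
`tau|η| · 3√N` of them; the trivial bound (`‖F‖ ≤ 1`, `#L ≤ 2A`, Cauchy) for their part is
`2A √(3 √N tau|η|) √(2N) √n2(α) √n2(β) ≤ N^{4/5} A √.. √..`, and `A ≤ A^{7/10} N^{3/140}`.
Other `m`: let `P_j = 4^j P_0`, `P_0 = ⌈N^{1/10} A^{-2/5}⌉`, `j = 0, ..., 30` (disjoint sets `PP P_j` of
primes `> N^{1/25}`; `4^{30} ≤ 10^{19}`); as `m ≤ 3N < (N^{1/25})^{31}` at most `30` primes `> N^{1/25}` divide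
`m`, so for some `j` no prime of `PP P_j` divides `m`.  Let `α_j` be the part of `α` on the `m` whose first
such index is `j`: `α = ∑_{j ≤ 30} α_j` (off the bad `m`), `n2(α_j) ≤ n2(α)`; `kt_free` with `P_j`
(`A ≤ N^{1/14 - ε} ≤ P_0`) for every `j`, with `ε/2`; `31 N^{-ε/2} ≤ 1/2` for large `N`.
-/

set_option autoImplicit false

namespace Pool.Agent.H35.WT

open Finset
open Pool.Agent.H80.KF
open Pool.Agent.H35.KL (n2 r2)
open Pool.Agent.H35.WL (WB)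

/-- the trilinear form -/
private noncomputable def tbS (F : ℤ → ℝ → ℂ) (η : ℤ) (N : ℕ) (L : Finset ℤ) (β α : ℕ → ℂ) : ℂ :=
  ∑ l ∈ L, ∑ n ∈ II N, ∑ m ∈ (II N).filter (fun m => Nat.Coprime m n),
    α m * β n * F l ((m : ℝ) * n) * kf n (l * η) m

private theorem tb_congr (F : ℤ → ℝ → ℂ) (η : ℤ) (N : ℕ) (L : Finset ℤ) (β α α' : ℕ → ℂ)
    (h : ∀ m ∈ II N, α m = α' m) : tbS F η N L β α = tbS F η N L β α' := by
  unfold tbS
  refine sum_congr rfl fun l _ => sum_congr rfl fun n _ => sum_congr rfl fun m hm => ?_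
  rw [h m (mem_filter.1 hm).1]

private theorem tb_add (F : ℤ → ℝ → ℂ) (η : ℤ) (N : ℕ) (L : Finset ℤ) (β α α' : ℕ → ℂ) :
    tbS F η N L β (fun m => α m + α' m) = tbS F η N L β α + tbS F η N L β α' := by
  unfold tbS
  rw [← sum_add_distrib]
  refine sum_congr rfl fun l _ => ?_
  rw [← sum_add_distrib]
  refine sum_congr rfl fun n _ => ?_
  rw [← sum_add_distrib]
  refine sum_congr rfl fun m _ => ?_
  ring

private theorem tb_sum (F : ℤ → ℝ → ℂ) (η : ℤ) (N : ℕ) (L : Finset ℤ) (β : ℕ → ℂ)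
    (b : ℕ → ℕ → ℂ) (k : ℕ) :
    tbS F η N L β (fun m => ∑ j ∈ range k, b j m) = ∑ j ∈ range k, tbS F η N L β (b j) := by
  induction k with
  | zero =>
    simp only [range_zero, sum_empty]
    unfold tbS
    refine sum_eq_zero fun l _ => sum_eq_zero fun n _ => sum_eq_zero fun m _ => ?_
    ring
  | succ k ih =>
    rw [sum_range_succ, ← ih, ← tb_add]
    exact tb_congr _ _ _ _ _ _ _ fun m _ => sum_range_succ _ _

private theorem tb_cs (N : ℕ) (α : ℕ → ℂ) (S : Finset ℕ) (hS : ∀ m ∈ II N, α m ≠ 0 → m ∈ S) :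
    ∑ m ∈ II N, ‖α m‖ ≤ Real.sqrt S.card * Real.sqrt (n2 (II N) α) := by
  have h1 : ∑ m ∈ II N, ‖α m‖ = ∑ m ∈ (II N).filter (fun m => m ∈ S), ‖α m‖ := by
    rw [sum_filter]
    refine sum_congr rfl fun m hm => ?_
    by_cases h : m ∈ S
    · rw [if_pos h]
    · rw [if_neg h]
      by_cases h0 : α m = 0
      · rw [h0, norm_zero]
      · exact absurd (hS m hm h0) h
  have h2 : (∑ m ∈ (II N).filter (fun m => m ∈ S), ‖α m‖) ^ 2 ≤ S.card * n2 (II N) α := by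
    refine sq_sum_le_card_mul_sum_sq.trans ?_
    refine mul_le_mul ?_ ?_ (sum_nonneg fun _ _ => by positivity) (by positivity)
    · have : ((II N).filter (fun m => m ∈ S)).card ≤ S.card :=
        card_le_card fun m hm => (mem_filter.1 hm).2
      exact_mod_cast this
    · exact sum_le_sum_of_subset_of_nonneg (filter_subset _ _) fun _ _ _ => by positivity
  rw [h1, ← Real.sqrt_mul (by positivity)]
  exact Real.le_sqrt_of_sq_le h2

private theorem tb_trivial (F : ℤ → ℝ → ℂ) (η : ℤ) (N : ℕ) (L : Finset ℤ) (β α : ℕ → ℂ)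
    (hF : ∀ l ∈ L, Wt N (F l)) (S : Finset ℕ) (hS : ∀ m ∈ II N, α m ≠ 0 → m ∈ S) :
    ‖tbS F η N L β α‖ ≤ L.card * ((Real.sqrt S.card * Real.sqrt (n2 (II N) α)) *
      (Real.sqrt (N + 1 : ℝ) * Real.sqrt (n2 (II N) β))) := by
  have hβ : ∑ n ∈ II N, ‖β n‖ ≤ Real.sqrt (N + 1 : ℝ) * Real.sqrt (n2 (II N) β) := by
    have h1 := tb_cs N β (II N) fun m hm _ => hm
    have h2 : ((II N).card : ℝ) = N + 1 := by
      unfold II
      rw [Nat.card_Ioc]
      have : 2 * N + 1 - N = N + 1 := by omega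
      rw [this]
      push_cast
      ring
    rwa [h2] at h1
  have hα := tb_cs N α S hS
  have key : ‖tbS F η N L β α‖ ≤ ∑ _l ∈ L, (∑ m ∈ II N, ‖α m‖) * (∑ n ∈ II N, ‖β n‖) := by
    unfold tbS
    refine (norm_sum_le _ _).trans (sum_le_sum fun l hl => ?_)
    refine (norm_sum_le _ _).trans ?_
    rw [mul_sum]
    refine sum_le_sum fun n _ => ?_
    refine (norm_sum_le _ _).trans ?_
    have h3 : ∑ m ∈ (II N).filter (fun m => Nat.Coprime m n),
        ‖α m * β n * F l ((m : ℝ) * n) * kf n (l * η) m‖ ≤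
        ∑ m ∈ (II N).filter (fun m => Nat.Coprime m n), ‖α m‖ * ‖β n‖ := by
      refine sum_le_sum fun m _ => ?_
      rw [norm_mul, norm_mul, norm_mul, norm_kf, mul_one]
      have h4 := (hF l hl).1 ((m : ℝ) * n)
      have h5 : 0 ≤ ‖α m‖ * ‖β n‖ := by positivity
      calc ‖α m‖ * ‖β n‖ * ‖F l ((m : ℝ) * n)‖ ≤ ‖α m‖ * ‖β n‖ * 1 :=
            mul_le_mul_of_nonneg_left h4 h5
        _ = ‖α m‖ * ‖β n‖ := mul_one _
    refine h3.trans ?_
    rw [← sum_mul]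
    refine mul_le_mul_of_nonneg_right ?_ (norm_nonneg _)
    exact sum_le_sum_of_subset_of_nonneg (filter_subset _ _) fun _ _ _ => norm_nonneg _
  refine key.trans ?_
  rw [sum_const, nsmul_eq_mul]
  refine mul_le_mul_of_nonneg_left ?_ (by positivity)
  exact mul_le_mul hα hβ (sum_nonneg fun _ _ => norm_nonneg _) (by positivity)

/-- the number of bad `m` -/
private theorem tb_bad (N : ℕ) (hN : 1 ≤ N) (η : ℤ) (hη : η ≠ 0) :
    (((II N).filter (fun m : ℕ => Real.sqrt N < (Int.gcd η m : ℝ))).card : ℝ) ≤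
      (η.natAbs.divisors.card : ℝ) * (3 * Real.sqrt N) := by
  classical
  have hN1 : (1 : ℝ) ≤ N := by exact_mod_cast hN
  have hs1 : 1 ≤ Real.sqrt N := Real.one_le_sqrt.2 hN1
  have hss : Real.sqrt N * Real.sqrt N = N := Real.mul_self_sqrt (by positivity)
  have hcard : ((II N).filter (fun m : ℕ => Real.sqrt N < (Int.gcd η m : ℝ))).card ≤
      (η.natAbs.divisors ×ˢ Icc 1 ⌊3 * Real.sqrt N⌋₊).card := by
    refine card_le_card_of_injOn (fun m : ℕ => (Int.gcd η m, m / Int.gcd η m)) ?_ ?_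
    · intro m hm
      rw [mem_coe, mem_filter] at hm
      obtain ⟨hm1, hm2⟩ := hm
      unfold II at hm1
      rw [mem_Ioc] at hm1
      have hg1 : Int.gcd η m ∣ η.natAbs := by
        have := Int.gcd_dvd_left (a := η) (b := (m : ℤ))
        exact Int.natCast_dvd.1 this
      have hg2 : Int.gcd η m ∣ m := by
        have := Int.gcd_dvd_right (a := η) (b := (m : ℤ))
        exact Int.natCast_dvd_natCast.1 this
      have hm0 : 0 < m := by omega
      have hg0 : 0 < Int.gcd η m := Nat.pos_of_dvd_of_pos hg2 hm0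
      rw [mem_coe, mem_product, Nat.mem_divisors, mem_Icc]
      refine ⟨⟨hg1, Int.natAbs_ne_zero.2 hη⟩, Nat.div_pos (Nat.le_of_dvd hm0 hg2) hg0, ?_⟩
      refine Nat.le_floor ?_
      have h1 : ((m / Int.gcd η m : ℕ) : ℝ) * (Int.gcd η m : ℝ) = m := by
        exact_mod_cast Nat.div_mul_cancel hg2
      have h2 : (m : ℝ) ≤ 3 * N := by
        have : m ≤ 3 * N := by omega
        exact_mod_cast this
      have h3 : ((m / Int.gcd η m : ℕ) : ℝ) * Real.sqrt N ≤ 3 * Real.sqrt N * Real.sqrt N := by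
        calc ((m / Int.gcd η m : ℕ) : ℝ) * Real.sqrt N ≤
              ((m / Int.gcd η m : ℕ) : ℝ) * (Int.gcd η m : ℝ) :=
              mul_le_mul_of_nonneg_left hm2.le (by positivity)
          _ = m := h1
          _ ≤ 3 * N := h2
          _ = 3 * Real.sqrt N * Real.sqrt N := by rw [mul_assoc, hss]
      exact le_of_mul_le_mul_right h3 (by linarith)
    · intro m hm m' hm' he
      rw [mem_coe, mem_filter] at hm hm'
      simp only [Prod.mk.injEq] at he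
      have hg2 : Int.gcd η m ∣ m := by
        have := Int.gcd_dvd_right (a := η) (b := (m : ℤ))
        exact Int.natCast_dvd_natCast.1 this
      have hg2' : Int.gcd η m' ∣ m' := by
        have := Int.gcd_dvd_right (a := η) (b := (m' : ℤ))
        exact Int.natCast_dvd_natCast.1 this
      calc m = m / Int.gcd η m * Int.gcd η m := (Nat.div_mul_cancel hg2).symm
        _ = m' / Int.gcd η m' * Int.gcd η m' := by rw [he.2, he.1]
        _ = m' := Nat.div_mul_cancel hg2'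
  rw [card_product, Nat.card_Icc, Nat.add_sub_cancel] at hcard
  have h1 : (((II N).filter (fun m : ℕ => Real.sqrt N < (Int.gcd η m : ℝ))).card : ℝ) ≤
      (η.natAbs.divisors.card : ℝ) * (⌊3 * Real.sqrt N⌋₊ : ℝ) := by exact_mod_cast hcard
  refine h1.trans (mul_le_mul_of_nonneg_left (Nat.floor_le (by positivity)) (by positivity))

/-- one of the `31` blocks contains no prime divisor of `m` -/
private theorem tb_index (N P0 k : ℕ) (hk : k = 31) (hN : 3 ≤ N)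
    (hP : (N : ℝ) ^ ((1 : ℝ) / 14) ≤ P0) (m : ℕ)
    (hm : m ∈ II N) : ∃ j, j < k ∧ ∀ p ∈ PP (4 ^ j * P0), ¬ p ∣ m := by
  classical
  by_contra hcon
  push Not at hcon
  have hex : ∀ j, ∃ p, j < k → p ∈ PP (4 ^ j * P0) ∧ p ∣ m := by
    intro j
    by_cases hj : j < k
    · obtain ⟨p, h1, h2⟩ := hcon j hj
      exact ⟨p, fun _ => ⟨h1, h2⟩⟩
    · exact ⟨0, fun h => absurd h hj⟩
  choose p hp using hex
  have hpb : ∀ j, j < k → 4 ^ j * P0 < p j ∧ p j ≤ 4 ^ (j + 1) * P0 ∧ (p j).Prime ∧ p j ∣ m := by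
    intro j hj
    obtain ⟨h1, h2⟩ := hp j hj
    unfold PP at h1
    rw [mem_filter, mem_Ioc] at h1
    refine ⟨h1.1.1, ?_, h1.2, h2⟩
    calc p j ≤ 4 * (4 ^ j * P0) := h1.1.2
      _ = 4 ^ (j + 1) * P0 := by ring
  have hlt : ∀ i j, i < j → j < k → p i < p j := by
    intro i j hij hj
    obtain ⟨-, h2, -, -⟩ := hpb i (by omega)
    obtain ⟨h1, -, -, -⟩ := hpb j hj
    calc p i ≤ 4 ^ (i + 1) * P0 := h2
      _ ≤ 4 ^ j * P0 := Nat.mul_le_mul_right _ (Nat.pow_le_pow_right (by norm_num) hij)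
      _ < p j := h1
  have hinj : Set.InjOn p (range k : Set ℕ) := by
    intro i hi j hj he
    rw [mem_coe, mem_range] at hi hj
    rcases lt_trichotomy i j with h | h | h
    · exact absurd he (hlt i j h hj).ne
    · exact h
    · exact absurd he (hlt j i h hi).ne'
  set s := (range k).image p with hs
  have hcard : s.card = k := by
    rw [hs, card_image_of_injOn hinj, card_range]
  have hmem : ∀ q ∈ s, q.Prime ∧ q ∣ m ∧ P0 < q := by
    intro q hq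
    rw [hs, mem_image] at hq
    obtain ⟨j, hj, rfl⟩ := hq
    obtain ⟨h1, -, h3, h4⟩ := hpb j (mem_range.1 hj)
    refine ⟨h3, h4, lt_of_le_of_lt ?_ h1⟩
    exact Nat.le_mul_of_pos_left _ (by positivity)
  have hdvd : ∏ q ∈ s, q ∣ m :=
    Finset.prod_primes_dvd m (fun q hq => (hmem q hq).1.prime) fun q hq => (hmem q hq).2.1
  unfold II at hm
  rw [mem_Ioc] at hm
  have hle : ∏ q ∈ s, q ≤ 2 * N + 1 := (Nat.le_of_dvd (by omega) hdvd).trans hm.2
  have hN1 : (3 : ℝ) ≤ N := by exact_mod_cast hN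
  have hN0 : (0 : ℝ) < N := by linarith
  have h1 : ((N : ℝ) ^ ((1 : ℝ) / 14)) ^ k ≤ ∏ q ∈ s, (q : ℝ) := by
    calc ((N : ℝ) ^ ((1 : ℝ) / 14)) ^ k = ∏ _q ∈ s, (N : ℝ) ^ ((1 : ℝ) / 14) := by
          rw [prod_const, hcard]
      _ ≤ ∏ q ∈ s, (q : ℝ) := by
          refine prod_le_prod (fun _ _ => by positivity) fun q hq => ?_
          exact hP.trans (by exact_mod_cast (hmem q hq).2.2.le)
  have h2 : (N : ℝ) ^ 2 ≤ ((N : ℝ) ^ ((1 : ℝ) / 14)) ^ k := by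
    have e1 : ((N : ℝ) ^ ((1 : ℝ) / 14)) ^ k = (N : ℝ) ^ ((1 : ℝ) / 14 * (k : ℕ)) := by
      rw [Real.rpow_mul hN0.le, Real.rpow_natCast]
    have e2 : (N : ℝ) ^ 2 = (N : ℝ) ^ (2 : ℝ) := by
      rw [← Real.rpow_natCast]
      norm_num
    rw [e1, e2]
    refine Real.rpow_le_rpow_of_exponent_le (by linarith) ?_
    rw [hk]
    norm_num
  have h3 : ∏ q ∈ s, (q : ℝ) ≤ 2 * N + 1 := by
    have : ((∏ q ∈ s, q : ℕ) : ℝ) ≤ ((2 * N + 1 : ℕ) : ℝ) := by exact_mod_cast hle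
    push_cast at this
    exact this
  have h4 : (N : ℝ) ^ 2 ≤ 2 * N + 1 := h2.trans (h1.trans h3)
  nlinarith only [h4, hN1]

private theorem tb_n2 (N : ℕ) (α α' : ℕ → ℂ) (h : ∀ m ∈ II N, ‖α' m‖ ≤ ‖α m‖) :
    n2 (II N) α' ≤ n2 (II N) α :=
  sum_le_sum fun m hm => pow_le_pow_left₀ (norm_nonneg _) (h m hm) 2

private theorem tb_large (κ B : ℝ) (hκ : 0 < κ) :
    ∃ N0 : ℕ, ∀ N : ℕ, N0 ≤ N → B ≤ (N : ℝ) ^ κ := by
  have h := ((tendsto_rpow_atTop hκ).comp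
    (tendsto_natCast_atTop_atTop (R := ℝ))).eventually_ge_atTop B
  obtain ⟨N0, h0⟩ := Filter.eventually_atTop.1 h
  exact ⟨N0, fun N hN => h0 N hN⟩

private theorem tb_cardL (A : ℕ) (hA : 1 ≤ A) (L : Finset ℤ) (hL : Fr A L) :
    (L.card : ℝ) ≤ 3 * A := by
  have h1 : L ⊆ Icc (-(A : ℤ)) A := by
    intro l hl
    rw [mem_Icc]
    exact abs_le.1 (hL l hl).2
  have h2 := card_le_card h1
  rw [Int.card_Icc] at h2
  have h3 : L.card ≤ 3 * A := by omega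
  exact_mod_cast h3

/-- the part on the bad `m` -/
private theorem tb_badpart (C : ℝ) (hC1 : 1 ≤ C) (hdiv : ∀ n : ℕ, 1 ≤ n →
    (n.divisors.card : ℝ) ≤ C * (n : ℝ) ^ ((1 : ℝ) / 40)) (N : ℕ) (hN : 1 ≤ N)
    (hN2 : 24 * C ≤ (N : ℝ) ^ ((3 : ℝ) / 20)) (A : ℕ) (hA : 1 ≤ A)
    (hAN : (A : ℝ) ≤ (N : ℝ) ^ ((1 : ℝ) / 14)) (L : Finset ℤ) (hL : Fr A L) (η : ℤ) (hη : η ≠ 0)
    (hηA : |η| * A ≤ 4 * (N : ℤ) ^ 2) (α α' β : ℕ → ℂ) (F : ℤ → ℝ → ℂ)
    (hF : ∀ l ∈ L, Wt N (F l)) (h1 : ∀ m ∈ II N, ‖α' m‖ ≤ ‖α m‖)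
    (h2 : ∀ m ∈ II N, α' m ≠ 0 → Real.sqrt N < (Int.gcd η m : ℝ)) (ε : ℝ) (hε : 0 < ε) :
    ‖tbS F η N L β α'‖ ≤ 1 / 2 * ((N : ℝ) ^ (19 / 20 + ε) * (A : ℝ) ^ ((7 : ℝ) / 10) *
        (Real.sqrt (n2 (II N) α) * Real.sqrt (n2 (II N) β))) := by
  have hN1 : (1 : ℝ) ≤ N := by exact_mod_cast hN
  have hN0 : (0 : ℝ) < N := by linarith
  have hA1 : (1 : ℝ) ≤ A := by exact_mod_cast hA
  have hA0 : (0 : ℝ) < A := by linarith
  have hC0 : 0 < C := by linarith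
  set S := (II N).filter (fun m : ℕ => Real.sqrt N < (Int.gcd η m : ℝ)) with hS
  have t1 := tb_trivial F η N L β α' hF S fun m hm h0 => by
    rw [hS, mem_filter]
    exact ⟨hm, h2 m hm h0⟩
  have t2 := tb_bad N hN η hη
  rw [← hS] at t2
  -- the divisor function of `η`
  have hη1 : 1 ≤ η.natAbs := Nat.one_le_iff_ne_zero.2 (Int.natAbs_ne_zero.2 hη)
  have hη2 : (η.natAbs : ℝ) ≤ 4 * (N : ℝ) ^ 2 := by
    have e1 : |η| ≤ 4 * (N : ℤ) ^ 2 := by
      have e2 : |η| * 1 ≤ |η| * A :=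
        mul_le_mul_of_nonneg_left (by exact_mod_cast hA) (abs_nonneg _)
      linarith
    have e3 : ((η.natAbs : ℤ) : ℝ) ≤ ((4 * (N : ℤ) ^ 2 : ℤ) : ℝ) := by
      rw [Int.natCast_natAbs]
      exact_mod_cast e1
    push_cast at e3
    rw [Nat.cast_natAbs]
    push_cast
    exact e3
  have t3 : (η.natAbs.divisors.card : ℝ) ≤ 2 * C * (N : ℝ) ^ ((1 : ℝ) / 20) := by
    refine (hdiv _ hη1).trans ?_
    have e1 : (η.natAbs : ℝ) ^ ((1 : ℝ) / 40) ≤ (4 * (N : ℝ) ^ 2) ^ ((1 : ℝ) / 40) :=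
      Real.rpow_le_rpow (by positivity) hη2 (by norm_num)
    have e2 : (4 * (N : ℝ) ^ 2) ^ ((1 : ℝ) / 40) ≤ 2 * (N : ℝ) ^ ((1 : ℝ) / 20) := by
      rw [Real.mul_rpow (by norm_num) (by positivity)]
      have e3 : (4 : ℝ) ^ ((1 : ℝ) / 40) ≤ 2 := by
        have e4 : (4 : ℝ) ^ ((1 : ℝ) / 40) ≤ (4 : ℝ) ^ ((1 : ℝ) / 2) :=
          Real.rpow_le_rpow_of_exponent_le (by norm_num) (by norm_num)
        have e5 : (4 : ℝ) ^ ((1 : ℝ) / 2) = 2 := by
          rw [← Real.sqrt_eq_rpow, show (4 : ℝ) = 2 ^ 2 by norm_num, Real.sqrt_sq (by norm_num)]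
        linarith
      have e6 : ((N : ℝ) ^ 2) ^ ((1 : ℝ) / 40) = (N : ℝ) ^ ((1 : ℝ) / 20) := by
        rw [← Real.rpow_natCast, ← Real.rpow_mul hN0.le]
        norm_num
      rw [e6]
      exact mul_le_mul_of_nonneg_right e3 (by positivity)
    calc C * (η.natAbs : ℝ) ^ ((1 : ℝ) / 40) ≤ C * (2 * (N : ℝ) ^ ((1 : ℝ) / 20)) :=
          mul_le_mul_of_nonneg_left (e1.trans e2) hC0.le
      _ = 2 * C * (N : ℝ) ^ ((1 : ℝ) / 20) := by ring
  -- the count times `N + 1`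
  have t4 : (S.card : ℝ) * (N + 1) ≤ (4 * C * (N : ℝ) ^ ((31 : ℝ) / 40)) ^ 2 := by
    have e1 : (S.card : ℝ) ≤ 2 * C * (N : ℝ) ^ ((1 : ℝ) / 20) * (3 * (N : ℝ) ^ ((1 : ℝ) / 2)) := by
      refine t2.trans ?_
      rw [Real.sqrt_eq_rpow]
      exact mul_le_mul_of_nonneg_right t3 (by positivity)
    have e2 : ((N : ℝ) + 1) ≤ 2 * N := by linarith
    have e3 : (N : ℝ) ^ ((1 : ℝ) / 20) * (N : ℝ) ^ ((1 : ℝ) / 2) * N =
        ((N : ℝ) ^ ((31 : ℝ) / 40)) ^ 2 := by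
      have e4 : (N : ℝ) ^ ((1 : ℝ) / 20) * (N : ℝ) ^ ((1 : ℝ) / 2) * N =
          (N : ℝ) ^ ((1 : ℝ) / 20) * (N : ℝ) ^ ((1 : ℝ) / 2) * (N : ℝ) ^ (1 : ℝ) := by
        rw [Real.rpow_one]
      rw [e4, ← Real.rpow_add hN0, ← Real.rpow_add hN0, ← Real.rpow_natCast ((N : ℝ) ^ _),
        ← Real.rpow_mul hN0.le]
      norm_num
    calc (S.card : ℝ) * (N + 1) ≤
        (2 * C * (N : ℝ) ^ ((1 : ℝ) / 20) * (3 * (N : ℝ) ^ ((1 : ℝ) / 2))) * (2 * N) :=
          mul_le_mul e1 e2 (by positivity) (by positivity)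
      _ = 12 * C * ((N : ℝ) ^ ((1 : ℝ) / 20) * (N : ℝ) ^ ((1 : ℝ) / 2) * N) := by ring
      _ = 12 * C * ((N : ℝ) ^ ((31 : ℝ) / 40)) ^ 2 := by rw [e3]
      _ ≤ 16 * C ^ 2 * ((N : ℝ) ^ ((31 : ℝ) / 40)) ^ 2 := by
          refine mul_le_mul_of_nonneg_right ?_ (by positivity)
          nlinarith
      _ = (4 * C * (N : ℝ) ^ ((31 : ℝ) / 40)) ^ 2 := by ring
  have t5 : Real.sqrt S.card * Real.sqrt (N + 1 : ℝ) ≤ 4 * C * (N : ℝ) ^ ((31 : ℝ) / 40) := by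
    rw [← Real.sqrt_mul (by positivity)]
    refine Real.sqrt_le_iff.2 ⟨by positivity, t4⟩
  have t6 : Real.sqrt (n2 (II N) α') ≤ Real.sqrt (n2 (II N) α) := Real.sqrt_le_sqrt (tb_n2 N α α' h1)
  have t7 := tb_cardL A hA L hL
  -- powers of `A`
  have t8 : (A : ℝ) ≤ (A : ℝ) ^ ((7 : ℝ) / 10) * (N : ℝ) ^ ((1 : ℝ) / 40) := by
    have e1 : (A : ℝ) ^ ((3 : ℝ) / 10) ≤ (N : ℝ) ^ ((1 : ℝ) / 40) := by
      calc (A : ℝ) ^ ((3 : ℝ) / 10) ≤ ((N : ℝ) ^ ((1 : ℝ) / 14)) ^ ((3 : ℝ) / 10) :=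
            Real.rpow_le_rpow hA0.le hAN (by norm_num)
        _ = (N : ℝ) ^ ((3 : ℝ) / 140) := by
            rw [← Real.rpow_mul hN0.le]
            norm_num
        _ ≤ (N : ℝ) ^ ((1 : ℝ) / 40) :=
            Real.rpow_le_rpow_of_exponent_le hN1 (by norm_num)
    have e2 : (A : ℝ) = (A : ℝ) ^ ((7 : ℝ) / 10) * (A : ℝ) ^ ((3 : ℝ) / 10) := by
      rw [← Real.rpow_add hA0]
      norm_num
    calc (A : ℝ) = (A : ℝ) ^ ((7 : ℝ) / 10) * (A : ℝ) ^ ((3 : ℝ) / 10) := e2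
      _ ≤ _ := mul_le_mul_of_nonneg_left e1 (by positivity)
  have t9 : 24 * C * (N : ℝ) ^ ((4 : ℝ) / 5) ≤ (N : ℝ) ^ (19 / 20 + ε) := by
    calc 24 * C * (N : ℝ) ^ ((4 : ℝ) / 5) ≤ (N : ℝ) ^ ((3 : ℝ) / 20) * (N : ℝ) ^ ((4 : ℝ) / 5) :=
          mul_le_mul_of_nonneg_right hN2 (by positivity)
      _ = (N : ℝ) ^ ((19 : ℝ) / 20) := by
          rw [← Real.rpow_add hN0]
          norm_num
      _ ≤ (N : ℝ) ^ (19 / 20 + ε) :=
          Real.rpow_le_rpow_of_exponent_le hN1 (by linarith)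
  set a := Real.sqrt (n2 (II N) α) with ha
  set b := Real.sqrt (n2 (II N) β) with hb
  set a' := Real.sqrt (n2 (II N) α') with ha'
  have a0 : 0 ≤ a := Real.sqrt_nonneg _
  have b0 : 0 ≤ b := Real.sqrt_nonneg _
  have a0' : 0 ≤ a' := Real.sqrt_nonneg _
  refine t1.trans ?_
  have s0 : 0 ≤ Real.sqrt (S.card : ℝ) := Real.sqrt_nonneg _
  have s1 : 0 ≤ Real.sqrt (N + 1 : ℝ) := Real.sqrt_nonneg _
  calc (L.card : ℝ) * (Real.sqrt S.card * a' * (Real.sqrt (N + 1 : ℝ) * b)) =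
        (L.card : ℝ) * ((Real.sqrt S.card * Real.sqrt (N + 1 : ℝ)) * (a' * b)) := by ring
    _ ≤ (3 * A) * ((4 * C * (N : ℝ) ^ ((31 : ℝ) / 40)) * (a * b)) := by
        refine mul_le_mul t7 ?_ (by positivity) (by positivity)
        exact mul_le_mul t5 (mul_le_mul_of_nonneg_right t6 b0) (by positivity) (by positivity)
    _ = 12 * C * (N : ℝ) ^ ((31 : ℝ) / 40) * (a * b) * A := by ring
    _ ≤ 12 * C * (N : ℝ) ^ ((31 : ℝ) / 40) * (a * b) *
          ((A : ℝ) ^ ((7 : ℝ) / 10) * (N : ℝ) ^ ((1 : ℝ) / 40)) :=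
        mul_le_mul_of_nonneg_left t8 (by positivity)
    _ = 1 / 2 * (24 * C * ((N : ℝ) ^ ((31 : ℝ) / 40) * (N : ℝ) ^ ((1 : ℝ) / 40)) *
          (A : ℝ) ^ ((7 : ℝ) / 10) * (a * b)) := by ring
    _ = 1 / 2 * (24 * C * (N : ℝ) ^ ((4 : ℝ) / 5) * (A : ℝ) ^ ((7 : ℝ) / 10) * (a * b)) := by
        rw [← Real.rpow_add hN0]
        norm_num
    _ ≤ 1 / 2 * ((N : ℝ) ^ (19 / 20 + ε) * (A : ℝ) ^ ((7 : ℝ) / 10) * (a * b)) := by
        refine mul_le_mul_of_nonneg_left ?_ (by norm_num)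
        refine mul_le_mul_of_nonneg_right ?_ (by positivity)
        exact mul_le_mul_of_nonneg_right t9 (by positivity)

theorem kt (hW : WB) : KT := by
  classical
  intro ε hε
  obtain ⟨N1, hfree⟩ := kt_free hW (ε / 2) (by positivity)
  obtain ⟨C, hC1, hdiv⟩ := Pool.Agent.H92.EH.div_bound (1 / 40) (by norm_num)
  obtain ⟨N2, hN2⟩ := tb_large (3 / 20) (24 * C) (by norm_num)
  obtain ⟨N3, hN3⟩ := tb_large (ε / 2) 62 (by positivity)
  refine ⟨max 3 (max N1 (max N2 N3)), fun N hN A hA hAN L hL η hη hηA α β F hF => ?_⟩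
  have g0 : 3 ≤ N := (le_max_left _ _).trans hN
  have g1 : N1 ≤ N := ((le_max_left _ _).trans (le_max_right _ _)).trans hN
  have g2 : N2 ≤ N := (((le_max_left _ _).trans (le_max_right _ _)).trans (le_max_right _ _)).trans hN
  have g3 : N3 ≤ N := (((le_max_right _ _).trans (le_max_right _ _)).trans (le_max_right _ _)).trans hN
  have b2 := hN2 N g2
  have b3 := hN3 N g3
  have hN1 : (1 : ℝ) ≤ N := by
    have : 1 ≤ N := by omega
    exact_mod_cast this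
  have hN0 : (0 : ℝ) < N := by linarith
  have hA1 : (1 : ℝ) ≤ A := by exact_mod_cast hA
  have hA0 : (0 : ℝ) < A := by linarith
  have hA14 : (A : ℝ) ≤ (N : ℝ) ^ ((1 : ℝ) / 14) :=
    hAN.trans (Real.rpow_le_rpow_of_exponent_le hN1 (by linarith))
  set S := (N : ℝ) ^ ((1 : ℝ) / 10) * (A : ℝ) ^ (-(2 : ℝ) / 5) with hS
  have hS14 : (N : ℝ) ^ ((1 : ℝ) / 14) ≤ S := by
    have e1 : ((N : ℝ) ^ ((1 : ℝ) / 14)) ^ (-(2 : ℝ) / 5) ≤ (A : ℝ) ^ (-(2 : ℝ) / 5) :=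
      Real.rpow_le_rpow_of_nonpos hA0 hA14 (by norm_num)
    calc (N : ℝ) ^ ((1 : ℝ) / 14) =
          (N : ℝ) ^ ((1 : ℝ) / 10) * ((N : ℝ) ^ ((1 : ℝ) / 14)) ^ (-(2 : ℝ) / 5) := by
          rw [← Real.rpow_mul hN0.le, ← Real.rpow_add hN0]
          norm_num
      _ ≤ S := mul_le_mul_of_nonneg_left e1 (by positivity)
  have hS1 : 1 ≤ S := hA1.trans (hA14.trans hS14)
  set P0 := ⌈S⌉₊ with hP0
  have hP0S : S ≤ P0 := Nat.le_ceil _
  have hP0S2 : (P0 : ℝ) ≤ 2 * S := by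
    have := Nat.ceil_lt_add_one (show 0 ≤ S by linarith)
    linarith
  have hidx : ∀ m, ∃ j, m ∈ II N → j < 31 ∧ ∀ p ∈ PP (4 ^ j * P0), ¬ p ∣ m := by
    intro m
    by_cases hm : m ∈ II N
    · obtain ⟨j, h1, h2⟩ := tb_index N P0 31 rfl g0 (hS14.trans hP0S) m hm
      exact ⟨j, fun _ => ⟨h1, h2⟩⟩
    · exact ⟨0, fun h => absurd h hm⟩
  choose jj hjj using hidx
  set X := (N : ℝ) ^ (19 / 20 + ε) * (A : ℝ) ^ ((7 : ℝ) / 10) *
        (Real.sqrt (n2 (II N) α) * Real.sqrt (n2 (II N) β)) with hX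
  set αb : ℕ → ℂ := fun m => if (Int.gcd η m : ℝ) ≤ Real.sqrt N then 0 else α m with hαb
  set αj : ℕ → ℕ → ℂ := fun j m =>
    if (Int.gcd η m : ℝ) ≤ Real.sqrt N ∧ jj m = j then α m else 0 with hαj
  have hdec : ∀ m ∈ II N, α m = αb m + ∑ j ∈ range 31, αj j m := by
    intro m hm
    have hj := (hjj m hm).1
    by_cases h : (Int.gcd η m : ℝ) ≤ Real.sqrt N
    · have e1 : αb m = 0 := if_pos h
      have e2 : ∑ j ∈ range 31, αj j m = αj (jj m) m := by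
        refine sum_eq_single (jj m) ?_ ?_
        · intro j _ hne
          exact if_neg fun hh => hne hh.2.symm
        · intro hh
          exact absurd (mem_range.2 hj) hh
      have e3 : αj (jj m) m = α m := if_pos ⟨h, rfl⟩
      rw [e1, e2, e3, zero_add]
    · have e1 : αb m = α m := if_neg h
      have e2 : ∑ j ∈ range 31, αj j m = 0 :=
        sum_eq_zero fun j _ => if_neg fun hh => h hh.1
      rw [e1, e2, add_zero]
  have hmain : tbS F η N L β α = tbS F η N L β αb + ∑ j ∈ range 31, tbS F η N L β (αj j) := by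
    rw [tb_congr F η N L β α _ hdec, tb_add, tb_sum]
  have hbad : ‖tbS F η N L β αb‖ ≤ 1 / 2 * X := by
    refine tb_badpart C hC1 hdiv N (by omega) b2 A hA hA14 L hL η hη hηA α αb β F hF ?_ ?_ ε hε
    · intro m _
      simp only [hαb]
      split_ifs
      · rw [norm_zero]
        exact norm_nonneg _
      · exact le_rfl
    · intro m _ h0
      by_contra hcon
      exact h0 (if_pos (not_lt.1 hcon))
  have hfr : ∀ j ∈ range 31, ‖tbS F η N L β (αj j)‖ ≤ 1 / 62 * X := by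
    intro j hj
    have hj31 := mem_range.1 hj
    have hle : ∀ m ∈ II N, ‖αj j m‖ ≤ ‖α m‖ := by
      intro m _
      simp only [hαj]
      split_ifs
      · exact le_rfl
      · rw [norm_zero]
        exact norm_nonneg _
    have hPj : P0 ≤ 4 ^ j * P0 := Nat.le_mul_of_pos_left _ (by positivity)
    have hPjr : (P0 : ℝ) ≤ ((4 ^ j * P0 : ℕ) : ℝ) := by exact_mod_cast hPj
    have h4 : (4 : ℝ) ^ j ≤ 4 ^ 30 := pow_le_pow_right₀ (by norm_num) (by omega)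
    have key := hfree N g1 (4 ^ j * P0) A hA hA14 (by
        have : (A : ℝ) ≤ ((4 ^ j * P0 : ℕ) : ℝ) := (hA14.trans (hS14.trans hP0S)).trans hPjr
        exact_mod_cast this)
      (by linarith)
      (by
        push_cast
        calc (4 : ℝ) ^ j * P0 ≤ 4 ^ 30 * (2 * S) :=
              mul_le_mul h4 hP0S2 (by positivity) (by positivity)
          _ ≤ 10 ^ 20 * S := by
              rw [← mul_assoc]
              exact mul_le_mul_of_nonneg_right (by norm_num) (by linarith))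
      L hL η hη hηA (αj j) β
      (by
        intro m hm h0
        have h5 : (Int.gcd η m : ℝ) ≤ Real.sqrt N ∧ jj m = j := by
          by_contra hcon
          exact h0 (if_neg hcon)
        have h6 := (hjj m hm).2
        rw [h5.2] at h6
        exact h6)
      (by
        intro m _ h0
        by_contra hcon
        exact h0 (if_neg fun hh => hcon hh.1))
      F hF
    have key' : ‖tbS F η N L β (αj j)‖ ≤ (N : ℝ) ^ (19 / 20 + ε / 2) *
        (A : ℝ) ^ ((7 : ℝ) / 10) * (Real.sqrt (n2 (II N) (αj j)) * Real.sqrt (n2 (II N) β)) := key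
    refine key'.trans ?_
    have e1 : Real.sqrt (n2 (II N) (αj j)) ≤ Real.sqrt (n2 (II N) α) :=
      Real.sqrt_le_sqrt (tb_n2 N α (αj j) hle)
    have e2 : (N : ℝ) ^ (19 / 20 + ε / 2) ≤ 1 / 62 * (N : ℝ) ^ (19 / 20 + ε) := by
      have e3 : (N : ℝ) ^ (19 / 20 + ε) = (N : ℝ) ^ (19 / 20 + ε / 2) * (N : ℝ) ^ (ε / 2) := by
        rw [← Real.rpow_add hN0]
        congr 1
        ring
      rw [e3]
      have e4 : 0 < (N : ℝ) ^ (19 / 20 + ε / 2) := by positivity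
      nlinarith
    have e5 : 0 ≤ Real.sqrt (n2 (II N) β) := Real.sqrt_nonneg _
    have e6 : 0 ≤ Real.sqrt (n2 (II N) (αj j)) := Real.sqrt_nonneg _
    calc (N : ℝ) ^ (19 / 20 + ε / 2) * (A : ℝ) ^ ((7 : ℝ) / 10) *
          (Real.sqrt (n2 (II N) (αj j)) * Real.sqrt (n2 (II N) β)) ≤
        (1 / 62 * (N : ℝ) ^ (19 / 20 + ε)) * (A : ℝ) ^ ((7 : ℝ) / 10) *
          (Real.sqrt (n2 (II N) α) * Real.sqrt (n2 (II N) β)) := by
          refine mul_le_mul ?_ (mul_le_mul_of_nonneg_right e1 e5) (by positivity) (by positivity)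
          exact mul_le_mul_of_nonneg_right e2 (by positivity)
      _ = 1 / 62 * X := by rw [hX]; ring
  have hgoal : ‖tbS F η N L β α‖ ≤ X := by
    rw [hmain]
    refine (norm_add_le _ _).trans ?_
    have e1 : ‖∑ j ∈ range 31, tbS F η N L β (αj j)‖ ≤ ∑ _j ∈ range 31, 1 / 62 * X :=
      (norm_sum_le _ _).trans (sum_le_sum hfr)
    rw [sum_const, card_range, nsmul_eq_mul] at e1
    push_cast at e1
    linarith
  exact hgoal

end Pool.Agent.H35.WT
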