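import Pool.Agent.H35.WT.Defs

/-!
# WT-Tv: total variation of the smooth weight with four functions

Copy of `tv` (Pool/Agent/H94/EH/M13.lean, line 1709, private lemmas `Tv_*` before it) with `GG4`
(four weights) and `|c| ≤ 40 N`: `2·240·... + 2·480 + 2·2π·80 ≤ 5000` (the two `ee` factors have
variation at most `2π · 2 · 40` each).
-/

set_option autoImplicit false

namespace Pool.Agent.H35.WT

open Finset
open Pool.Agent.H80.KF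

private theorem tv4_aff (N T : ℕ) (n0 ν : ℝ)
    (hn : ∀ t : ℕ, t < T → (N : ℝ) ≤ n0 + ν * t ∧ n0 + ν * t ≤ 3 * N) :
    ∑ _t ∈ range (T - 1), |ν| ≤ 2 * N := by
  rcases Nat.eq_zero_or_pos T with h | h
  · subst h
    simp
  · have h1 := hn 0 h
    have h2 := hn (T - 1) (by omega)
    simp only [Nat.cast_zero, mul_zero, add_zero] at h1
    rw [sum_const, card_range, nsmul_eq_mul]
    have h3 : ((T - 1 : ℕ) : ℝ) * |ν| = |ν * ((T - 1 : ℕ) : ℝ)| := by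
      rw [abs_mul, Nat.abs_cast, mul_comm]
    rw [h3, abs_le]
    constructor
    · linarith [h1.1, h1.2, h2.1, h2.2]
    · linarith [h1.1, h1.2, h2.1, h2.2]

private theorem tv4_F (N : ℕ) (hN : 1 ≤ N) (F : ℝ → ℂ) (hF : Wt N F) (T : ℕ) (y : ℕ → ℝ)
    (hy : ∀ t < T, (N : ℝ) ^ 2 ≤ y t ∧ y t ≤ 9 * (N : ℝ) ^ 2) (K : ℝ)
    (hK : ∑ t ∈ range (T - 1), |y (t + 1) - y t| ≤ K * (N : ℝ) ^ 2) :
    ∑ t ∈ range (T - 1), ‖F (y (t + 1)) - F (y t)‖ ≤ 40 * K := by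
  have hN0 : (0 : ℝ) < N := by exact_mod_cast hN
  calc ∑ t ∈ range (T - 1), ‖F (y (t + 1)) - F (y t)‖
      ≤ ∑ t ∈ range (T - 1), 40 / (N : ℝ) ^ 2 * |y (t + 1) - y t| := by
        refine sum_le_sum fun t ht => ?_
        rw [mem_range] at ht
        have h1 := hy (t + 1) (by omega)
        have h2 := hy t (by omega)
        exact hF.2 _ _ h1.1 h1.2 h2.1 h2.2
    _ = 40 / (N : ℝ) ^ 2 * ∑ t ∈ range (T - 1), |y (t + 1) - y t| := by rw [mul_sum]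
    _ ≤ 40 / (N : ℝ) ^ 2 * (K * (N : ℝ) ^ 2) :=
        mul_le_mul_of_nonneg_left hK (by positivity)
    _ = 40 * K := by field_simp

private theorem tv4_one (N : ℕ) (hN : 1 ≤ N) (F : ℝ → ℂ) (hF : Wt N F) (A : ℝ) (hA : (N : ℝ) ≤ A)
    (hA' : A ≤ 3 * N) (T : ℕ) (n0 ν : ℝ)
    (hn : ∀ t : ℕ, t < T → (N : ℝ) ≤ n0 + ν * t ∧ n0 + ν * t ≤ 3 * N) :
    ∑ t ∈ range (T - 1), ‖F (A * (n0 + ν * ((t + 1 : ℕ) : ℝ))) - F (A * (n0 + ν * (t : ℝ)))‖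
      ≤ 240 := by
  have hN0 : (0 : ℝ) < N := by exact_mod_cast hN
  have h := tv4_F N hN F hF T (fun t => A * (n0 + ν * (t : ℝ))) ?_ 6 ?_
  · exact h.trans (by norm_num)
  · intro t ht
    have h1 := hn t ht
    constructor
    · show (N : ℝ) ^ 2 ≤ A * (n0 + ν * (t : ℝ))
      rw [pow_two]
      exact mul_le_mul hA h1.1 hN0.le (hN0.le.trans hA)
    · show A * (n0 + ν * (t : ℝ)) ≤ 9 * (N : ℝ) ^ 2
      calc A * (n0 + ν * (t : ℝ)) ≤ (3 * N) * (3 * N) :=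
            mul_le_mul hA' h1.2 (hN0.le.trans h1.1) (by positivity)
        _ = 9 * (N : ℝ) ^ 2 := by ring
  · have h2 := tv4_aff N T n0 ν hn
    have h3 : ∀ t : ℕ, |A * (n0 + ν * ((t + 1 : ℕ) : ℝ)) - A * (n0 + ν * (t : ℝ))| = A * |ν| := by
      intro t
      have h4 : A * (n0 + ν * ((t + 1 : ℕ) : ℝ)) - A * (n0 + ν * (t : ℝ)) = A * ν := by
        push_cast; ring
      rw [h4, abs_mul, abs_of_pos (hN0.trans_le hA)]
    simp only [h3]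
    rw [← mul_sum]
    calc A * ∑ _t ∈ range (T - 1), |ν| ≤ (3 * N) * (2 * N) :=
          mul_le_mul hA' h2 (sum_nonneg fun _ _ => abs_nonneg _) (by positivity)
      _ = 6 * (N : ℝ) ^ 2 := by ring

private theorem tv4_two (N : ℕ) (hN : 1 ≤ N) (F : ℝ → ℂ) (hF : Wt N F) (T : ℕ) (m0 μ n0 ν : ℝ)
    (hm : ∀ t : ℕ, t < T → (N : ℝ) ≤ m0 + μ * t ∧ m0 + μ * t ≤ 3 * N)
    (hn : ∀ t : ℕ, t < T → (N : ℝ) ≤ n0 + ν * t ∧ n0 + ν * t ≤ 3 * N) :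
    ∑ t ∈ range (T - 1), ‖F ((m0 + μ * ((t + 1 : ℕ) : ℝ)) * (n0 + ν * ((t + 1 : ℕ) : ℝ))) -
      F ((m0 + μ * (t : ℝ)) * (n0 + ν * (t : ℝ)))‖ ≤ 480 := by
  have hN0 : (0 : ℝ) < N := by exact_mod_cast hN
  have h := tv4_F N hN F hF T (fun t => (m0 + μ * (t : ℝ)) * (n0 + ν * (t : ℝ))) ?_ 12 ?_
  · exact h.trans (by norm_num)
  · intro t ht
    have h1 := hn t ht
    have h2 := hm t ht
    constructor
    · show (N : ℝ) ^ 2 ≤ (m0 + μ * (t : ℝ)) * (n0 + ν * (t : ℝ))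
      rw [pow_two]
      exact mul_le_mul h2.1 h1.1 hN0.le (hN0.le.trans h2.1)
    · show (m0 + μ * (t : ℝ)) * (n0 + ν * (t : ℝ)) ≤ 9 * (N : ℝ) ^ 2
      calc (m0 + μ * (t : ℝ)) * (n0 + ν * (t : ℝ)) ≤ (3 * N) * (3 * N) :=
            mul_le_mul h2.2 h1.2 (hN0.le.trans h1.1) (by positivity)
        _ = 9 * (N : ℝ) ^ 2 := by ring
  · have h2 := tv4_aff N T n0 ν hn
    have h3 := tv4_aff N T m0 μ hm
    calc ∑ t ∈ range (T - 1), |(m0 + μ * ((t + 1 : ℕ) : ℝ)) * (n0 + ν * ((t + 1 : ℕ) : ℝ)) -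
          (m0 + μ * (t : ℝ)) * (n0 + ν * (t : ℝ))|
        ≤ ∑ t ∈ range (T - 1), (3 * N * |ν| + 3 * N * |μ|) := by
          refine sum_le_sum fun t ht => ?_
          rw [mem_range] at ht
          have e1 := hm (t + 1) (by omega)
          have e2 := hn t (by omega)
          have e3 : (m0 + μ * ((t + 1 : ℕ) : ℝ)) * (n0 + ν * ((t + 1 : ℕ) : ℝ)) -
              (m0 + μ * (t : ℝ)) * (n0 + ν * (t : ℝ)) =
              (m0 + μ * ((t + 1 : ℕ) : ℝ)) * ν + (n0 + ν * (t : ℝ)) * μ := by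
            push_cast; ring
          rw [e3]
          refine (abs_add_le _ _).trans (add_le_add ?_ ?_)
          · rw [abs_mul, abs_of_nonneg (hN0.le.trans e1.1)]
            exact mul_le_mul_of_nonneg_right e1.2 (abs_nonneg _)
          · rw [abs_mul, abs_of_nonneg (hN0.le.trans e2.1)]
            exact mul_le_mul_of_nonneg_right e2.2 (abs_nonneg _)
      _ = 3 * N * ∑ _t ∈ range (T - 1), |ν| + 3 * N * ∑ _t ∈ range (T - 1), |μ| := by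
          rw [sum_add_distrib, mul_sum, mul_sum]
      _ ≤ 3 * N * (2 * N) + 3 * N * (2 * N) := by
          gcongr
      _ = 12 * (N : ℝ) ^ 2 := by ring

private theorem tv4_ee (N : ℕ) (hN : 1 ≤ N) (c : ℝ) (hc : |c| ≤ 40 * N) (T : ℕ) (n0 ν : ℝ)
    (hn : ∀ t : ℕ, t < T → (N : ℝ) ≤ n0 + ν * t ∧ n0 + ν * t ≤ 3 * N) :
    ∑ t ∈ range (T - 1), ‖ee (c / (n0 + ν * ((t + 1 : ℕ) : ℝ))) - ee (c / (n0 + ν * (t : ℝ)))‖
      ≤ 160 * Real.pi := by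
  have hN0 : (0 : ℝ) < N := by exact_mod_cast hN
  have h2 := tv4_aff N T n0 ν hn
  calc ∑ t ∈ range (T - 1), ‖ee (c / (n0 + ν * ((t + 1 : ℕ) : ℝ))) - ee (c / (n0 + ν * (t : ℝ)))‖
      ≤ ∑ t ∈ range (T - 1), 2 * Real.pi * (40 / N) * |ν| := by
        refine sum_le_sum fun t ht => ?_
        rw [mem_range] at ht
        have e1 := hn (t + 1) (by omega)
        have e2 := hn t (by omega)
        have p1 := hN0.trans_le e1.1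
        have p2 := hN0.trans_le e2.1
        refine (ee_lip _ _).trans ?_
        rw [mul_assoc (2 * Real.pi)]
        refine mul_le_mul_of_nonneg_left ?_ (by positivity)
        have e3 : c / (n0 + ν * ((t + 1 : ℕ) : ℝ)) - c / (n0 + ν * (t : ℝ)) =
            -(c * ν) / ((n0 + ν * ((t + 1 : ℕ) : ℝ)) * (n0 + ν * (t : ℝ))) := by
          rw [div_sub_div _ _ p1.ne' p2.ne']
          congr 1
          push_cast
          ring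
        rw [e3, abs_div, abs_neg, abs_mul, abs_of_pos (mul_pos p1 p2), div_le_iff₀ (mul_pos p1 p2)]
        have e4 : (N : ℝ) * N ≤ (n0 + ν * ((t + 1 : ℕ) : ℝ)) * (n0 + ν * (t : ℝ)) :=
          mul_le_mul e1.1 e2.1 hN0.le p1.le
        calc |c| * |ν| ≤ 40 * N * |ν| := mul_le_mul_of_nonneg_right hc (abs_nonneg _)
          _ = 40 / N * |ν| * (N * N) := by field_simp
          _ ≤ _ := mul_le_mul_of_nonneg_left e4 (by positivity)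
    _ = 2 * Real.pi * (40 / N) * ∑ _t ∈ range (T - 1), |ν| := by rw [mul_sum]
    _ ≤ 2 * Real.pi * (40 / N) * (2 * N) := mul_le_mul_of_nonneg_left h2 (by positivity)
    _ = 160 * Real.pi := by field_simp; ring

private theorem tv4_conj (g : ℕ → ℂ) (T : ℕ) :
    ∑ t ∈ range (T - 1), ‖(starRingEnd ℂ) (g (t + 1)) - (starRingEnd ℂ) (g t)‖ =
      ∑ t ∈ range (T - 1), ‖g (t + 1) - g t‖ := by
  refine sum_congr rfl fun t _ => ?_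
  rw [← map_sub, RCLike.norm_conj]

private theorem tv4_le_one {a b : ℂ} (ha : ‖a‖ ≤ 1) (hb : ‖b‖ ≤ 1) : ‖a * b‖ ≤ 1 := by
  rw [norm_mul]
  exact mul_le_one₀ ha (norm_nonneg _) hb

theorem tv4 (N : ℕ) (hN : 1 ≤ N) (F1 F2 F3 F4 : ℝ → ℂ) (hF1 : Wt N F1) (hF2 : Wt N F2)
    (hF3 : Wt N F3) (hF4 : Wt N F4) (A c1 c2 : ℝ) (hA : (N : ℝ) ≤ A)
    (hA' : A ≤ 3 * N) (hc1 : |c1| ≤ 40 * N) (hc2 : |c2| ≤ 40 * N) (T : ℕ)
    (m0 μ n0 ν n1 ν' : ℝ)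
    (hm : ∀ t : ℕ, t < T → (N : ℝ) ≤ m0 + μ * t ∧ m0 + μ * t ≤ 3 * N)
    (hn : ∀ t : ℕ, t < T → (N : ℝ) ≤ n0 + ν * t ∧ n0 + ν * t ≤ 3 * N)
    (hn' : ∀ t : ℕ, t < T → (N : ℝ) ≤ n1 + ν' * t ∧ n1 + ν' * t ≤ 3 * N) :
    (∀ t : ℕ, t < T → ‖GG4 F1 F2 F3 F4 A c1 c2 (m0 + μ * t) (n0 + ν * t) (n1 + ν' * t)‖ ≤ 1) ∧
    ∑ t ∈ range (T - 1), ‖GG4 F1 F2 F3 F4 A c1 c2 (m0 + μ * (t + 1 : ℕ)) (n0 + ν * (t + 1 : ℕ))
        (n1 + ν' * (t + 1 : ℕ)) -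
      GG4 F1 F2 F3 F4 A c1 c2 (m0 + μ * t) (n0 + ν * t) (n1 + ν' * t)‖ ≤ 5000 := by
  let g1 : ℕ → ℂ := fun t => F1 (A * (n0 + ν * (t : ℝ)))
  let g2 : ℕ → ℂ := fun t => (starRingEnd ℂ) (F2 ((m0 + μ * (t : ℝ)) * (n0 + ν * (t : ℝ))))
  let g3 : ℕ → ℂ := fun t => (starRingEnd ℂ) (F3 (A * (n1 + ν' * (t : ℝ))))
  let g4 : ℕ → ℂ := fun t => F4 ((m0 + μ * (t : ℝ)) * (n1 + ν' * (t : ℝ)))
  let g5 : ℕ → ℂ := fun t => ee (c1 / (n0 + ν * (t : ℝ)))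
  let g6 : ℕ → ℂ := fun t => (starRingEnd ℂ) (ee (c2 / (n1 + ν' * (t : ℝ))))
  have b1 : ∀ t, ‖g1 t‖ ≤ 1 := fun t => hF1.1 _
  have b2 : ∀ t, ‖g2 t‖ ≤ 1 := fun t => by
    show ‖(starRingEnd ℂ) _‖ ≤ 1
    rw [RCLike.norm_conj]; exact hF2.1 _
  have b3 : ∀ t, ‖g3 t‖ ≤ 1 := fun t => by
    show ‖(starRingEnd ℂ) _‖ ≤ 1
    rw [RCLike.norm_conj]; exact hF3.1 _
  have b4 : ∀ t, ‖g4 t‖ ≤ 1 := fun t => hF4.1 _
  have b5 : ∀ t, ‖g5 t‖ ≤ 1 := fun t => (norm_ee _).le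
  have b6 : ∀ t, ‖g6 t‖ ≤ 1 := fun t => by
    show ‖(starRingEnd ℂ) _‖ ≤ 1
    rw [RCLike.norm_conj]; exact (norm_ee _).le
  have v1 : ∑ t ∈ range (T - 1), ‖g1 (t + 1) - g1 t‖ ≤ 240 :=
    tv4_one N hN F1 hF1 A hA hA' T n0 ν hn
  have v2 : ∑ t ∈ range (T - 1), ‖g2 (t + 1) - g2 t‖ ≤ 480 :=
    (tv4_conj (fun t => F2 ((m0 + μ * (t : ℝ)) * (n0 + ν * (t : ℝ)))) T).trans_le
      (tv4_two N hN F2 hF2 T m0 μ n0 ν hm hn)
  have v3 : ∑ t ∈ range (T - 1), ‖g3 (t + 1) - g3 t‖ ≤ 240 :=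
    (tv4_conj (fun t => F3 (A * (n1 + ν' * (t : ℝ)))) T).trans_le
      (tv4_one N hN F3 hF3 A hA hA' T n1 ν' hn')
  have v4 : ∑ t ∈ range (T - 1), ‖g4 (t + 1) - g4 t‖ ≤ 480 :=
    tv4_two N hN F4 hF4 T m0 μ n1 ν' hm hn'
  have v5 : ∑ t ∈ range (T - 1), ‖g5 (t + 1) - g5 t‖ ≤ 160 * Real.pi :=
    tv4_ee N hN c1 hc1 T n0 ν hn
  have v6 : ∑ t ∈ range (T - 1), ‖g6 (t + 1) - g6 t‖ ≤ 160 * Real.pi :=
    (tv4_conj (fun t => ee (c2 / (n1 + ν' * (t : ℝ)))) T).trans_le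
      (tv4_ee N hN c2 hc2 T n1 ν' hn')
  have w12 := bv_mul g1 g2 T (fun t _ => b1 t) (fun t _ => b2 t)
  have w34 := bv_mul g3 g4 T (fun t _ => b3 t) (fun t _ => b4 t)
  have w56 := bv_mul g5 g6 T (fun t _ => b5 t) (fun t _ => b6 t)
  have w14 := bv_mul (fun t => g1 t * g2 t) (fun t => g3 t * g4 t) T
    (fun t _ => tv4_le_one (b1 t) (b2 t)) (fun t _ => tv4_le_one (b3 t) (b4 t))
  have w := bv_mul (fun t => g1 t * g2 t * (g3 t * g4 t)) (fun t => g5 t * g6 t) T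
    (fun t _ => tv4_le_one (tv4_le_one (b1 t) (b2 t)) (tv4_le_one (b3 t) (b4 t)))
    (fun t _ => tv4_le_one (b5 t) (b6 t))
  have hpi := Real.pi_lt_four
  constructor
  · intro t _
    exact tv4_le_one (tv4_le_one (tv4_le_one (b1 t) (b2 t)) (tv4_le_one (b3 t) (b4 t)))
      (tv4_le_one (b5 t) (b6 t))
  · have hw : ∑ t ∈ range (T - 1), ‖g1 (t + 1) * g2 (t + 1) * (g3 (t + 1) * g4 (t + 1)) *
        (g5 (t + 1) * g6 (t + 1)) - g1 t * g2 t * (g3 t * g4 t) * (g5 t * g6 t)‖ ≤ 5000 := by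
      linarith [w, w14, w12, w34, w56, v1, v2, v3, v4, v5, v6, hpi]
    exact hw

end Pool.Agent.H35.WT
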