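import Pool.Agent.H35.WT.Defs

/-!
# WT-Tg: the number of degenerate pairs

Fix `m₁, m₂ ∈ II N`.  The `t = ((p₁,p₂,r),(l₁,l₂))` with `Adm`: at most `(4P)² · 2 tau(|p₁m₁ - p₂m₂|) ·
(2A)²` (`r n = p₁m₁ - p₂m₂ ≠ 0`).  Given `t`, the `t'` with `Adm` and `Kt = 0`, i.e.
`(l₁p₁ - l₂p₂) r p₃p₄ = (l₃p₃ - l₄p₄) r' p₁p₂`: `p₁ ∤ r` and `p₂ ∤ r` (`adm_r`), `p₁ ≠ p₂`, `p₁ ∤ l₂`,
`p₂ ∤ l₁` (`0 < |l| ≤ A ≤ P < p`), so `p₁, p₂` divide `p₃p₄`: `{p₃,p₄} = {p₁,p₂}`, two choices; `r'` divides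
`p₃m₁ - p₄m₂ ≠ 0`: at most `2 tau`; then `l₃p₃ - l₄p₄` is determined, and two solutions `l₃` differ by a
multiple of `p₄ > P ≥ A`, so there are at most `3`.  `div_bound`: all `tau ≤ C N^{ε/2}`
(`|p m₁ - p' m₂| ≤ 12 N²`).  `(N+1)² ≤ 4 N²`.
-/

set_option autoImplicit false

namespace Pool.Agent.H35.WT

open Finset
open Pool.Agent.H80.KF

private lemma tg_PP (P : ℕ) : ((PP P).card : ℝ) ≤ 3 * P := by
  have h : (PP P).card ≤ 3 * P := by
    refine (Finset.card_filter_le _ _).trans ?_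
    rw [Nat.card_Ioc]
    omega
  exact_mod_cast h

private lemma tg_mem {P p : ℕ} (h : p ∈ PP P) : P < p ∧ p ≤ 4 * P ∧ p.Prime := by
  unfold PP at h
  rw [mem_filter, mem_Ioc] at h
  exact ⟨h.1.1, h.1.2, h.2⟩

private lemma tg_div (h : ℤ) (hh : h ≠ 0) (S : Finset ℤ) (hS : ∀ r ∈ S, r ∣ h) :
    S.card ≤ 2 * tau h.natAbs := by
  have hsub : S ⊆ (h.natAbs.divisors.image (fun d : ℕ => (d : ℤ))) ∪
      (h.natAbs.divisors.image (fun d : ℕ => -(d : ℤ))) := by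
    intro r hr
    have h1 : r.natAbs ∣ h.natAbs := Int.natAbs_dvd_natAbs.2 (hS r hr)
    have h2 : r.natAbs ∈ h.natAbs.divisors := Nat.mem_divisors.2 ⟨h1, Int.natAbs_ne_zero.2 hh⟩
    rw [mem_union, mem_image, mem_image]
    rcases Int.natAbs_eq r with h3 | h3
    · exact Or.inl ⟨_, h2, h3.symm⟩
    · exact Or.inr ⟨_, h2, h3.symm⟩
  refine (card_le_card hsub).trans ((card_union_le _ _).trans ?_)
  unfold tau
  have a := card_image_le (s := h.natAbs.divisors) (f := fun d : ℕ => (d : ℤ))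
  have b := card_image_le (s := h.natAbs.divisors) (f := fun d : ℕ => -(d : ℤ))
  omega

private lemma tg_lin {A p3 p4 : ℕ} (hA : A < p4) (hc : Nat.Coprime p4 p3) (c : ℤ)
    (S : Finset (ℤ × ℤ)) (hS : ∀ l ∈ S, |l.1| ≤ A ∧ l.1 * p3 - l.2 * p4 = c) : S.card ≤ 3 := by
  rcases S.eq_empty_or_nonempty with h0 | ⟨l0, hl0⟩
  · rw [h0]
    simp
  · have h3 : (Icc (-1 : ℤ) 1).card = 3 := by decide
    rw [← h3]
    have hA' : (A : ℤ) < p4 := by exact_mod_cast hA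
    have hA0 : (0 : ℤ) ≤ A := by positivity
    have hp4 : (0 : ℤ) < p4 := by omega
    have key : ∀ l ∈ S, ∃ k : ℤ, l.1 - l0.1 = p4 * k := by
      intro l hl
      have e1 := (hS l hl).2
      have e2 := (hS l0 hl0).2
      have h4 : (p4 : ℤ) ∣ (l.1 - l0.1) * p3 := ⟨l.2 - l0.2, by linear_combination e1 - e2⟩
      have hcop : IsCoprime (p4 : ℤ) (p3 : ℤ) := Nat.isCoprime_iff_coprime.2 hc
      exact hcop.dvd_of_dvd_mul_right h4
    apply Finset.card_le_card_of_injOn (fun l => (l.1 - l0.1) / (p4 : ℤ))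
    · intro l hl
      have hl' : l ∈ S := hl
      obtain ⟨k, hk⟩ := key l hl'
      have a1 := abs_le.1 (hS l hl').1
      have a2 := abs_le.1 (hS l0 hl0).1
      have hkk : (l.1 - l0.1) / (p4 : ℤ) = k := by
        rw [hk, Int.mul_ediv_cancel_left _ hp4.ne']
      change (l.1 - l0.1) / (p4 : ℤ) ∈ ((Icc (-1 : ℤ) 1 : Finset ℤ) : Set ℤ)
      rw [hkk, mem_coe, mem_Icc]
      constructor
      · by_contra hneg
        have h5 : k ≤ -2 := by omega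
        have h6 := mul_le_mul_of_nonneg_left h5 hp4.le
        rw [← hk] at h6
        linarith [a1.1, a2.2]
      · by_contra hneg
        have h5 : 2 ≤ k := by omega
        have h6 := mul_le_mul_of_nonneg_left h5 hp4.le
        rw [← hk] at h6
        linarith [a1.2, a2.1]
    · intro l hl l' hl' h
      have hl1 : l ∈ S := hl
      have hl1' : l' ∈ S := hl'
      obtain ⟨k, hk⟩ := key l hl1
      obtain ⟨k', hk'⟩ := key l' hl1'
      have h5 : (l.1 - l0.1) / (p4 : ℤ) = (l'.1 - l0.1) / (p4 : ℤ) := h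
      rw [hk, hk', Int.mul_ediv_cancel_left _ hp4.ne', Int.mul_ediv_cancel_left _ hp4.ne'] at h5
      have h6 : l.1 = l'.1 := by
        rw [h5] at hk
        linarith
      have e1 := (hS l hl1).2
      have e2 := (hS l' hl1').2
      have h7 : l.2 = l'.2 := by
        apply mul_right_cancel₀ hp4.ne'
        rw [h6] at e1
        linarith
      exact Prod.ext h6 h7

private lemma tg_pr {p1 p2 p3 p4 : ℕ} {r r' l1 l2 l3 l4 : ℤ} (h1 : p1.Prime) (h2 : p2.Prime)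
    (h3 : p3.Prime) (h4 : p4.Prime) (hne : p1 ≠ p2) (hr : IsCoprime r (p1 : ℤ))
    (hl : l2 ≠ 0) (hl2 : |l2| < p1)
    (h : (l1 * p1 - l2 * p2) * r * p3 * p4 = (l3 * p3 - l4 * p4) * r' * p1 * p2) :
    p1 = p3 ∨ p1 = p4 := by
  have q1 : Prime (p1 : ℤ) := Nat.prime_iff_prime_int.1 h1
  have hd : (p1 : ℤ) ∣ (l1 * p1 - l2 * p2) * r * p3 * p4 := by
    rw [h]
    exact ⟨(l3 * p3 - l4 * p4) * r' * p2, by ring⟩
  rcases q1.dvd_or_dvd hd with hd | hd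
  · rcases q1.dvd_or_dvd hd with hd | hd
    · rcases q1.dvd_or_dvd hd with hd | hd
      · exfalso
        have h6 : (p1 : ℤ) ∣ l2 * p2 := by
          have h5 : (p1 : ℤ) ∣ l1 * p1 := dvd_mul_left _ _
          have h7 := dvd_sub h5 hd
          simpa using h7
        rcases q1.dvd_or_dvd h6 with h7 | h7
        · exact hl (Int.eq_zero_of_abs_lt_dvd h7 hl2)
        · have h8 : p1 ∣ p2 := by exact_mod_cast h7
          exact hne ((Nat.prime_dvd_prime_iff_eq h1 h2).1 h8)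
      · exfalso
        rw [isCoprime_comm, q1.irreducible.coprime_iff_not_dvd] at hr
        exact hr hd
    · left
      have h8 : p1 ∣ p3 := by exact_mod_cast hd
      exact (Nat.prime_dvd_prime_iff_eq h1 h3).1 h8
  · right
    have h8 : p1 ∣ p4 := by exact_mod_cast hd
    exact (Nat.prime_dvd_prime_iff_eq h1 h4).1 h8

open Classical in
private noncomputable def tgR (N P p p' m1 m2 : ℕ) : Finset ℤ :=
  (Icc (-(8 * P : ℤ)) (8 * P)).filter (fun r => Adm N p p' r m1 m2)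

private lemma tg_R {N P p p' m1 m2 : ℕ} {T : ℝ} (hT0 : 0 ≤ T) (hN : 1 ≤ N) (hPN : P ≤ N)
    (hT : ∀ h : ℕ, 1 ≤ h → h ≤ 12 * N ^ 2 → (tau h : ℝ) ≤ T)
    (hp : p ∈ PP P) (hp' : p' ∈ PP P) (hm1 : m1 ∈ II N) (hm2 : m2 ∈ II N) :
    ((tgR N P p p' m1 m2).card : ℝ) ≤ 2 * T := by
  classical
  rcases (tgR N P p p' m1 m2).eq_empty_or_nonempty with h0 | ⟨r0, hr0⟩
  · rw [h0, card_empty]
    push_cast
    linarith
  · have hR : ∀ r ∈ tgR N P p p' m1 m2, r ∣ (p : ℤ) * m1 - (p' : ℤ) * m2 := by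
      intro r hr
      unfold tgR at hr
      have h1 := (mem_filter.1 hr).2.2.2.2.2.1
      exact ⟨_, h1.symm⟩
    have hne : (p : ℤ) * m1 - (p' : ℤ) * m2 ≠ 0 := by
      unfold tgR at hr0
      obtain ⟨-, -, -, hr, he, hI, -⟩ := (mem_filter.1 hr0).2
      rw [← he]
      apply mul_ne_zero hr
      unfold II at hI
      rw [mem_Ioc] at hI
      have : nn p p' r0 m1 m2 ≠ 0 := by omega
      exact_mod_cast this
    have h1 := tg_div _ hne _ hR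
    have b1 := tg_mem hp
    have b2 := tg_mem hp'
    unfold II at hm1 hm2
    rw [mem_Ioc] at hm1 hm2
    have c1 : p * m1 ≤ 12 * N ^ 2 := by
      calc p * m1 ≤ (4 * N) * (3 * N) := Nat.mul_le_mul (by omega) (by omega)
        _ = 12 * N ^ 2 := by ring
    have c2 : p' * m2 ≤ 12 * N ^ 2 := by
      calc p' * m2 ≤ (4 * N) * (3 * N) := Nat.mul_le_mul (by omega) (by omega)
        _ = 12 * N ^ 2 := by ring
    have c1' : (p : ℤ) * m1 ≤ 12 * (N : ℤ) ^ 2 := by exact_mod_cast c1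
    have c2' : (p' : ℤ) * m2 ≤ 12 * (N : ℤ) ^ 2 := by exact_mod_cast c2
    have d1 : (0 : ℤ) ≤ (p : ℤ) * m1 := by positivity
    have d2 : (0 : ℤ) ≤ (p' : ℤ) * m2 := by positivity
    have h2 : ((p : ℤ) * m1 - (p' : ℤ) * m2).natAbs ≤ 12 * N ^ 2 := by
      have h3 : ((((p : ℤ) * m1 - (p' : ℤ) * m2).natAbs : ℕ) : ℤ) ≤ 12 * (N : ℤ) ^ 2 := by
        rw [Int.natCast_natAbs, abs_le]
        constructor <;> linarith
      exact_mod_cast h3
    have h3 := hT _ (Int.natAbs_pos.2 hne) h2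
    have h4 : ((tgR N P p p' m1 m2).card : ℝ) ≤
        2 * (tau ((p : ℤ) * m1 - (p' : ℤ) * m2).natAbs : ℝ) := by exact_mod_cast h1
    linarith

private lemma tg_SL {P : ℕ} {L : Finset ℤ} {t : (ℕ × ℕ × ℤ) × (ℤ × ℤ)} (h : t ∈ SL P L) :
    t.1.1 ∈ PP P ∧ t.1.2.1 ∈ PP P ∧ t.1.2.2 ∈ Icc (-(8 * P : ℤ)) (8 * P) ∧ t.2.1 ∈ L ∧
      t.2.2 ∈ L := by
  unfold SL TT at h
  rw [mem_product, mem_product, mem_product, mem_product] at h
  exact ⟨h.1.1, h.1.2.1, h.1.2.2, h.2.1, h.2.2⟩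

open Classical in
private lemma tg_inner {N P A : ℕ} {T : ℝ} (hT0 : 0 ≤ T) (hN : 1 ≤ N) (hPN : P ≤ N) (hAP : A ≤ P)
    (hT : ∀ h : ℕ, 1 ≤ h → h ≤ 12 * N ^ 2 → (tau h : ℝ) ≤ T) {L : Finset ℤ} (hL : Fr A L)
    {η : ℤ} (hη : η ≠ 0) {m1 m2 : ℕ} (hm1 : m1 ∈ II N) (hm2 : m2 ∈ II N)
    {t : (ℕ × ℕ × ℤ) × (ℤ × ℤ)} (ht : t ∈ SL P L)
    (hadm : Adm N t.1.1 t.1.2.1 t.1.2.2 m1 m2) :
    ((((SL P L).filter (fun t' => Kt η t t' = 0 ∧
      Adm N t'.1.1 t'.1.2.1 t'.1.2.2 m1 m2)).card : ℕ) : ℝ) ≤ 12 * T := by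
  obtain ⟨⟨p1, p2, r⟩, ⟨l1, l2⟩⟩ := t
  obtain ⟨hp1, hp2, hr, hl1, hl2⟩ := tg_SL ht
  simp only at hp1 hp2 hr hl1 hl2 hadm
  obtain ⟨a1, b1, c1⟩ := tg_mem hp1
  obtain ⟨a2, b2, c2⟩ := tg_mem hp2
  have hcop := adm_r c1 c2 hadm
  have hne : p1 ≠ p2 := hadm.1
  have hr0 : r ≠ 0 := hadm.2.2.2.1
  have f1 := hL l1 hl1
  have f2 := hL l2 hl2
  have hP1 : (A : ℤ) < p1 := by
    have : A < p1 := by omega
    exact_mod_cast this
  have hP2 : (A : ℤ) < p2 := by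
    have : A < p2 := by omega
    exact_mod_cast this
  have z1 : (p1 : ℤ) ≠ 0 := by exact_mod_cast c1.ne_zero
  have z2 : (p2 : ℤ) ≠ 0 := by exact_mod_cast c2.ne_zero
  set U : Finset (ℕ × ℕ × ℤ) := (tgR N P p1 p2 m1 m2).image (fun r => (p1, p2, r)) ∪
    (tgR N P p2 p1 m1 m2).image (fun r => (p2, p1, r)) with hU
  have hUc : (U.card : ℝ) ≤ 4 * T := by
    have e1 := tg_R hT0 hN hPN hT hp1 hp2 hm1 hm2
    have e2 := tg_R hT0 hN hPN hT hp2 hp1 hm1 hm2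
    have e3 : U.card ≤ (tgR N P p1 p2 m1 m2).card + (tgR N P p2 p1 m1 m2).card := by
      rw [hU]
      exact (card_union_le _ _).trans (add_le_add card_image_le card_image_le)
    have e4 : (U.card : ℝ) ≤ (tgR N P p1 p2 m1 m2).card + (tgR N P p2 p1 m1 m2).card := by
      exact_mod_cast e3
    linarith
  -- the equation
  have heq : ∀ t' : (ℕ × ℕ × ℤ) × (ℤ × ℤ), Kt η ((p1, p2, r), (l1, l2)) t' = 0 →
      (l1 * p1 - l2 * p2) * r * t'.1.1 * t'.1.2.1 =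
        (t'.2.1 * t'.1.1 - t'.2.2 * t'.1.2.1) * t'.1.2.2 * p1 * p2 := by
    intro t' hK
    unfold Kt KK xi at hK
    simp only at hK
    have h5 : η * ((l1 * p1 - l2 * p2) * r * t'.1.1 * t'.1.2.1 -
        (t'.2.1 * t'.1.1 - t'.2.2 * t'.1.2.1) * t'.1.2.2 * p1 * p2) = 0 := by
      linear_combination hK
    rcases mul_eq_zero.1 h5 with h6 | h6
    · exact absurd h6 hη
    · linarith
  have hmain : ((SL P L).filter (fun t' => Kt η ((p1, p2, r), (l1, l2)) t' = 0 ∧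
      Adm N t'.1.1 t'.1.2.1 t'.1.2.2 m1 m2)).card ≤ 3 * U.card := by
    apply card_le_mul_card_image_of_maps_to (f := fun t' : (ℕ × ℕ × ℤ) × (ℤ × ℤ) => t'.1)
    · intro t' ht'
      rw [mem_filter] at ht'
      obtain ⟨hS, hK, had⟩ := ht'
      obtain ⟨hp3, hp4, hr', hl3, hl4⟩ := tg_SL hS
      obtain ⟨⟨p3, p4, r'⟩, ⟨l3, l4⟩⟩ := t'
      simp only at hp3 hp4 hr' hl3 hl4 had
      have E := heq _ hK
      simp only at E
      obtain ⟨a3, b3, c3⟩ := tg_mem hp3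
      obtain ⟨a4, b4, c4⟩ := tg_mem hp4
      have g1 := tg_pr (l1 := l1) (l2 := l2) (l3 := l3) (l4 := l4) (r' := r') c1 c2 c3 c4 hne
        hcop.1 f2.1 (by linarith [f2.2]) E
      have g2 := tg_pr (l1 := l2) (l2 := l1) (l3 := l3) (l4 := l4) (r' := -r') c2 c1 c3 c4
        hne.symm hcop.2 f1.1 (by linarith [f1.2]) (by linear_combination -E)
      change (p3, p4, r') ∈ U
      rw [hU, mem_union, mem_image, mem_image]
      rcases g1 with g1 | g1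
      · have g3 : p2 = p4 := by
          rcases g2 with g2 | g2
          · exact absurd (g1.trans g2.symm) hne
          · exact g2
        left
        subst g1 g3
        refine ⟨r', ?_, rfl⟩
        unfold tgR
        rw [mem_filter]
        exact ⟨hr', had⟩
      · have g3 : p2 = p3 := by
          rcases g2 with g2 | g2
          · exact g2
          · exact absurd (g1.trans g2.symm) hne
        right
        subst g1 g3
        refine ⟨r', ?_, rfl⟩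
        unfold tgR
        rw [mem_filter]
        exact ⟨hr', had⟩
    · intro τ hτ
      -- the fibre
      obtain ⟨p3, p4, r'⟩ := τ
      set F := ((SL P L).filter (fun t' => Kt η ((p1, p2, r), (l1, l2)) t' = 0 ∧
        Adm N t'.1.1 t'.1.2.1 t'.1.2.2 m1 m2)).filter (fun t' => t'.1 = (p3, p4, r')) with hF
      rcases F.eq_empty_or_nonempty with h0 | ⟨s, hs⟩
      · rw [h0]
        simp
      · have hFm : ∀ t' ∈ F, p3 ∈ PP P ∧ p4 ∈ PP P ∧ Adm N p3 p4 r' m1 m2 ∧ t'.2.1 ∈ L ∧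
            t'.2.2 ∈ L ∧ (l1 * p1 - l2 * p2) * r * p3 * p4 =
              (t'.2.1 * p3 - t'.2.2 * p4) * r' * p1 * p2 := by
          intro t' ht'
          rw [hF, mem_filter, mem_filter] at ht'
          obtain ⟨⟨hS, hK, had⟩, he⟩ := ht'
          obtain ⟨hp3, hp4, -, hl3, hl4⟩ := tg_SL hS
          have E := heq _ hK
          obtain ⟨τ', l'⟩ := t'
          simp only at he
          subst he
          exact ⟨hp3, hp4, had, hl3, hl4, E⟩
        obtain ⟨hp3, hp4, had, hs3, hs4, Es⟩ := hFm s hs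
        obtain ⟨a3, b3, c3⟩ := tg_mem hp3
        obtain ⟨a4, b4, c4⟩ := tg_mem hp4
        have hr'0 : r' ≠ 0 := had.2.2.2.1
        have hne' : p3 ≠ p4 := had.1
        have hinj : F.card = (F.image (fun t' => t'.2)).card := by
          symm
          apply card_image_of_injOn
          intro x hx y hy hxy
          have hx1 : x ∈ F := hx
          have hy1 : y ∈ F := hy
          rw [hF, mem_filter] at hx1 hy1
          exact Prod.ext (hx1.2.trans hy1.2.symm) hxy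
        rw [hinj]
        refine tg_lin (A := A) (p3 := p3) (p4 := p4) (by omega)
          ((Nat.coprime_primes c4 c3).2 hne'.symm) (s.2.1 * p3 - s.2.2 * p4) _ ?_
        intro l hl
        rw [mem_image] at hl
        obtain ⟨t', ht', rfl⟩ := hl
        obtain ⟨-, -, -, hl3, hl4, Et⟩ := hFm t' ht'
        refine ⟨(hL _ hl3).2, ?_⟩
        have hz : r' * p1 * p2 ≠ 0 := mul_ne_zero (mul_ne_zero hr'0 z1) z2
        apply mul_right_cancel₀ hz
        linear_combination Es - Et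
  have hmain' : (((SL P L).filter (fun t' => Kt η ((p1, p2, r), (l1, l2)) t' = 0 ∧
      Adm N t'.1.1 t'.1.2.1 t'.1.2.2 m1 m2)).card : ℝ) ≤ 3 * U.card := by exact_mod_cast hmain
  linarith

open Classical in
private lemma tg_outer {N P A : ℕ} {T : ℝ} (hT0 : 0 ≤ T) (hN : 1 ≤ N) (hPN : P ≤ N)
    (hT : ∀ h : ℕ, 1 ≤ h → h ≤ 12 * N ^ 2 → (tau h : ℝ) ≤ T) {L : Finset ℤ} (hL : Fr A L)
    {m1 m2 : ℕ} (hm1 : m1 ∈ II N) (hm2 : m2 ∈ II N) :
    (((SL P L).filter (fun t => Adm N t.1.1 t.1.2.1 t.1.2.2 m1 m2)).card : ℝ) ≤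
      72 * T * (P : ℝ) ^ 2 * (A : ℝ) ^ 2 := by
  have hLc : (L.card : ℝ) ≤ 2 * A := by
    have h1 : L ⊆ (Icc (-(A : ℤ)) A).erase 0 := by
      intro l hl
      obtain ⟨h2, h3⟩ := hL l hl
      rw [mem_erase, mem_Icc]
      exact ⟨h2, abs_le.1 h3⟩
    have h2 : ((Icc (-(A : ℤ)) A).erase 0).card = 2 * A := by
      rw [card_erase_of_mem (by rw [mem_Icc]; constructor <;> omega), Int.card_Icc]
      omega
    have h3 : L.card ≤ 2 * A := by
      rw [← h2]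
      exact card_le_card h1
    exact_mod_cast h3
  have h1 : (SL P L).filter (fun t => Adm N t.1.1 t.1.2.1 t.1.2.2 m1 m2) =
      ((TT P).filter (fun τ => Adm N τ.1 τ.2.1 τ.2.2 m1 m2)) ×ˢ (L ×ˢ L) := by
    unfold SL
    ext t
    simp only [mem_filter, mem_product]
    tauto
  have h2 : (((TT P).filter (fun τ => Adm N τ.1 τ.2.1 τ.2.2 m1 m2)).card : ℝ) ≤
      18 * T * (P : ℝ) ^ 2 := by
    have e1 : (((TT P).filter (fun τ => Adm N τ.1 τ.2.1 τ.2.2 m1 m2)).card : ℝ) =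
        ∑ p1 ∈ PP P, ∑ p2 ∈ PP P, ((tgR N P p1 p2 m1 m2).card : ℝ) := by
      unfold TT tgR
      rw [← sum_boole, sum_product]
      refine sum_congr rfl fun p1 _ => ?_
      rw [sum_product]
      refine sum_congr rfl fun p2 _ => ?_
      rw [sum_boole]
    rw [e1]
    calc ∑ p1 ∈ PP P, ∑ p2 ∈ PP P, ((tgR N P p1 p2 m1 m2).card : ℝ)
        ≤ ∑ p1 ∈ PP P, ∑ p2 ∈ PP P, 2 * T :=
          sum_le_sum fun p1 h1 => sum_le_sum fun p2 h2 => tg_R hT0 hN hPN hT h1 h2 hm1 hm2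
      _ = ((PP P).card : ℝ) * (((PP P).card : ℝ) * (2 * T)) := by
          simp only [sum_const, nsmul_eq_mul]
      _ ≤ (3 * P) * ((3 * P) * (2 * T)) := by
          have := tg_PP P
          gcongr
      _ = 18 * T * (P : ℝ) ^ 2 := by ring
  rw [h1, card_product, card_product]
  push_cast
  calc (((TT P).filter (fun τ => Adm N τ.1 τ.2.1 τ.2.2 m1 m2)).card : ℝ) *
        ((L.card : ℝ) * (L.card : ℝ))
      ≤ (18 * T * (P : ℝ) ^ 2) * ((2 * A) * (2 * A)) := by gcongr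
    _ = 72 * T * (P : ℝ) ^ 2 * (A : ℝ) ^ 2 := by ring

theorem dg_bound (ε : ℝ) (hε : 0 < ε) : ∃ C : ℝ, 0 < C ∧ ∀ N P A : ℕ, 1 ≤ N → 1 ≤ P →
    P ≤ N → A ≤ P → ∀ L : Finset ℤ, Fr A L → ∀ η : ℤ, η ≠ 0 →
    DG η N P L ≤ C * (N : ℝ) ^ (2 + ε) * (P : ℝ) ^ 2 * (A : ℝ) ^ 2 := by
  classical
  obtain ⟨C1, hC1, hdiv⟩ := Pool.Agent.H92.EH.div_bound (ε / 4) (by positivity)
  have hC1' : 0 < C1 := by linarith
  refine ⟨4 * 864 * (C1 * (12 : ℝ) ^ (ε / 4)) ^ 2, by positivity, ?_⟩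
  intro N P A hN hP hPN hAP L hL η hη
  have hNr : (1 : ℝ) ≤ N := by exact_mod_cast hN
  have hN0 : (0 : ℝ) < N := by linarith
  set T : ℝ := C1 * (12 * (N : ℝ) ^ 2) ^ (ε / 4) with hTd
  have hT0 : 0 ≤ T := by positivity
  have hT : ∀ h : ℕ, 1 ≤ h → h ≤ 12 * N ^ 2 → (tau h : ℝ) ≤ T := by
    intro h h1 h2
    have h3 := hdiv h h1
    have h4 : (h : ℝ) ≤ 12 * (N : ℝ) ^ 2 := by exact_mod_cast h2
    have h5 : (h : ℝ) ^ (ε / 4) ≤ (12 * (N : ℝ) ^ 2) ^ (ε / 4) :=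
      Real.rpow_le_rpow (Nat.cast_nonneg _) h4 (by positivity)
    calc (tau h : ℝ) ≤ C1 * (h : ℝ) ^ (ε / 4) := h3
      _ ≤ T := mul_le_mul_of_nonneg_left h5 hC1'.le
  have hTsq : T ^ 2 = (C1 * (12 : ℝ) ^ (ε / 4)) ^ 2 * (N : ℝ) ^ ε := by
    have e1 : (12 * (N : ℝ) ^ 2) ^ (ε / 4) = (12 : ℝ) ^ (ε / 4) * (N : ℝ) ^ (ε / 2) := by
      rw [Real.mul_rpow (by norm_num) (by positivity), ← Real.rpow_natCast, ← Real.rpow_mul hN0.le]
      congr 2
      push_cast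
      ring
    have e2 : ((N : ℝ) ^ (ε / 2)) ^ 2 = (N : ℝ) ^ ε := by
      rw [← Real.rpow_natCast, ← Real.rpow_mul hN0.le]
      congr 1
      push_cast
      ring
    rw [hTd, e1, ← e2]
    ring
  -- each pair `m₁, m₂`
  have hpair : ∀ m1 ∈ II N, ∀ m2 ∈ II N,
      ∑ t ∈ (SL P L ×ˢ SL P L).filter (fun t => Kt η t.1 t.2 = 0),
        (if Adm N t.1.1.1 t.1.1.2.1 t.1.1.2.2 m1 m2 ∧ Adm N t.2.1.1 t.2.1.2.1 t.2.1.2.2 m1 m2 then
          (1 : ℝ) else 0) ≤ 864 * T ^ 2 * (P : ℝ) ^ 2 * (A : ℝ) ^ 2 := by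
    intro m1 hm1 m2 hm2
    have e1 : ∑ t ∈ (SL P L ×ˢ SL P L).filter (fun t => Kt η t.1 t.2 = 0),
        (if Adm N t.1.1.1 t.1.1.2.1 t.1.1.2.2 m1 m2 ∧ Adm N t.2.1.1 t.2.1.2.1 t.2.1.2.2 m1 m2 then
          (1 : ℝ) else 0) = ∑ t ∈ SL P L, ∑ t' ∈ SL P L,
        (if Adm N t.1.1 t.1.2.1 t.1.2.2 m1 m2 then
          (if Kt η t t' = 0 ∧ Adm N t'.1.1 t'.1.2.1 t'.1.2.2 m1 m2 then (1 : ℝ) else 0) else 0) := by
      rw [sum_filter, sum_product]
      refine sum_congr rfl fun t _ => sum_congr rfl fun t' _ => ?_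
      simp only
      by_cases h1 : Kt η t t' = 0 <;> by_cases h2 : Adm N t.1.1 t.1.2.1 t.1.2.2 m1 m2 <;>
        by_cases h3 : Adm N t'.1.1 t'.1.2.1 t'.1.2.2 m1 m2 <;> simp [h1, h2, h3]
    rw [e1]
    calc ∑ t ∈ SL P L, ∑ t' ∈ SL P L,
        (if Adm N t.1.1 t.1.2.1 t.1.2.2 m1 m2 then
          (if Kt η t t' = 0 ∧ Adm N t'.1.1 t'.1.2.1 t'.1.2.2 m1 m2 then (1 : ℝ) else 0) else 0)
        ≤ ∑ t ∈ SL P L, (if Adm N t.1.1 t.1.2.1 t.1.2.2 m1 m2 then 12 * T else 0) := by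
          refine sum_le_sum fun t ht => ?_
          by_cases h2 : Adm N t.1.1 t.1.2.1 t.1.2.2 m1 m2
          · simp only [if_pos h2]
            rw [sum_boole]
            exact tg_inner hT0 hN hPN hAP hT hL hη hm1 hm2 ht h2
          · simp only [if_neg h2, sum_const_zero]
            exact le_rfl
      _ = 12 * T * (((SL P L).filter (fun t => Adm N t.1.1 t.1.2.1 t.1.2.2 m1 m2)).card : ℝ) := by
          rw [← sum_filter, sum_const, nsmul_eq_mul, mul_comm]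
      _ ≤ 12 * T * (72 * T * (P : ℝ) ^ 2 * (A : ℝ) ^ 2) :=
          mul_le_mul_of_nonneg_left (tg_outer hT0 hN hPN hT hL hm1 hm2) (by positivity)
      _ = 864 * T ^ 2 * (P : ℝ) ^ 2 * (A : ℝ) ^ 2 := by ring
  have hcardII : ((II N).card : ℝ) ≤ 2 * N := by
    have h1 : (II N).card = N + 1 := by
      unfold II
      rw [Nat.card_Ioc]
      omega
    rw [h1]
    push_cast
    linarith
  have hcII0 : (0 : ℝ) ≤ ((II N).card : ℝ) := Nat.cast_nonneg _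
  have hsw : DG η N P L = ∑ m1 ∈ II N, ∑ m2 ∈ II N,
      ∑ t ∈ (SL P L ×ˢ SL P L).filter (fun t => Kt η t.1 t.2 = 0),
        (if Adm N t.1.1.1 t.1.1.2.1 t.1.1.2.2 m1 m2 ∧ Adm N t.2.1.1 t.2.1.2.1 t.2.1.2.2 m1 m2 then
          (1 : ℝ) else 0) := by
    unfold DG
    rw [sum_comm]
    refine sum_congr rfl fun m1 _ => ?_
    rw [sum_comm]
  have hX0 : 0 ≤ 864 * T ^ 2 * (P : ℝ) ^ 2 * (A : ℝ) ^ 2 := by positivity
  rw [hsw]
  calc ∑ m1 ∈ II N, ∑ m2 ∈ II N,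
      ∑ t ∈ (SL P L ×ˢ SL P L).filter (fun t => Kt η t.1 t.2 = 0),
        (if Adm N t.1.1.1 t.1.1.2.1 t.1.1.2.2 m1 m2 ∧ Adm N t.2.1.1 t.2.1.2.1 t.2.1.2.2 m1 m2 then
          (1 : ℝ) else 0)
      ≤ ∑ m1 ∈ II N, ∑ m2 ∈ II N, 864 * T ^ 2 * (P : ℝ) ^ 2 * (A : ℝ) ^ 2 :=
        sum_le_sum fun m1 h1 => sum_le_sum fun m2 h2 => hpair m1 h1 m2 h2
    _ = ((II N).card : ℝ) * (((II N).card : ℝ) * (864 * T ^ 2 * (P : ℝ) ^ 2 * (A : ℝ) ^ 2)) := by
        simp only [sum_const, nsmul_eq_mul]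
    _ ≤ (2 * N) * ((2 * N) * (864 * T ^ 2 * (P : ℝ) ^ 2 * (A : ℝ) ^ 2)) := by
        gcongr
    _ = 4 * 864 * (C1 * (12 : ℝ) ^ (ε / 4)) ^ 2 * (N : ℝ) ^ (2 + ε) * (P : ℝ) ^ 2 *
          (A : ℝ) ^ 2 := by
        rw [hTsq, Real.rpow_add hN0, Real.rpow_two]
        ring

end Pool.Agent.H35.WT
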