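import Pool.Agent.H35.WT.Td

/-!
# WT-Ti: the sum over `m₂`, general numerators and weights

Copies of `cls_card7`, `inner7` (Pool/Agent/H35/WL/Ic.lean) with `CSG`, `cls_boundG`, `KK`, `B1`
(constant `10^9`).  `|KK|` divides `B1`, as `|K0|` divides `B0`.
-/

set_option autoImplicit false

namespace Pool.Agent.H35.WT

open Finset
open Pool.Agent.H80.KF
open Pool.Agent.H35.WL (M7 WB)

private lemma ic_prime {P : ℕ} {τ : ℕ × ℕ × ℤ} (h : τ ∈ TT P) : τ.1.Prime ∧ τ.2.1.Prime := by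
  unfold TT PP at h
  rw [mem_product, mem_product, mem_filter, mem_filter] at h
  exact ⟨h.1.2, h.2.1.2⟩

private lemma ic_gg {F1 F2 : ℝ → ℂ} {ξ : ℤ} {N : ℕ} {τ : ℕ × ℕ × ℤ} {m1 m2 : ℕ}
    (h : gG F1 F2 ξ N τ m1 m2 ≠ 0) : Adm N τ.1 τ.2.1 τ.2.2 m1 m2 := by
  unfold gG at h
  by_contra hn
  rw [if_neg hn] at h
  exact h rfl

/-- the numbers `m₂` for two admissible pairs are congruent modulo `r` -/
private lemma ic_dvd {N p1 p2 : ℕ} {r : ℤ} {m1 m2 m2' : ℕ} (h1 : p1.Prime) (h2 : p2.Prime)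
    (h : Adm N p1 p2 r m1 m2) (h' : Adm N p1 p2 r m1 m2') : r ∣ (m2 : ℤ) - m2' := by
  have hc := (adm_r h1 h2 h).2
  have e1 : r ∣ (p1 : ℤ) * m1 - (p2 : ℤ) * m2 := ⟨_, h.2.2.2.2.1.symm⟩
  have e2 : r ∣ (p1 : ℤ) * m1 - (p2 : ℤ) * m2' := ⟨_, h'.2.2.2.2.1.symm⟩
  have e3 : r ∣ (p2 : ℤ) * ((m2 : ℤ) - m2') := by
    have e4 := dvd_sub e2 e1
    have e5 : (p1 : ℤ) * m1 - (p2 : ℤ) * m2' - ((p1 : ℤ) * m1 - (p2 : ℤ) * m2) =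
        (p2 : ℤ) * ((m2 : ℤ) - m2') := by ring
    rwa [e5] at e4
  exact hc.dvd_of_dvd_mul_left e3

private lemma ic_class {N P : ℕ} {ξ ξ' : ℤ} {F1 F2 F3 F4 : ℝ → ℂ} {τ τ' : ℕ × ℕ × ℤ} (hτ : τ ∈ TT P)
    (hτ' : τ' ∈ TT P) {m1 s w ρ ρ' : ℕ} (h : CSG F1 F2 F3 F4 ξ ξ' N τ τ' m1 s w ρ ≠ 0)
    (h' : CSG F1 F2 F3 F4 ξ ξ' N τ τ' m1 s w ρ' ≠ 0) :
    (Nat.lcm τ.2.2.natAbs τ'.2.2.natAbs : ℤ) ∣ (ρ : ℤ) - ρ' := by
  obtain ⟨t, -, ht⟩ := exists_ne_zero_of_sum_ne_zero h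
  obtain ⟨t', -, ht'⟩ := exists_ne_zero_of_sum_ne_zero h'
  have a1 := ic_gg (left_ne_zero_of_mul ht)
  have a2 := ic_gg (left_ne_zero_of_mul ht')
  have b1 := ic_gg (fun h0 => right_ne_zero_of_mul ht (by rw [h0, map_zero]))
  have b2 := ic_gg (fun h0 => right_ne_zero_of_mul ht' (by rw [h0, map_zero]))
  have c1 := ic_dvd (ic_prime hτ).1 (ic_prime hτ).2 a1 a2
  have c2 := ic_dvd (ic_prime hτ').1 (ic_prime hτ').2 b1 b2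
  set L := Nat.lcm τ.2.2.natAbs τ'.2.2.natAbs with hL
  have hLM : (L : ℤ) ∣ (M7 τ τ' s w : ℤ) := by
    rw [Int.natCast_dvd_natCast]
    exact ⟨s * w, rfl⟩
  have d1 : (L : ℤ) ∣ ((ρ + M7 τ τ' s w * t : ℕ) : ℤ) - ((ρ' + M7 τ τ' s w * t' : ℕ) : ℤ) := by
    have e1 : τ.2.2.natAbs ∣ (((ρ + M7 τ τ' s w * t : ℕ) : ℤ) -
        ((ρ' + M7 τ τ' s w * t' : ℕ) : ℤ)).natAbs := Int.natAbs_dvd_natAbs.2 c1
    have e2 : τ'.2.2.natAbs ∣ (((ρ + M7 τ τ' s w * t : ℕ) : ℤ) -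
        ((ρ' + M7 τ τ' s w * t' : ℕ) : ℤ)).natAbs := Int.natAbs_dvd_natAbs.2 c2
    exact Int.natCast_dvd.2 (Nat.lcm_dvd e1 e2)
  have d2 : (L : ℤ) ∣ (M7 τ τ' s w : ℤ) * t' - (M7 τ τ' s w : ℤ) * t :=
    dvd_sub (hLM.mul_right _) (hLM.mul_right _)
  have d3 := dvd_add d1 d2
  have e5 : ((ρ + M7 τ τ' s w * t : ℕ) : ℤ) - ((ρ' + M7 τ τ' s w * t' : ℕ) : ℤ) +
      ((M7 τ τ' s w : ℤ) * t' - (M7 τ τ' s w : ℤ) * t) = (ρ : ℤ) - ρ' := by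
    push_cast
    ring
  rwa [e5] at d3

theorem cls_cardG (N P : ℕ) (ξ ξ' : ℤ) (F1 F2 F3 F4 : ℝ → ℂ) (τ τ' : ℕ × ℕ × ℤ) (hτ : τ ∈ TT P)
    (hτ' : τ' ∈ TT P) (m1 s w : ℕ) (hs : 1 ≤ s) (hw : 1 ≤ w) (hr : τ.2.2 ≠ 0) (hr' : τ'.2.2 ≠ 0) :
    (((range (M7 τ τ' s w)).filter (fun ρ => CSG F1 F2 F3 F4 ξ ξ' N τ τ' m1 s w ρ ≠ 0)).card : ℕ) ≤ s * w := by
  classical
  set L := Nat.lcm τ.2.2.natAbs τ'.2.2.natAbs with hL
  have hL0 : 0 < L := Nat.lcm_pos (Int.natAbs_pos.2 hr) (Int.natAbs_pos.2 hr')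
  have hM : M7 τ τ' s w = L * (s * w) := rfl
  have hcard : (range (s * w)).card = s * w := card_range _
  rw [← hcard]
  refine card_le_card_of_injOn (fun ρ => ρ / L) ?_ ?_
  · intro ρ hρ
    rw [mem_coe, mem_filter, mem_range, hM] at hρ
    rw [mem_coe, mem_range]
    exact Nat.div_lt_of_lt_mul hρ.1
  · intro ρ hρ ρ' hρ' he
    rw [mem_coe, mem_filter] at hρ hρ'
    simp only at he
    have h1 := ic_class hτ hτ' hρ.2 hρ'.2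
    rw [← hL] at h1
    have h2 : ρ' % L = ρ % L := (Nat.modEq_iff_dvd.2 h1)
    rw [← Nat.div_add_mod ρ L, ← Nat.div_add_mod ρ' L, he, h2]


/-- decomposition of the sum over `m₂` into residue classes -/
private theorem ic_classes (N M : ℕ) (hM : 1 ≤ M) (g : ℕ → ℂ) :
    ∑ m2 ∈ II N, g m2 =
      ∑ ρ ∈ range M, ∑ t ∈ (range (2 * N + 2)).filter (fun t => ρ + M * t ∈ II N), g (ρ + M * t) := by
  rw [Finset.sum_sigma']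
  refine Finset.sum_bij' (fun m _ => (⟨m % M, m / M⟩ : (_ : ℕ) × ℕ)) (fun x _ => x.1 + M * x.2) ?_ ?_ ?_ ?_ ?_
  · intro m hm
    have h1 : m ≤ 2 * N + 1 := (mem_Ioc.1 hm).2
    rw [mem_sigma]
    refine ⟨mem_range.2 (Nat.mod_lt _ hM), ?_⟩
    rw [mem_filter]
    refine ⟨mem_range.2 ?_, ?_⟩
    · exact lt_of_le_of_lt ((Nat.div_le_self m M).trans h1) (Nat.lt_succ_self _)
    · rw [Nat.mod_add_div]
      exact hm
  · intro x hx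
    rw [mem_sigma, mem_filter] at hx
    exact hx.2.2
  · intro m _
    exact Nat.mod_add_div m M
  · intro x hx
    rw [mem_sigma] at hx
    have h1 : x.1 < M := mem_range.1 hx.1
    have h2 : (x.1 + M * x.2) % M = x.1 := by
      rw [Nat.add_mul_mod_self_left, Nat.mod_eq_of_lt h1]
    have h3 : (x.1 + M * x.2) / M = x.2 := by
      rw [Nat.add_mul_div_left _ _ hM, Nat.div_eq_of_lt h1, Nat.zero_add]
    obtain ⟨x1, x2⟩ := x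
    simp only at h2 h3
    simp only [h2, h3]
  · intro m _
    rw [Nat.mod_add_div]

private theorem ic_prime_pt {B m p : ℕ} (hp : p.Prime) (h : p ∣ pt B m) : p ∣ B := by
  unfold pt at h
  obtain ⟨q, hq, hd⟩ := (Nat.Prime.prime hp).exists_mem_finset_dvd h
  rw [mem_filter] at hq
  have h1 : p ∣ q := hp.dvd_of_dvd_pow hd
  have h2 : q.Prime := Nat.prime_of_mem_primeFactors hq.1
  rw [(Nat.prime_dvd_prime_iff_eq hp h2).1 h1]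
  exact hq.2

private theorem ic_mem_PP {P p : ℕ} (h : p ∈ PP P) : p.Prime ∧ p ≤ 4 * P := by
  unfold PP at h
  rw [mem_filter, mem_Ioc] at h
  exact ⟨h.2, h.1.2⟩

private theorem ic_tau_mul (m n : ℕ) : tau (m * n) ≤ tau m * tau n := by
  unfold tau
  rw [Nat.divisors_mul]
  exact Finset.card_mul_le

private theorem ic_tau_dvd_prime {p u : ℕ} (hp : p.Prime) (h : u ∣ p) : tau u ≤ 2 := by
  unfold tau
  refine (Finset.card_le_card (Nat.divisors_subset_of_dvd hp.ne_zero h)).trans ?_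
  rw [hp.divisors]
  exact Finset.card_le_two

theorem innerG (hW : WB) (N P : ℕ) (hN : 1 ≤ N) (hP : 1 ≤ P) (hPN : P ≤ N) (ξ ξ' : ℤ)
    (hξ : |ξ| ≤ 32 * (N : ℤ) ^ 2 * P) (hξ' : |ξ'| ≤ 32 * (N : ℤ) ^ 2 * P)
    (F1 F2 F3 F4 : ℝ → ℂ) (hF1 : Wt N F1) (hF2 : Wt N F2)
    (hF3 : Wt N F3) (hF4 : Wt N F4) (τ τ' : ℕ × ℕ × ℤ) (hτ : τ ∈ TT P) (hτ' : τ' ∈ TT P)
    (hK : KK ξ ξ' τ τ' ≠ 0) (m1 : ℕ) (hm : m1 ∈ II N) (u1 w1 u3 w3 : ℕ)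
    (e1 : τ.1 = u1 * w1) (e3 : τ'.1 = u3 * w3)
    (hcop : Nat.Coprime (u1 * u3)
      (τ.2.2.natAbs * τ'.2.2.natAbs * (τ.2.1 * τ'.2.1) * (m1 * (w1 * w3)))) :
    ‖∑ m2 ∈ II N, gG F1 F2 ξ N τ m1 m2 * (starRingEnd ℂ) (gG F3 F4 ξ' N τ' m1 m2)‖ ≤
      10 ^ 9 * ((w1 * w3 : ℕ) : ℝ) *
        Real.sqrt (((u1 * u3 : ℕ) : ℝ) * (Int.gcd (KK ξ ξ' τ τ') (u1 * u3 : ℕ) : ℝ)) *
        (N : ℝ) ^ ((1 : ℝ) / 2) * (Real.log N + 1) *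
        ((pt (B1 ξ ξ' τ τ') m1 : ℕ) : ℝ) ^ ((1 : ℝ) / 2) * (tau m1 : ℝ) ^ (3 : ℕ) := by
  have hN1 : (1 : ℝ) ≤ N := by exact_mod_cast hN
  have hlogN : 0 ≤ Real.log N := Real.log_nonneg hN1
  have hR0 : 0 ≤ 10 ^ 9 * ((w1 * w3 : ℕ) : ℝ) *
        Real.sqrt (((u1 * u3 : ℕ) : ℝ) * (Int.gcd (KK ξ ξ' τ τ') (u1 * u3 : ℕ) : ℝ)) *
        (N : ℝ) ^ ((1 : ℝ) / 2) * (Real.log N + 1) *
        ((pt (B1 ξ ξ' τ τ') m1 : ℕ) : ℝ) ^ ((1 : ℝ) / 2) * (tau m1 : ℝ) ^ (3 : ℕ) := by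
    positivity
  by_cases hr : τ.2.2 = 0
  · rw [Finset.sum_eq_zero, norm_zero]
    · exact hR0
    · intro m2 _
      have : gG F1 F2 ξ N τ m1 m2 = 0 := by
        unfold gG
        rw [if_neg]
        intro h
        exact h.2.2.2.1 hr
      rw [this, zero_mul]
  by_cases hr' : τ'.2.2 = 0
  · rw [Finset.sum_eq_zero, norm_zero]
    · exact hR0
    · intro m2 _
      have : gG F3 F4 ξ' N τ' m1 m2 = 0 := by
        unfold gG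
        rw [if_neg]
        intro h
        exact h.2.2.2.1 hr'
      rw [this, map_zero, mul_zero]
  -- primes
  have hT := hτ
  have hT' := hτ'
  unfold TT at hT hT'
  rw [mem_product, mem_product] at hT hT'
  obtain ⟨hp1, hp1'⟩ := ic_mem_PP hT.1
  obtain ⟨hp2, hp2'⟩ := ic_mem_PP hT.2.1
  obtain ⟨hp3, hp3'⟩ := ic_mem_PP hT'.1
  obtain ⟨hp4, hp4'⟩ := ic_mem_PP hT'.2.1
  -- m1
  have hm1 : N + 1 ≤ m1 := (mem_Ioc.1 hm).1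
  have hm2 : m1 ≤ 2 * N + 1 := (mem_Ioc.1 hm).2
  have hm0 : m1 ≠ 0 := by omega
  set B : ℕ := τ.2.2.natAbs * τ'.2.2.natAbs * (τ.1 * τ.2.1 * (τ'.1 * τ'.2.1)) with hB
  have hrn : τ.2.2.natAbs ≠ 0 := Int.natAbs_ne_zero.2 hr
  have hrn' : τ'.2.2.natAbs ≠ 0 := Int.natAbs_ne_zero.2 hr'
  have hB0 : B ≠ 0 := by
    rw [hB]
    exact mul_ne_zero (mul_ne_zero hrn hrn') (mul_ne_zero (mul_ne_zero hp1.ne_zero hp2.ne_zero)
      (mul_ne_zero hp3.ne_zero hp4.ne_zero))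
  have hu1d : u1 ∣ τ.1 := ⟨w1, e1⟩
  have hw1d : w1 ∣ τ.1 := ⟨u1, by rw [e1, mul_comm]⟩
  have hu3d : u3 ∣ τ'.1 := ⟨w3, e3⟩
  have hw3d : w3 ∣ τ'.1 := ⟨u3, by rw [e3, mul_comm]⟩
  have hu1 : 1 ≤ u1 := Nat.pos_of_dvd_of_pos hu1d hp1.pos
  have hw1 : 1 ≤ w1 := Nat.pos_of_dvd_of_pos hw1d hp1.pos
  have hu3 : 1 ≤ u3 := Nat.pos_of_dvd_of_pos hu3d hp3.pos
  have hw3 : 1 ≤ w3 := Nat.pos_of_dvd_of_pos hw3d hp3.pos
  obtain ⟨k, hk⟩ := pt_dvd B m1 hm0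
  set s : ℕ := pt B m1 with hs
  have hs1 : 1 ≤ s := pt_pos B m1
  have hk1 : 1 ≤ k := by
    rcases Nat.eq_zero_or_pos k with h | h
    · exfalso
      apply hm0
      rw [hk, h, mul_zero]
    · exact h
  have hdiv : m1 / s = k := by
    rw [hk]
    exact Nat.mul_div_cancel_left k hs1
  have hcp := pt_coprime B m1 hB0 hm0
  rw [← hs, hdiv] at hcp
  have hwB : τ.2.2.natAbs * τ'.2.2.natAbs * (τ.2.1 * τ'.2.1) * (w1 * w3) ∣ B := by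
    rw [hB]
    obtain ⟨c1, hc1⟩ := hw1d
    obtain ⟨c3, hc3⟩ := hw3d
    exact ⟨c1 * c3, by rw [hc1, hc3]; ring⟩
  have hcopk : Nat.Coprime k (τ.2.2.natAbs * τ'.2.2.natAbs * (τ.2.1 * τ'.2.1) * (s * (w1 * w3))) := by
    have h1 : Nat.Coprime k (B * s) := Nat.Coprime.mul_right hcp.1 hcp.2
    refine Nat.Coprime.coprime_dvd_right ?_ h1
    obtain ⟨c, hc⟩ := hwB
    exact ⟨c, by rw [hc]; ring⟩
  have hcopu : Nat.Coprime (u1 * u3)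
      (τ.2.2.natAbs * τ'.2.2.natAbs * (τ.2.1 * τ'.2.1) * (s * (w1 * w3))) := by
    refine Nat.Coprime.coprime_dvd_right ?_ hcop
    exact ⟨k, by rw [hk]; ring⟩
  have hcop2 : Nat.Coprime (k * (u1 * u3))
      (τ.2.2.natAbs * τ'.2.2.natAbs * (τ.2.1 * τ'.2.1) * (s * (w1 * w3))) :=
    Nat.Coprime.mul_left hcopk hcopu
  -- the modulus
  have hlcm : 1 ≤ Nat.lcm τ.2.2.natAbs τ'.2.2.natAbs :=
    Nat.lcm_pos (Nat.pos_of_ne_zero hrn) (Nat.pos_of_ne_zero hrn')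
  have hww : 1 ≤ w1 * w3 := Nat.mul_pos hw1 hw3
  have huu : 1 ≤ u1 * u3 := Nat.mul_pos hu1 hu3
  have hMs : s ≤ M7 τ τ' s (w1 * w3) := by
    unfold M7
    calc s = 1 * (s * 1) := by ring
      _ ≤ _ := Nat.mul_le_mul hlcm (Nat.mul_le_mul le_rfl hww)
  have hM1 : 1 ≤ M7 τ τ' s (w1 * w3) := hs1.trans hMs
  have hmII : s * k ∈ II N := by rw [← hk]; exact hm
  -- decomposition
  rw [ic_classes N (M7 τ τ' s (w1 * w3)) hM1]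
  have hCS : ∑ ρ ∈ range (M7 τ τ' s (w1 * w3)),
      ∑ t ∈ (range (2 * N + 2)).filter (fun t => ρ + M7 τ τ' s (w1 * w3) * t ∈ II N),
      gG F1 F2 ξ N τ m1 (ρ + M7 τ τ' s (w1 * w3) * t) *
        (starRingEnd ℂ) (gG F3 F4 ξ' N τ' m1 (ρ + M7 τ τ' s (w1 * w3) * t)) =
      ∑ ρ ∈ range (M7 τ τ' s (w1 * w3)), CSG F1 F2 F3 F4 ξ ξ' N τ τ' m1 s (w1 * w3) ρ := rfl
  rw [hCS]
  have hku1 : 1 ≤ k * (u1 * u3) := Nat.mul_pos hk1 huu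
  obtain ⟨T, hT1⟩ : ∃ T : ℝ, T = (tau (k * (u1 * u3)) : ℝ) ^ 3 *
      Real.sqrt ((Int.gcd (KK ξ ξ' τ τ') (k * (u1 * u3) : ℕ) : ℝ) * ((k * (u1 * u3) : ℕ) : ℝ)) := ⟨_, rfl⟩
  have hTb : ∀ b : ℤ, ‖klS (k * (u1 * u3)) (KK ξ ξ' τ τ') b‖ ≤ T := by
    intro b
    rw [hT1]
    exact hW (k * (u1 * u3)) hku1 (KK ξ ξ' τ τ') b
  have hT0 : 0 ≤ T := by rw [hT1]; positivity
  obtain ⟨X, hX⟩ : ∃ X : ℝ, X = 5001 * (((N + 1 : ℝ) / (M7 τ τ' s (w1 * w3)) + 1) /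
      ((k * (u1 * u3) : ℕ) : ℝ) + 3 + Real.log ((k * (u1 * u3) : ℕ) : ℝ)) * T := ⟨_, rfl⟩
  have hkuR : (1 : ℝ) ≤ ((k * (u1 * u3) : ℕ) : ℝ) := by exact_mod_cast hku1
  have hsR : (1 : ℝ) ≤ s := by exact_mod_cast hs1
  have hMR : (1 : ℝ) ≤ M7 τ τ' s (w1 * w3) := by exact_mod_cast hM1
  have hlogk : 0 ≤ Real.log ((k * (u1 * u3) : ℕ) : ℝ) := Real.log_nonneg hkuR
  have hX0 : 0 ≤ X := by
    rw [hX]
    positivity
  have hsum : ‖∑ ρ ∈ range (M7 τ τ' s (w1 * w3)), CSG F1 F2 F3 F4 ξ ξ' N τ τ' m1 s (w1 * w3) ρ‖ ≤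
      ((s * (w1 * w3) : ℕ) : ℝ) * X := by
    have h1 : ∑ ρ ∈ range (M7 τ τ' s (w1 * w3)), CSG F1 F2 F3 F4 ξ ξ' N τ τ' m1 s (w1 * w3) ρ =
        ∑ ρ ∈ (range (M7 τ τ' s (w1 * w3))).filter (fun ρ => CSG F1 F2 F3 F4 ξ ξ' N τ τ' m1 s (w1 * w3) ρ ≠ 0),
          CSG F1 F2 F3 F4 ξ ξ' N τ τ' m1 s (w1 * w3) ρ :=
      (Finset.sum_filter_ne_zero _).symm
    rw [h1]
    refine (norm_sum_le _ _).trans ?_
    have h2 : ∑ ρ ∈ (range (M7 τ τ' s (w1 * w3))).filter (fun ρ => CSG F1 F2 F3 F4 ξ ξ' N τ τ' m1 s (w1 * w3) ρ ≠ 0),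
        ‖CSG F1 F2 F3 F4 ξ ξ' N τ τ' m1 s (w1 * w3) ρ‖ ≤
        ∑ _ρ ∈ (range (M7 τ τ' s (w1 * w3))).filter (fun ρ => CSG F1 F2 F3 F4 ξ ξ' N τ τ' m1 s (w1 * w3) ρ ≠ 0), X := by
      refine Finset.sum_le_sum fun ρ hρ => ?_
      have h3 := cls_boundG N P hN hP ξ ξ' hξ hξ' F1 F2 F3 F4 hF1 hF2 hF3 hF4 τ τ' hτ hτ' s k u1 w1 u3 w3 hs1 hk1 hmII e1 e3 hr hr'
        hcop2 ρ (mem_range.1 (mem_filter.1 hρ).1) T hTb
      rw [← hk] at h3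
      rw [hX]
      exact h3
    refine h2.trans ?_
    rw [Finset.sum_const, nsmul_eq_mul]
    refine mul_le_mul_of_nonneg_right ?_ hX0
    exact_mod_cast cls_cardG N P ξ ξ' F1 F2 F3 F4 τ τ' hτ hτ' m1 s (w1 * w3) hs1 hww hr hr'
  refine hsum.trans ?_
  -- sizes
  have hkm : k ≤ m1 := by
    rw [hk]
    exact Nat.le_mul_of_pos_left k hs1
  have hk3 : k ≤ 3 * N := by omega
  have hu16 : u1 * u3 ≤ (4 * N) * (4 * N) := by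
    refine Nat.mul_le_mul ?_ ?_
    · exact (Nat.le_of_dvd hp1.pos hu1d).trans (hp1'.trans (Nat.mul_le_mul_left 4 hPN))
    · exact (Nat.le_of_dvd hp3.pos hu3d).trans (hp3'.trans (Nat.mul_le_mul_left 4 hPN))
  have hfac : ((N + 1 : ℝ) / (M7 τ τ' s (w1 * w3)) + 1) / ((k * (u1 * u3) : ℕ) : ℝ) + 3 +
      Real.log ((k * (u1 * u3) : ℕ) : ℝ) ≤ 9 * (Real.log N + 1) := by
    have hkR : (1 : ℝ) ≤ k := by exact_mod_cast hk1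
    have huR : (1 : ℝ) ≤ ((u1 * u3 : ℕ) : ℝ) := by exact_mod_cast huu
    have h1 : (N + 1 : ℝ) / (M7 τ τ' s (w1 * w3)) / ((k * (u1 * u3) : ℕ) : ℝ) ≤ 1 := by
      rw [div_div, div_le_one (by positivity)]
      have h2 : (N + 1 : ℝ) ≤ s * k := by
        rw [hk] at hm1
        exact_mod_cast hm1
      refine h2.trans (mul_le_mul ?_ ?_ (by positivity) (by positivity))
      · exact_mod_cast hMs
      · exact_mod_cast Nat.le_mul_of_pos_right k huu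
    have h2 : (1 : ℝ) / ((k * (u1 * u3) : ℕ) : ℝ) ≤ 1 := by
      rw [div_le_one (by positivity)]
      exact hkuR
    have h3 : Real.log ((k * (u1 * u3) : ℕ) : ℝ) ≤ 3 * Real.log N + 4 := by
      have h4 : ((k * (u1 * u3) : ℕ) : ℝ) ≤ 48 * (N : ℝ) ^ 3 := by
        have h5 : k * (u1 * u3) ≤ (3 * N) * ((4 * N) * (4 * N)) := Nat.mul_le_mul hk3 hu16
        calc ((k * (u1 * u3) : ℕ) : ℝ) ≤ (((3 * N) * ((4 * N) * (4 * N)) : ℕ) : ℝ) := by exact_mod_cast h5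
          _ = 48 * (N : ℝ) ^ 3 := by push_cast; ring
      have h6 : Real.log ((k * (u1 * u3) : ℕ) : ℝ) ≤ Real.log (48 * (N : ℝ) ^ 3) :=
        Real.log_le_log (by positivity) h4
      rw [Real.log_mul (by norm_num) (by positivity), Real.log_pow] at h6
      have h7 : Real.log 48 ≤ 4 := by
        rw [Real.log_le_iff_le_exp (by norm_num)]
        have h8 : (2.7182818283 : ℝ) < Real.exp 1 := Real.exp_one_gt_d9
        have h9 : Real.exp 4 = Real.exp 1 ^ 4 := by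
          rw [← Real.exp_nat_mul]; norm_num
        rw [h9]
        calc (48 : ℝ) ≤ 2.7 ^ 4 := by norm_num
          _ ≤ Real.exp 1 ^ 4 := pow_le_pow_left₀ (by norm_num) (by linarith) 4
      have h10 : ((3 : ℕ) : ℝ) = 3 := by norm_num
      rw [h10] at h6
      linarith
    rw [add_div]
    linarith
  -- the root
  have hsg : s * Int.gcd (KK ξ ξ' τ τ') k ≤ pt (B1 ξ ξ' τ τ') m1 := by
    refine Nat.le_of_dvd (pt_pos _ _) (dvd_pt _ _ _ hm0 ?_ ?_)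
    · rw [hk]
      refine Nat.mul_dvd_mul_left s ?_
      have := Int.gcd_dvd_right (KK ξ ξ' τ τ') (k : ℤ)
      exact_mod_cast this
    · intro p hp hpd
      rcases (Nat.Prime.dvd_mul hp).1 hpd with h | h
      · have h1 : p ∣ B := ic_prime_pt hp h
        refine h1.trans ?_
        rw [hB]
        unfold B1
        exact ⟨(KK ξ ξ' τ τ').natAbs, by ring⟩
      · have h1 : ((p : ℕ) : ℤ) ∣ KK ξ ξ' τ τ' := by
          refine (Int.natCast_dvd_natCast.2 h).trans ?_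
          exact Int.gcd_dvd_left (KK ξ ξ' τ τ') (k : ℤ)
        have h2 : p ∣ (KK ξ ξ' τ τ').natAbs := Int.natCast_dvd.1 h1
        refine h2.trans ?_
        unfold B1
        rw [mul_assoc]
        exact Dvd.intro _ rfl
  have htau : tau (k * (u1 * u3)) ≤ 4 * tau m1 := by
    have h1 : tau k ≤ tau m1 := by
      unfold tau
      refine Finset.card_le_card (Nat.divisors_subset_of_dvd hm0 ?_)
      rw [hk]
      exact Nat.dvd_mul_left k s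
    have h2 : tau (u1 * u3) ≤ 2 * 2 :=
      (ic_tau_mul u1 u3).trans (Nat.mul_le_mul (ic_tau_dvd_prime hp1 hu1d) (ic_tau_dvd_prime hp3 hu3d))
    calc tau (k * (u1 * u3)) ≤ tau k * tau (u1 * u3) := ic_tau_mul _ _
      _ ≤ tau m1 * (2 * 2) := Nat.mul_le_mul h1 h2
      _ = 4 * tau m1 := by ring
  have hgcd : Int.gcd (KK ξ ξ' τ τ') (k * (u1 * u3) : ℕ) ≤
      Int.gcd (KK ξ ξ' τ τ') k * Int.gcd (KK ξ ξ' τ τ') (u1 * u3 : ℕ) := by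
    rw [Int.gcd_eq_natAbs, Int.gcd_eq_natAbs, Int.gcd_eq_natAbs, Int.natAbs_natCast, Int.natAbs_natCast,
      Int.natAbs_natCast]
    refine Nat.le_of_dvd ?_ (Nat.gcd_mul_right_dvd_mul_gcd _ _ _)
    have h1 : 0 < (KK ξ ξ' τ τ').natAbs := Int.natAbs_pos.2 hK
    exact Nat.mul_pos (Nat.gcd_pos_of_pos_left _ h1) (Nat.gcd_pos_of_pos_left _ h1)
  have hm3 : (m1 : ℝ) ≤ 3 * N := by
    have : m1 ≤ 3 * N := by omega
    exact_mod_cast this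
  have hsgR : (s : ℝ) * (Int.gcd (KK ξ ξ' τ τ') k : ℝ) ≤ ((pt (B1 ξ ξ' τ τ') m1 : ℕ) : ℝ) := by
    exact_mod_cast hsg
  have htauR : (tau (k * (u1 * u3)) : ℝ) ≤ 4 * tau m1 := by exact_mod_cast htau
  have hgcdR : (Int.gcd (KK ξ ξ' τ τ') (k * (u1 * u3) : ℕ) : ℝ) ≤
      (Int.gcd (KK ξ ξ' τ τ') k : ℝ) * (Int.gcd (KK ξ ξ' τ τ') (u1 * u3 : ℕ) : ℝ) := by exact_mod_cast hgcd
  obtain ⟨g, hg⟩ : ∃ g : ℝ, g = (Int.gcd (KK ξ ξ' τ τ') (u1 * u3 : ℕ) : ℝ) := ⟨_, rfl⟩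
  obtain ⟨u, hu⟩ : ∃ u : ℝ, u = ((u1 * u3 : ℕ) : ℝ) := ⟨_, rfl⟩
  have hg0 : 0 ≤ g := by rw [hg]; positivity
  have hu0 : 0 ≤ u := by rw [hu]; positivity
  have hroot : (s : ℝ) * Real.sqrt ((Int.gcd (KK ξ ξ' τ τ') (k * (u1 * u3) : ℕ) : ℝ) *
        ((k * (u1 * u3) : ℕ) : ℝ)) ≤
      2 * (Real.sqrt (u * g) * ((N : ℝ) ^ ((1 : ℝ) / 2) *
        ((pt (B1 ξ ξ' τ τ') m1 : ℕ) : ℝ) ^ ((1 : ℝ) / 2))) := by
    rw [← Real.sqrt_eq_rpow, ← Real.sqrt_eq_rpow, ← Real.sqrt_mul (by positivity), ← Real.sqrt_mul (by positivity)]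
    have f1 : (s : ℝ) = Real.sqrt ((s : ℝ) ^ 2) := (Real.sqrt_sq (by positivity)).symm
    have f2 : (2 : ℝ) = Real.sqrt 4 := by
      rw [show (4 : ℝ) = 2 ^ 2 by norm_num, Real.sqrt_sq (by norm_num)]
    rw [f1, f2, ← Real.sqrt_mul (by positivity), ← Real.sqrt_mul (by norm_num)]
    refine Real.sqrt_le_sqrt ?_
    have hmk : (m1 : ℝ) = s * k := by exact_mod_cast hk
    calc (s : ℝ) ^ 2 * ((Int.gcd (KK ξ ξ' τ τ') (k * (u1 * u3) : ℕ) : ℝ) * ((k * (u1 * u3) : ℕ) : ℝ))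
        ≤ (s : ℝ) ^ 2 * (((Int.gcd (KK ξ ξ' τ τ') k : ℝ) * g) * ((k * (u1 * u3) : ℕ) : ℝ)) := by
          rw [hg]
          gcongr
      _ = (u * g) * (((s : ℝ) * (Int.gcd (KK ξ ξ' τ τ') k : ℝ)) * (m1 : ℝ)) := by
          rw [hmk, hu]
          push_cast
          ring
      _ ≤ (u * g) * ((((pt (B1 ξ ξ' τ τ') m1 : ℕ) : ℝ)) * (3 * N)) := by
          gcongr
      _ ≤ 4 * (u * g * ((N : ℝ) * ((pt (B1 ξ ξ' τ τ') m1 : ℕ) : ℝ))) := by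
          have : 0 ≤ u * g * ((N : ℝ) * ((pt (B1 ξ ξ' τ τ') m1 : ℕ) : ℝ)) := by positivity
          nlinarith only [this]
  obtain ⟨Y, hY⟩ : ∃ Y : ℝ, Y = Real.sqrt (u * g) * ((N : ℝ) ^ ((1 : ℝ) / 2) *
        ((pt (B1 ξ ξ' τ τ') m1 : ℕ) : ℝ) ^ ((1 : ℝ) / 2)) := ⟨_, rfl⟩
  rw [← hY] at hroot
  have hY0 : 0 ≤ Y := by rw [hY]; positivity
  have hfac0 : 0 ≤ ((N + 1 : ℝ) / (M7 τ τ' s (w1 * w3)) + 1) / ((k * (u1 * u3) : ℕ) : ℝ) + 3 +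
      Real.log ((k * (u1 * u3) : ℕ) : ℝ) := by positivity
  have htau3 : (tau (k * (u1 * u3)) : ℝ) ^ 3 ≤ 64 * (tau m1 : ℝ) ^ 3 := by
    calc (tau (k * (u1 * u3)) : ℝ) ^ 3 ≤ (4 * (tau m1 : ℝ)) ^ 3 := pow_le_pow_left₀ (by positivity) htauR 3
      _ = 64 * (tau m1 : ℝ) ^ 3 := by ring
  have hw0 : 0 ≤ ((w1 * w3 : ℕ) : ℝ) := Nat.cast_nonneg _
  calc ((s * (w1 * w3) : ℕ) : ℝ) * X
      = 5001 * (((w1 * w3 : ℕ) : ℝ)) * ((((N + 1 : ℝ) / (M7 τ τ' s (w1 * w3)) + 1) /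
        ((k * (u1 * u3) : ℕ) : ℝ) + 3 + Real.log ((k * (u1 * u3) : ℕ) : ℝ)) *
        ((tau (k * (u1 * u3)) : ℝ) ^ 3 * ((s : ℝ) * Real.sqrt ((Int.gcd (KK ξ ξ' τ τ') (k * (u1 * u3) : ℕ) : ℝ) *
        ((k * (u1 * u3) : ℕ) : ℝ))))) := by
        rw [hX, hT1]
        push_cast
        ring
    _ ≤ 5001 * (((w1 * w3 : ℕ) : ℝ)) * ((9 * (Real.log N + 1)) *
        ((64 * (tau m1 : ℝ) ^ 3) * (2 * Y))) := by
        refine mul_le_mul_of_nonneg_left ?_ (by positivity)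
        refine mul_le_mul hfac (mul_le_mul htau3 hroot (by positivity) (by positivity)) (by positivity)
          (by positivity)
    _ ≤ 10 ^ 9 * (((w1 * w3 : ℕ) : ℝ)) * (Real.log N + 1) * ((tau m1 : ℝ) ^ 3 * Y) := by
        have : 0 ≤ (((w1 * w3 : ℕ) : ℝ)) * (Real.log N + 1) * ((tau m1 : ℝ) ^ 3 * Y) := by positivity
        nlinarith only [this]
    _ = _ := by
        rw [hY, hu, hg]
        ring

end Pool.Agent.H35.WT
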