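import Pool.Agent.H35.WT.Defs
import Pool.Agent.H35.WL.Ki

/-!
# WT-Tn: the diagonal, different frequencies

`kf n (ξp) (pm) = kf n ξ m` (`kf_mul_left`, `(p,n) = 1`), `kf n ξ m = ee(ξ/(mn)) kf m (-ξ) n`
(`kf_recip`, see `phase` in H94/EH/M13.lean).  The sum over `n ∈ II N`, `(n,m) = 1`, `p ∤ n` is the sum over
`(n,m) = 1` minus the sum over `n = p n'`; partial sums of `kf m (-ξ) n` by `kl_incomplete3` (step `1`,
resp. step `p`) with `WB`: `≤ (N/m + 4 + log m) tau(m)^3 √(gcd(ξ,m) m)`, `N < m ≤ 3N`.  The weight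
`G(n) = F1(mn) F̄2(mn) ee(ξ/(mn))` has norm `≤ 1` and total variation `≤ 1000` (`Wt`: each step changes
`F(mn)` by at most `40/N² · 3N`, `|ξ|/m (1/n - 1/(n+1)) ≤ 8/N`); `abel_bv`.  All divisor and log factors
are `≤ C N^ε`.
-/

set_option autoImplicit false

namespace Pool.Agent.H35.WT

open Finset
open Pool.Agent.H80.KF
open Pool.Agent.H35.WL (WB)

private theorem tn_aff (N T : ℕ) (n0 ν : ℝ)
    (hn : ∀ t : ℕ, t < T → (N : ℝ) ≤ n0 + ν * t ∧ n0 + ν * t ≤ 3 * N) :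
    ∑ _t ∈ range (T - 1), |ν| ≤ 2 * N := by
  rcases Nat.eq_zero_or_pos T with h | h
  · subst h
    simp
  · have h1 := hn 0 h
    have h2 := hn (T - 1) (by omega)
    simp only [Nat.cast_zero, mul_zero, add_zero] at h1
    rw [sum_const, card_range, nsmul_eq_mul]
    have h3 : ((T - 1 : ℕ) : ℝ) * |ν| = |ν * ((T - 1 : ℕ) : ℝ)| := by
      rw [abs_mul, Nat.abs_cast, mul_comm]
    rw [h3, abs_le]
    constructor
    · linarith [h1.1, h1.2, h2.1, h2.2]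
    · linarith [h1.1, h1.2, h2.1, h2.2]

private theorem tn_F (N : ℕ) (hN : 1 ≤ N) (F : ℝ → ℂ) (hF : Wt N F) (T : ℕ) (y : ℕ → ℝ)
    (hy : ∀ t < T, (N : ℝ) ^ 2 ≤ y t ∧ y t ≤ 9 * (N : ℝ) ^ 2) (K : ℝ)
    (hK : ∑ t ∈ range (T - 1), |y (t + 1) - y t| ≤ K * (N : ℝ) ^ 2) :
    ∑ t ∈ range (T - 1), ‖F (y (t + 1)) - F (y t)‖ ≤ 40 * K := by
  have hN0 : (0 : ℝ) < N := by exact_mod_cast hN
  calc ∑ t ∈ range (T - 1), ‖F (y (t + 1)) - F (y t)‖
      ≤ ∑ t ∈ range (T - 1), 40 / (N : ℝ) ^ 2 * |y (t + 1) - y t| := by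
        refine sum_le_sum fun t ht => ?_
        rw [mem_range] at ht
        have h1 := hy (t + 1) (by omega)
        have h2 := hy t (by omega)
        exact hF.2 _ _ h1.1 h1.2 h2.1 h2.2
    _ = 40 / (N : ℝ) ^ 2 * ∑ t ∈ range (T - 1), |y (t + 1) - y t| := by rw [mul_sum]
    _ ≤ 40 / (N : ℝ) ^ 2 * (K * (N : ℝ) ^ 2) :=
        mul_le_mul_of_nonneg_left hK (by positivity)
    _ = 40 * K := by field_simp

private theorem tn_one (N : ℕ) (hN : 1 ≤ N) (F : ℝ → ℂ) (hF : Wt N F) (A : ℝ) (hA : (N : ℝ) ≤ A)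
    (hA' : A ≤ 3 * N) (T : ℕ) (n0 ν : ℝ)
    (hn : ∀ t : ℕ, t < T → (N : ℝ) ≤ n0 + ν * t ∧ n0 + ν * t ≤ 3 * N) :
    ∑ t ∈ range (T - 1), ‖F (A * (n0 + ν * ((t + 1 : ℕ) : ℝ))) - F (A * (n0 + ν * (t : ℝ)))‖
      ≤ 240 := by
  have hN0 : (0 : ℝ) < N := by exact_mod_cast hN
  have h := tn_F N hN F hF T (fun t => A * (n0 + ν * (t : ℝ))) ?_ 6 ?_
  · exact h.trans (by norm_num)
  · intro t ht
    have h1 := hn t ht
    constructor
    · show (N : ℝ) ^ 2 ≤ A * (n0 + ν * (t : ℝ))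
      rw [pow_two]
      exact mul_le_mul hA h1.1 hN0.le (hN0.le.trans hA)
    · show A * (n0 + ν * (t : ℝ)) ≤ 9 * (N : ℝ) ^ 2
      calc A * (n0 + ν * (t : ℝ)) ≤ (3 * N) * (3 * N) :=
            mul_le_mul hA' h1.2 (hN0.le.trans h1.1) (by positivity)
        _ = 9 * (N : ℝ) ^ 2 := by ring
  · have h2 := tn_aff N T n0 ν hn
    have h3 : ∀ t : ℕ, |A * (n0 + ν * ((t + 1 : ℕ) : ℝ)) - A * (n0 + ν * (t : ℝ))| = A * |ν| := by
      intro t
      have h4 : A * (n0 + ν * ((t + 1 : ℕ) : ℝ)) - A * (n0 + ν * (t : ℝ)) = A * ν := by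
        push_cast; ring
      rw [h4, abs_mul, abs_of_pos (hN0.trans_le hA)]
    simp only [h3]
    rw [← mul_sum]
    calc A * ∑ _t ∈ range (T - 1), |ν| ≤ (3 * N) * (2 * N) :=
          mul_le_mul hA' h2 (sum_nonneg fun _ _ => abs_nonneg _) (by positivity)
      _ = 6 * (N : ℝ) ^ 2 := by ring

private theorem tn_ee (N : ℕ) (hN : 1 ≤ N) (c : ℝ) (hc : |c| ≤ 16 * N) (T : ℕ) (n0 ν : ℝ)
    (hn : ∀ t : ℕ, t < T → (N : ℝ) ≤ n0 + ν * t ∧ n0 + ν * t ≤ 3 * N) :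
    ∑ t ∈ range (T - 1), ‖ee (c / (n0 + ν * ((t + 1 : ℕ) : ℝ))) - ee (c / (n0 + ν * (t : ℝ)))‖
      ≤ 64 * Real.pi := by
  have hN0 : (0 : ℝ) < N := by exact_mod_cast hN
  have h2 := tn_aff N T n0 ν hn
  calc ∑ t ∈ range (T - 1), ‖ee (c / (n0 + ν * ((t + 1 : ℕ) : ℝ))) - ee (c / (n0 + ν * (t : ℝ)))‖
      ≤ ∑ t ∈ range (T - 1), 2 * Real.pi * (16 / N) * |ν| := by
        refine sum_le_sum fun t ht => ?_
        rw [mem_range] at ht
        have e1 := hn (t + 1) (by omega)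
        have e2 := hn t (by omega)
        have p1 := hN0.trans_le e1.1
        have p2 := hN0.trans_le e2.1
        refine (ee_lip _ _).trans ?_
        rw [mul_assoc (2 * Real.pi)]
        refine mul_le_mul_of_nonneg_left ?_ (by positivity)
        have e3 : c / (n0 + ν * ((t + 1 : ℕ) : ℝ)) - c / (n0 + ν * (t : ℝ)) =
            -(c * ν) / ((n0 + ν * ((t + 1 : ℕ) : ℝ)) * (n0 + ν * (t : ℝ))) := by
          rw [div_sub_div _ _ p1.ne' p2.ne']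
          congr 1
          push_cast
          ring
        rw [e3, abs_div, abs_neg, abs_mul, abs_of_pos (mul_pos p1 p2), div_le_iff₀ (mul_pos p1 p2)]
        have e4 : (N : ℝ) * N ≤ (n0 + ν * ((t + 1 : ℕ) : ℝ)) * (n0 + ν * (t : ℝ)) :=
          mul_le_mul e1.1 e2.1 hN0.le p1.le
        calc |c| * |ν| ≤ 16 * N * |ν| := mul_le_mul_of_nonneg_right hc (abs_nonneg _)
          _ = 16 / N * |ν| * (N * N) := by field_simp
          _ ≤ _ := mul_le_mul_of_nonneg_left e4 (by positivity)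
    _ = 2 * Real.pi * (16 / N) * ∑ _t ∈ range (T - 1), |ν| := by rw [mul_sum]
    _ ≤ 2 * Real.pi * (16 / N) * (2 * N) := mul_le_mul_of_nonneg_left h2 (by positivity)
    _ = 64 * Real.pi := by field_simp; ring

private theorem tn_conj (g : ℕ → ℂ) (T : ℕ) :
    ∑ t ∈ range (T - 1), ‖(starRingEnd ℂ) (g (t + 1)) - (starRingEnd ℂ) (g t)‖ =
      ∑ t ∈ range (T - 1), ‖g (t + 1) - g t‖ := by
  refine sum_congr rfl fun t _ => ?_
  rw [← map_sub, RCLike.norm_conj]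

private theorem tn_le_one {a b : ℂ} (ha : ‖a‖ ≤ 1) (hb : ‖b‖ ≤ 1) : ‖a * b‖ ≤ 1 := by
  rw [norm_mul]
  exact mul_le_one₀ ha (norm_nonneg _) hb

/-- the weight -/
private noncomputable def tnW (F1 F2 : ℝ → ℂ) (A c y : ℝ) : ℂ :=
  F1 (A * y) * (starRingEnd ℂ) (F2 (A * y)) * ee (c / y)

private theorem tn_tv (N : ℕ) (hN : 1 ≤ N) (F1 F2 : ℝ → ℂ) (hF1 : Wt N F1) (hF2 : Wt N F2)
    (A c : ℝ) (hA : (N : ℝ) ≤ A) (hA' : A ≤ 3 * N) (hc : |c| ≤ 16 * N) (T : ℕ) (n0 ν : ℝ)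
    (hn : ∀ t : ℕ, t < T → (N : ℝ) ≤ n0 + ν * t ∧ n0 + ν * t ≤ 3 * N) :
    (∀ t : ℕ, t < T → ‖tnW F1 F2 A c (n0 + ν * (t : ℝ))‖ ≤ 1) ∧
    ∑ t ∈ range (T - 1), ‖tnW F1 F2 A c (n0 + ν * ((t + 1 : ℕ) : ℝ)) -
      tnW F1 F2 A c (n0 + ν * (t : ℝ))‖ ≤ 1000 := by
  let g1 : ℕ → ℂ := fun t => F1 (A * (n0 + ν * (t : ℝ)))
  let g2 : ℕ → ℂ := fun t => (starRingEnd ℂ) (F2 (A * (n0 + ν * (t : ℝ))))
  let g3 : ℕ → ℂ := fun t => ee (c / (n0 + ν * (t : ℝ)))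
  have b1 : ∀ t < T, ‖g1 t‖ ≤ 1 := fun t _ => hF1.1 _
  have b2 : ∀ t < T, ‖g2 t‖ ≤ 1 := by
    intro t _
    show ‖(starRingEnd ℂ) (F2 (A * (n0 + ν * (t : ℝ))))‖ ≤ 1
    rw [RCLike.norm_conj]
    exact hF2.1 _
  have b3 : ∀ t < T, ‖g3 t‖ ≤ 1 := fun t _ => (norm_ee _).le
  have b12 : ∀ t < T, ‖(fun t => g1 t * g2 t) t‖ ≤ 1 := fun t ht => tn_le_one (b1 t ht) (b2 t ht)
  refine ⟨fun t ht => tn_le_one (b12 t ht) (b3 t ht), ?_⟩
  have h1 := bv_mul (fun t => g1 t * g2 t) g3 T b12 b3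
  have h2 := bv_mul g1 g2 T b1 b2
  have v1 : ∑ t ∈ range (T - 1), ‖g1 (t + 1) - g1 t‖ ≤ 240 :=
    tn_one N hN F1 hF1 A hA hA' T n0 ν hn
  have v2 : ∑ t ∈ range (T - 1), ‖g2 (t + 1) - g2 t‖ ≤ 240 := by
    have h3 := tn_conj (fun t : ℕ => F2 (A * (n0 + ν * (t : ℝ)))) T
    have h4 := tn_one N hN F2 hF2 A hA hA' T n0 ν hn
    exact h3.le.trans h4
  have v3 : ∑ t ∈ range (T - 1), ‖g3 (t + 1) - g3 t‖ ≤ 64 * Real.pi :=
    tn_ee N hN c hc T n0 ν hn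
  have hpi := Real.pi_lt_d2
  refine h1.trans ?_
  have h5 : ∑ t ∈ range (T - 1), ‖(fun t => g1 t * g2 t) (t + 1) - (fun t => g1 t * g2 t) t‖ ≤
      480 := by
    refine h2.trans ?_
    linarith
  linarith

private theorem tn_prog (hW : WB) (N : ℕ) (hN : 1 ≤ N) (m : ℕ) (hm : m ∈ II N) (F1 F2 : ℝ → ℂ)
    (hF1 : Wt N F1) (hF2 : Wt N F2) (ξ : ℤ) (hξ : |ξ| ≤ 8 * (N : ℤ) ^ 2) (ρ M T : ℕ)
    (hM : Nat.Coprime M m) (hT : T ≤ N + 1)
    (hn : ∀ t < T, N ≤ ρ + M * t ∧ ρ + M * t ≤ 3 * N) :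
    ‖∑ t ∈ (range T).filter (fun t => Nat.Coprime (ρ + M * t) m),
        F1 ((m : ℝ) * ((ρ + M * t : ℕ) : ℝ)) *
          (starRingEnd ℂ) (F2 ((m : ℝ) * ((ρ + M * t : ℕ) : ℝ))) * kf (ρ + M * t) ξ m‖ ≤
      1001 * ((4 + Real.log (3 * N)) *
        ((tau m : ℝ) ^ 3 * Real.sqrt ((Int.gcd ξ m : ℝ) * m))) := by
  have hN0 : (0 : ℝ) < N := by exact_mod_cast hN
  have hm' : N < m ∧ m ≤ 2 * N + 1 := by
    unfold II at hm
    exact Finset.mem_Ioc.1 hm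
  have hm1 : 1 ≤ m := by omega
  have hm0 : (0 : ℝ) < m := by exact_mod_cast hm1
  have hmN : (N : ℝ) ≤ m := by exact_mod_cast hm'.1.le
  have hm3 : (m : ℝ) ≤ 3 * N := by
    have : m ≤ 3 * N := by omega
    exact_mod_cast this
  have hc : |(ξ : ℝ) / m| ≤ 16 * N := by
    rw [abs_div, abs_of_pos hm0, div_le_iff₀ hm0]
    have h1 : |(ξ : ℝ)| ≤ 8 * (N : ℝ) ^ 2 := by exact_mod_cast hξ
    nlinarith
  have hnR : ∀ t : ℕ, t < T → (N : ℝ) ≤ (ρ : ℝ) + (M : ℝ) * t ∧ (ρ : ℝ) + (M : ℝ) * t ≤ 3 * N := by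
    intro t ht
    have h1 := hn t ht
    constructor
    · exact_mod_cast h1.1
    · exact_mod_cast h1.2
  obtain ⟨hG, hV⟩ := tn_tv N hN F1 F2 hF1 hF2 m ((ξ : ℝ) / m) hmN hm3 hc T ρ M hnR
  set B : ℝ := (tau m : ℝ) ^ 3 * Real.sqrt ((Int.gcd ξ m : ℝ) * m) with hBdef
  have hB0 : 0 ≤ B := by positivity
  have hlog : 0 ≤ Real.log (3 * N) := by
    apply Real.log_nonneg
    have : (1 : ℝ) ≤ N := by exact_mod_cast hN
    linarith
  set f : ℕ → ℂ := fun t => if Nat.Coprime (ρ + M * t) m then kf m (-ξ) (ρ + M * t) else 0 with hf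
  have hpart : ∀ j ≤ T, ‖∑ t ∈ range j, f t‖ ≤ (4 + Real.log (3 * N)) * B := by
    intro j hj
    have hkl : ∀ b : ℤ, ‖klS m (-ξ) b‖ ≤ B := by
      intro b
      have h1 := hW m hm1 (-ξ) b
      rw [Int.neg_gcd] at h1
      exact h1
    have h2 := Pool.Agent.H35.WL.kl_incomplete3 m hm1 (-ξ) B hkl M ρ j hM
    have h3 : ∑ t ∈ range j, f t =
        ∑ t ∈ (range j).filter (fun t => Nat.Coprime (ρ + M * t) m), kf m (-ξ) (ρ + M * t) := by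
      rw [Finset.sum_filter]
    rw [h3]
    refine h2.trans (mul_le_mul_of_nonneg_right ?_ hB0)
    have h4 : (j : ℝ) / m ≤ 1 := by
      rw [div_le_one hm0]
      have : j ≤ m := by omega
      exact_mod_cast this
    have h5 : Real.log m ≤ Real.log (3 * N) := Real.log_le_log hm0 hm3
    linarith
  have habel := abel_bv f (fun t => tnW F1 F2 m ((ξ : ℝ) / m) ((ρ : ℝ) + (M : ℝ) * t)) T
    ((4 + Real.log (3 * N)) * B) 1000 hpart hG hV
  have hsum : ∑ t ∈ (range T).filter (fun t => Nat.Coprime (ρ + M * t) m),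
        F1 ((m : ℝ) * ((ρ + M * t : ℕ) : ℝ)) *
          (starRingEnd ℂ) (F2 ((m : ℝ) * ((ρ + M * t : ℕ) : ℝ))) * kf (ρ + M * t) ξ m =
      ∑ t ∈ range T, (fun t : ℕ => tnW F1 F2 m ((ξ : ℝ) / m) ((ρ : ℝ) + (M : ℝ) * t)) t * f t := by
    rw [Finset.sum_filter]
    refine Finset.sum_congr rfl fun t ht => ?_
    rw [Finset.mem_range] at ht
    have h1 := hn t ht
    simp only [hf]
    split_ifs with hcp
    · rw [kf_recip hm1 (by omega : 1 ≤ ρ + M * t) hcp.symm ξ]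
      unfold tnW
      rw [div_div]
      push_cast
      ring
    · simp
  rw [hsum]
  refine habel.trans (le_of_eq ?_)
  ring

private theorem tn_cls (hW : WB) (N : ℕ) (hN : 1 ≤ N) (m : ℕ) (hm : m ∈ II N) (F1 F2 : ℝ → ℂ)
    (hF1 : Wt N F1) (hF2 : Wt N F2) (ξ : ℤ) (hξ : |ξ| ≤ 8 * (N : ℤ) ^ 2) (p : ℕ) (hp : 1 ≤ p)
    (hpm : Nat.Coprime p m) :
    ‖∑ n ∈ (II N).filter (fun n => Nat.Coprime n m ∧ p ∣ n),
        F1 ((m : ℝ) * (n : ℝ)) * (starRingEnd ℂ) (F2 ((m : ℝ) * (n : ℝ))) * kf n ξ m‖ ≤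
      1001 * ((4 + Real.log (3 * N)) *
        ((tau m : ℝ) ^ 3 * Real.sqrt ((Int.gcd ξ m : ℝ) * m))) := by
  have e1 : N < p * (N / p + 1) := Nat.lt_mul_div_succ N (by omega)
  have e2 : p * ((2 * N + 1) / p) ≤ 2 * N + 1 := Nat.mul_div_le _ _
  have e3 : (2 * N + 1) / p ≤ N / p + N + 1 := by
    apply Nat.div_le_of_le_mul
    have h1 : N ≤ p * N := Nat.le_mul_of_pos_left N (by omega)
    have h2 : p * (N / p + N + 1) = p * (N / p + 1) + p * N := by ring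
    omega
  have h := tn_prog hW N hN m hm F1 F2 hF1 hF2 ξ hξ (p * (N / p + 1)) p
    ((2 * N + 1) / p - N / p) hpm (by omega) (by
      intro t ht
      have h1 : p * (N / p + 1) + p * t = p * (N / p + 1 + t) := by ring
      have h2 : p * (N / p + 1 + t) ≤ p * ((2 * N + 1) / p) :=
        Nat.mul_le_mul_left p (by omega)
      constructor
      · have : 0 ≤ p * t := Nat.zero_le _
        omega
      · omega)
  have hs : ∑ n ∈ (II N).filter (fun n => Nat.Coprime n m ∧ p ∣ n),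
        F1 ((m : ℝ) * (n : ℝ)) * (starRingEnd ℂ) (F2 ((m : ℝ) * (n : ℝ))) * kf n ξ m =
      ∑ t ∈ (range ((2 * N + 1) / p - N / p)).filter
          (fun t => Nat.Coprime (p * (N / p + 1) + p * t) m),
        F1 ((m : ℝ) * ((p * (N / p + 1) + p * t : ℕ) : ℝ)) *
          (starRingEnd ℂ) (F2 ((m : ℝ) * ((p * (N / p + 1) + p * t : ℕ) : ℝ))) *
          kf (p * (N / p + 1) + p * t) ξ m := by
    symm
    refine Finset.sum_bij (fun t _ => p * (N / p + 1) + p * t) ?_ ?_ ?_ ?_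
    · intro t ht
      rw [Finset.mem_filter, Finset.mem_range] at ht
      rw [Finset.mem_filter]
      have h1 : p * (N / p + 1) + p * t = p * (N / p + 1 + t) := by ring
      have h2 : p * (N / p + 1 + t) ≤ p * ((2 * N + 1) / p) :=
        Nat.mul_le_mul_left p (by omega)
      refine ⟨?_, ht.2, ?_⟩
      · unfold II
        rw [Finset.mem_Ioc]
        have : 0 ≤ p * t := Nat.zero_le _
        constructor
        · omega
        · omega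
      · rw [h1]
        exact dvd_mul_right _ _
    · intro a _ b _ hab
      have h1 : p * a = p * b := by
        have h2 : p * (N / p + 1) + p * a = p * (N / p + 1) + p * b := hab
        omega
      exact Nat.eq_of_mul_eq_mul_left (by omega) h1
    · intro n hn
      rw [Finset.mem_filter] at hn
      obtain ⟨hn1, hn2, k, hk⟩ := hn
      unfold II at hn1
      rw [Finset.mem_Ioc] at hn1
      have h1 : N / p < k := by
        rw [Nat.div_lt_iff_lt_mul (by omega), mul_comm]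
        omega
      have h2 : k ≤ (2 * N + 1) / p := by
        rw [Nat.le_div_iff_mul_le (by omega), mul_comm]
        omega
      have h3 : p * (N / p + 1) + p * (k - (N / p + 1)) = n := by
        rw [← Nat.mul_add, hk]
        congr 1
        omega
      refine ⟨k - (N / p + 1), ?_, h3⟩
      rw [Finset.mem_filter, Finset.mem_range, h3]
      exact ⟨by omega, hn2⟩
    · intro t _
      rfl
  rw [hs]
  exact h

theorem nsum (hW : WB) (ε : ℝ) (hε : 0 < ε) : ∃ C : ℝ, 0 < C ∧ ∀ N : ℕ, 1 ≤ N →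
    ∀ m ∈ II N, ∀ p : ℕ, p.Prime → ¬ p ∣ m → ∀ F1 F2 : ℝ → ℂ, Wt N F1 → Wt N F2 →
    ∀ ξ : ℤ, ξ ≠ 0 → |ξ| ≤ 8 * (N : ℤ) ^ 2 →
    ‖∑ n ∈ (II N).filter (fun n => Nat.Coprime n (p * m)),
        F1 ((m : ℝ) * n) * (starRingEnd ℂ) (F2 ((m : ℝ) * n)) * kf n (ξ * p) (p * m)‖ ≤
      C * (N : ℝ) ^ (1 / 2 + ε) * Real.sqrt (Int.gcd ξ m : ℝ) := by
  obtain ⟨C1, hC1, hdiv⟩ := Pool.Agent.H92.EH.div_bound (ε / 6) (by positivity)
  refine ⟨2002 * ((4 + 2 / ε) * C1 ^ 3 * (3 : ℝ) ^ (1 / 2 + ε)), by positivity, ?_⟩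
  intro N hN m hm p hp hpm F1 F2 hF1 hF2 ξ _ hξ
  have hN0 : (0 : ℝ) < N := by exact_mod_cast hN
  have hN1 : (1 : ℝ) ≤ N := by exact_mod_cast hN
  have hm' : N < m ∧ m ≤ 2 * N + 1 := by
    unfold II at hm
    exact Finset.mem_Ioc.1 hm
  have hm1 : 1 ≤ m := by omega
  have hm0 : (0 : ℝ) < m := by exact_mod_cast hm1
  have hm3 : (m : ℝ) ≤ 3 * N := by
    have : m ≤ 3 * N := by omega
    exact_mod_cast this
  have hcpm : Nat.Coprime p m := (Nat.Prime.coprime_iff_not_dvd hp).2 hpm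
  have hA := tn_cls hW N hN m hm F1 F2 hF1 hF2 ξ hξ 1 le_rfl (Nat.coprime_one_left m)
  have hB := tn_cls hW N hN m hm F1 F2 hF1 hF2 ξ hξ p hp.one_lt.le hcpm
  set Φ : ℕ → ℂ := fun n =>
    F1 ((m : ℝ) * (n : ℝ)) * (starRingEnd ℂ) (F2 ((m : ℝ) * (n : ℝ))) * kf n ξ m with hΦ
  have hs0 : ∑ n ∈ (II N).filter (fun n => Nat.Coprime n (p * m)),
        F1 ((m : ℝ) * n) * (starRingEnd ℂ) (F2 ((m : ℝ) * n)) * kf n (ξ * p) (p * m) =
      ∑ n ∈ (II N).filter (fun n => Nat.Coprime n (p * m)), Φ n := by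
    refine Finset.sum_congr rfl fun n hn => ?_
    rw [Finset.mem_filter] at hn
    obtain ⟨hn1, hn2⟩ := hn
    unfold II at hn1
    rw [Finset.mem_Ioc] at hn1
    have h1 : Nat.Coprime p n := (Nat.Coprime.coprime_mul_right_right hn2).symm
    have h2 : Nat.Coprime m n := (Nat.Coprime.coprime_mul_left_right hn2).symm
    rw [kf_mul_left (by omega : 1 ≤ n) ξ h1 h2]
  have hs1 : ∑ n ∈ (II N).filter (fun n => Nat.Coprime n (p * m)), Φ n =
      ∑ n ∈ (II N).filter (fun n => Nat.Coprime n m ∧ 1 ∣ n), Φ n -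
        ∑ n ∈ (II N).filter (fun n => Nat.Coprime n m ∧ p ∣ n), Φ n := by
    rw [eq_sub_iff_add_eq]
    have h1 : (II N).filter (fun n => Nat.Coprime n m ∧ 1 ∣ n) =
        (II N).filter (fun n => Nat.Coprime n (p * m)) ∪
          (II N).filter (fun n => Nat.Coprime n m ∧ p ∣ n) := by
      ext n
      simp only [Finset.mem_union, Finset.mem_filter]
      constructor
      · rintro ⟨h1, h2, _⟩
        by_cases h3 : p ∣ n
        · exact Or.inr ⟨h1, h2, h3⟩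
        · refine Or.inl ⟨h1, ?_⟩
          exact Nat.Coprime.mul_right ((Nat.Prime.coprime_iff_not_dvd hp).2 h3).symm h2
      · rintro (⟨h1, h2⟩ | ⟨h1, h2, _⟩)
        · exact ⟨h1, Nat.Coprime.coprime_mul_left_right h2, one_dvd _⟩
        · exact ⟨h1, h2, one_dvd _⟩
    rw [h1, Finset.sum_union]
    rw [Finset.disjoint_left]
    intro n h2 h3
    rw [Finset.mem_filter] at h2 h3
    have h4 : Nat.Coprime p n := (Nat.Coprime.coprime_mul_right_right h2.2).symm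
    have h5 := (Nat.Prime.coprime_iff_not_dvd hp).1 h4
    exact h5 h3.2.2
  rw [hs0, hs1]
  refine (norm_sub_le _ _).trans ((add_le_add hA hB).trans ?_)
  -- the divisor function and the logarithm
  have h3N : (0 : ℝ) < 3 * N := by positivity
  have h3N1 : (1 : ℝ) ≤ 3 * N := by linarith
  have ht1 : (tau m : ℝ) ≤ C1 * (3 * (N : ℝ)) ^ (ε / 6) := by
    unfold tau
    refine (hdiv m hm1).trans ?_
    have : (m : ℝ) ^ (ε / 6) ≤ (3 * (N : ℝ)) ^ (ε / 6) :=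
      Real.rpow_le_rpow hm0.le hm3 (by positivity)
    exact mul_le_mul_of_nonneg_left this (by linarith)
  have ht3 : (tau m : ℝ) ^ 3 ≤ C1 ^ 3 * (3 * (N : ℝ)) ^ (ε / 2) := by
    have h1 : (tau m : ℝ) ^ 3 ≤ (C1 * (3 * (N : ℝ)) ^ (ε / 6)) ^ 3 :=
      pow_le_pow_left₀ (by positivity) ht1 3
    refine h1.trans (le_of_eq ?_)
    rw [mul_pow, ← Real.rpow_natCast ((3 * (N : ℝ)) ^ (ε / 6)) 3, ← Real.rpow_mul h3N.le]
    congr 2
    push_cast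
    ring
  have hlog : 4 + Real.log (3 * N) ≤ (4 + 2 / ε) * (3 * (N : ℝ)) ^ (ε / 2) := by
    have h1 : Real.log (3 * N) ≤ (3 * (N : ℝ)) ^ (ε / 2) / (ε / 2) :=
      Real.log_le_rpow_div h3N.le (by positivity)
    have h2 : (1 : ℝ) ≤ (3 * (N : ℝ)) ^ (ε / 2) := Real.one_le_rpow h3N1 (by positivity)
    have h3 : (3 * (N : ℝ)) ^ (ε / 2) / (ε / 2) = 2 / ε * (3 * (N : ℝ)) ^ (ε / 2) := by
      field_simp
    rw [h3] at h1
    nlinarith
  have hlog0 : 0 ≤ 4 + Real.log (3 * N) := by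
    have := Real.log_nonneg h3N1
    linarith
  have hsq : Real.sqrt ((Int.gcd ξ m : ℝ) * m) ≤
      Real.sqrt (Int.gcd ξ m : ℝ) * (3 * (N : ℝ)) ^ (1 / 2 : ℝ) := by
    rw [Real.sqrt_mul (by positivity), ← Real.sqrt_eq_rpow]
    exact mul_le_mul_of_nonneg_left (Real.sqrt_le_sqrt hm3) (Real.sqrt_nonneg _)
  have hprod : (4 + Real.log (3 * N)) *
      ((tau m : ℝ) ^ 3 * Real.sqrt ((Int.gcd ξ m : ℝ) * m)) ≤
      ((4 + 2 / ε) * (3 * (N : ℝ)) ^ (ε / 2)) * ((C1 ^ 3 * (3 * (N : ℝ)) ^ (ε / 2)) *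
        (Real.sqrt (Int.gcd ξ m : ℝ) * (3 * (N : ℝ)) ^ (1 / 2 : ℝ))) := by
    have hC1' : 0 ≤ C1 := by linarith
    exact mul_le_mul hlog (mul_le_mul ht3 hsq (Real.sqrt_nonneg _) (by positivity))
      (by positivity) (by positivity)
  have hpow : (3 * (N : ℝ)) ^ (ε / 2) * (3 * (N : ℝ)) ^ (ε / 2) * (3 * (N : ℝ)) ^ (1 / 2 : ℝ) =
      (3 : ℝ) ^ (1 / 2 + ε) * (N : ℝ) ^ (1 / 2 + ε) := by
    rw [← Real.rpow_add h3N, ← Real.rpow_add h3N, ← Real.mul_rpow (by norm_num) hN0.le]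
    congr 1
    ring
  calc _ = 2002 * ((4 + Real.log (3 * N)) *
      ((tau m : ℝ) ^ 3 * Real.sqrt ((Int.gcd ξ m : ℝ) * m))) := by ring
    _ ≤ 2002 * (((4 + 2 / ε) * (3 * (N : ℝ)) ^ (ε / 2)) * ((C1 ^ 3 * (3 * (N : ℝ)) ^ (ε / 2)) *
        (Real.sqrt (Int.gcd ξ m : ℝ) * (3 * (N : ℝ)) ^ (1 / 2 : ℝ)))) :=
        mul_le_mul_of_nonneg_left hprod (by norm_num)
    _ = 2002 * ((4 + 2 / ε) * C1 ^ 3) * ((3 * (N : ℝ)) ^ (ε / 2) * (3 * (N : ℝ)) ^ (ε / 2) *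
        (3 * (N : ℝ)) ^ (1 / 2 : ℝ)) * Real.sqrt (Int.gcd ξ m : ℝ) := by ring
    _ = _ := by rw [hpow]; ring

end Pool.Agent.H35.WT
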