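import Pool.Agent.H35.WT.Defs
import Pool.Agent.H35.KL.Sp

/-!
# WT-Ts: the first Cauchy step (amplification)

As `split2` (Pool/Agent/H35/KL/Sp.lean; the underlying facts about `kf` are in the library, see the proof
there).  `T_n = ∑_m α_m ∑_l F_l(mn) kf n (lη) m`; for `p ∤ n`: `kf n (lη) m = kf n (lηp) (pm)`; average
over the `p ∈ PP P`, `p ∤ n` (at least half of `c = #PP P`), group by `b ≡ p m mod n`, Cauchy over `b`
(`n ≤ 3N`): `∑_n ‖T_n‖² ≤ 12N/c² ∑_n ∑_{p₁,p₂ ∤ n} ∑_{p₁m₁ ≡ p₂m₂ (n)} α_{m₁} ᾱ_{m₂}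
∑_{l₁,l₂} F_{l₁}(m₁n) F̄_{l₂}(m₂n) kf n (η(l₁p₁ - l₂p₂)) (p₁m₁)`.
`p₁ = p₂ = p`: `m₁ = m₂ = m` (`sc2_uniq`/`uniq` in KL), and the sum is over `n` with `(n, pm) = 1`: for
`l₁ = l₂` at most `c n2(α) · 2N · #L`, for `l₁ ≠ l₂` at most `c n2(α) #L² D0` by `hD`.
`p₁ ≠ p₂`: `hα` gives `p₁ ∤ m₂`, `p₂ ∤ m₁` when the term is not zero, and `p₁m₁ - p₂m₂ = r n` with
`0 < |r| ≤ 8P`: this is `UL` (as `third` in KL/Sp.lean).
-/

set_option autoImplicit false

namespace Pool.Agent.H35.WT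

open Finset
open Pool.Agent.H80.KF
open Pool.Agent.H35.KL (n2 r2)

/-- Cauchy over residue classes, for a general family -/
private theorem ts_cauchy {X : Type} (n : ℕ) (hn : 1 ≤ n) (P : Finset X) (r : X → ℕ) (c : X → ℂ) :
    ‖∑ x ∈ P, c x‖ ^ 2 ≤
      n * (∑ x ∈ P, ∑ y ∈ P.filter (fun y => r x ≡ r y [MOD n]), c x * (starRingEnd ℂ) (c y)).re := by
  classical
  set G : ℕ → ℂ := fun u => ∑ x ∈ P.filter (fun x => r x % n = u), c x with hG
  have h1 : ∑ x ∈ P, c x = ∑ u ∈ range n, G u := by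
    refine (Finset.sum_fiberwise_of_maps_to (fun x _ => ?_) c).symm
    exact mem_range.2 (Nat.mod_lt _ (by omega))
  have h2 : ‖∑ u ∈ range n, G u‖ ^ 2 ≤ n * ∑ u ∈ range n, ‖G u‖ ^ 2 := by
    calc ‖∑ u ∈ range n, G u‖ ^ 2 ≤ (∑ u ∈ range n, ‖G u‖) ^ 2 := by
          gcongr
          exact norm_sum_le _ _
      _ ≤ ((range n).card : ℝ) * ∑ u ∈ range n, ‖G u‖ ^ 2 := sq_sum_le_card_mul_sum_sq
      _ = n * ∑ u ∈ range n, ‖G u‖ ^ 2 := by rw [card_range]
  have h3 : ∑ u ∈ range n, ‖G u‖ ^ 2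
      = (∑ x ∈ P, ∑ y ∈ P.filter (fun y => r x ≡ r y [MOD n]), c x * (starRingEnd ℂ) (c y)).re := by
    have h4 : ∀ u, ‖G u‖ ^ 2 = (∑ x ∈ P.filter (fun x => r x % n = u),
        ∑ y ∈ P.filter (fun y => r x ≡ r y [MOD n]), c x * (starRingEnd ℂ) (c y)).re := by
      intro u
      have h5 : ((‖G u‖ ^ 2 : ℝ) : ℂ) = G u * (starRingEnd ℂ) (G u) := by
        rw [Complex.mul_conj, Complex.normSq_eq_norm_sq]
      have h6 : G u * (starRingEnd ℂ) (G u) = ∑ x ∈ P.filter (fun x => r x % n = u),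
          ∑ y ∈ P.filter (fun y => r x ≡ r y [MOD n]), c x * (starRingEnd ℂ) (c y) := by
        rw [hG]
        simp only
        rw [map_sum, Finset.sum_mul]
        refine Finset.sum_congr rfl fun x hx => ?_
        rw [Finset.mul_sum]
        refine Finset.sum_congr ?_ fun y _ => rfl
        have hx' := (mem_filter.1 hx).2
        ext y
        simp only [mem_filter]
        refine and_congr_right fun _ => ?_
        rw [← hx']
        exact ⟨fun h => h.symm, fun h => h.symm⟩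
      have h7 := h5.trans h6
      rw [← h7, Complex.ofReal_re]
    rw [Finset.sum_congr rfl fun u _ => h4 u, ← Complex.re_sum]
    congr 1
    exact Finset.sum_fiberwise_of_maps_to (fun x _ => mem_range.2 (Nat.mod_lt _ (by omega))) _
  rw [h1, ← h3]
  exact h2

private theorem ts_mem {N m : ℕ} : m ∈ II N ↔ N < m ∧ m ≤ 2 * N + 1 := by
  unfold II; exact mem_Ioc

private theorem ts_card (N : ℕ) : (II N).card = N + 1 := by
  unfold II; rw [Nat.card_Ioc]; omega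

private theorem ts_uniq {N n a b : ℕ} (hn : n ∈ II N) (ha : a ∈ II N) (hb : b ∈ II N)
    (h : a ≡ b [MOD n]) : a = b := by
  rw [ts_mem] at hn ha hb
  have h1 := (Nat.modEq_iff_dvd.mp h)
  have h2 : (b : ℤ) - a = 0 := by
    apply Int.eq_zero_of_abs_lt_dvd h1
    rw [abs_lt]
    constructor <;> omega
  omega


/-- amplification with frequencies -/
private theorem ts_amp (n : ℕ) (hn : 1 ≤ n) (η : ℤ) (M Ps : Finset ℕ) (L : Finset ℤ)
    (hM : ∀ m ∈ M, Nat.Coprime m n) (hP : ∀ p ∈ Ps, Nat.Coprime p n) (f : ℤ → ℕ → ℂ) :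
    (Ps.card : ℝ) ^ 2 * ‖∑ m ∈ M, ∑ l ∈ L, f l m * kf n (l * η) m‖ ^ 2 ≤
      n * (∑ p1 ∈ Ps, ∑ p2 ∈ Ps, ∑ m1 ∈ M, ∑ m2 ∈ M.filter (fun m2 => p1 * m1 ≡ p2 * m2 [MOD n]),
        ∑ l ∈ L ×ˢ L, f l.1 m1 * (starRingEnd ℂ) (f l.2 m2) *
          kf n (η * (l.1 * p1 - l.2 * p2)) (p1 * m1)).re := by
  classical
  have key := ts_cauchy n hn (Ps ×ˢ M) (fun x => x.1 * x.2)
    (fun x => ∑ l ∈ L, f l x.2 * kf n (l * η * (x.1 : ℤ)) (x.1 * x.2))
  have h1 : ∑ x ∈ Ps ×ˢ M, ∑ l ∈ L, f l x.2 * kf n (l * η * (x.1 : ℤ)) (x.1 * x.2)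
      = (Ps.card : ℂ) * ∑ m ∈ M, ∑ l ∈ L, f l m * kf n (l * η) m := by
    rw [Finset.sum_product]
    have : ∀ p ∈ Ps, ∑ m ∈ M, ∑ l ∈ L, f l m * kf n (l * η * (p : ℤ)) (p * m) =
        ∑ m ∈ M, ∑ l ∈ L, f l m * kf n (l * η) m := by
      intro p hp
      refine Finset.sum_congr rfl fun m hm => Finset.sum_congr rfl fun l _ => ?_
      rw [kf_mul_left hn (l * η) (hP p hp) (hM m hm)]
    rw [Finset.sum_congr rfl this, Finset.sum_const, nsmul_eq_mul]
  rw [h1] at key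
  have h2 : ‖(Ps.card : ℂ) * ∑ m ∈ M, ∑ l ∈ L, f l m * kf n (l * η) m‖ ^ 2
      = (Ps.card : ℝ) ^ 2 * ‖∑ m ∈ M, ∑ l ∈ L, f l m * kf n (l * η) m‖ ^ 2 := by
    rw [norm_mul, mul_pow, Complex.norm_natCast]
  rw [h2] at key
  refine le_trans key (le_of_eq ?_)
  congr 2
  rw [Finset.sum_product]
  refine Finset.sum_congr rfl fun p1 _ => ?_
  rw [Finset.sum_comm]
  refine Finset.sum_congr rfl fun m1 _ => ?_
  simp only
  rw [Finset.sum_filter, Finset.sum_product]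
  refine Finset.sum_congr rfl fun p2 _ => ?_
  rw [Finset.sum_filter]
  refine Finset.sum_congr rfl fun m2 _ => ?_
  simp only
  split_ifs with h
  · rw [map_sum, Finset.sum_mul_sum, Finset.sum_product]
    refine Finset.sum_congr rfl fun l1 _ => Finset.sum_congr rfl fun l2 _ => ?_
    have e1 : (starRingEnd ℂ) (f l2 m2 * kf n (l2 * η * (p2 : ℤ)) (p2 * m2))
        = (starRingEnd ℂ) (f l2 m2) * kf n (-(l2 * η * (p2 : ℤ))) (p1 * m1) := by
      rw [map_mul, ← kf_neg]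
      congr 1
      exact kf_congr hn (by simp) h.symm
    rw [e1]
    have e2 : η * (l1 * (p1 : ℤ) - l2 * p2) = l1 * η * (p1 : ℤ) + -(l2 * η * (p2 : ℤ)) := by ring
    simp only
    rw [e2, kf_add]
    ring
  · rfl

/-- the condition for a term of the amplified sum -/
private def ts_CC (n p1 p2 m1 m2 : ℕ) : Prop :=
  ¬ p1 ∣ n ∧ ¬ p2 ∣ n ∧ Nat.Coprime m1 n ∧ Nat.Coprime m2 n ∧ p1 * m1 ≡ p2 * m2 [MOD n]

/-- the term -/
private noncomputable def ts_tt (η : ℤ) (α : ℕ → ℂ) (F : ℤ → ℝ → ℂ) (L : Finset ℤ)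
    (n p1 p2 m1 m2 : ℕ) : ℂ :=
  ∑ l ∈ L ×ˢ L, (α m1 * F l.1 ((m1 : ℝ) * n)) * (starRingEnd ℂ) (α m2 * F l.2 ((m2 : ℝ) * n)) *
    kf n (η * (l.1 * p1 - l.2 * p2)) (p1 * m1)

private theorem ts_tt_zero1 (η : ℤ) (α : ℕ → ℂ) (F : ℤ → ℝ → ℂ) (L : Finset ℤ)
    (n p1 p2 m1 m2 : ℕ) (h : α m1 = 0) : ts_tt η α F L n p1 p2 m1 m2 = 0 := by
  unfold ts_tt
  refine sum_eq_zero fun l _ => ?_
  rw [h]
  ring

private theorem ts_tt_zero2 (η : ℤ) (α : ℕ → ℂ) (F : ℤ → ℝ → ℂ) (L : Finset ℤ)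
    (n p1 p2 m1 m2 : ℕ) (h : α m2 = 0) : ts_tt η α F L n p1 p2 m1 m2 = 0 := by
  unfold ts_tt
  refine sum_eq_zero fun l _ => ?_
  rw [h, zero_mul, map_zero]
  ring

open Classical in
/-- the third part is `UL` -/
private theorem ts_third (N P : ℕ) (hN : 1 ≤ N) (η : ℤ) (L : Finset ℤ) (α : ℕ → ℂ)
    (F : ℤ → ℝ → ℂ) :
    ∑ n ∈ II N, ∑ p1 ∈ PP P, ∑ p2 ∈ PP P, ∑ m1 ∈ II N, ∑ m2 ∈ II N,
      (if ts_CC n p1 p2 m1 m2 ∧ p1 ≠ p2 ∧ ¬ (p1 ∣ m2 ∨ p2 ∣ m1) then ts_tt η α F L n p1 p2 m1 m2 else 0) =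
    UL F η N P L α := by
  have key : ∀ m1 ∈ II N, ∀ m2 ∈ II N, ∀ p1 ∈ PP P, ∀ p2 ∈ PP P,
      ∑ n ∈ II N, (if ts_CC n p1 p2 m1 m2 ∧ p1 ≠ p2 ∧ ¬ (p1 ∣ m2 ∨ p2 ∣ m1) then
        ts_tt η α F L n p1 p2 m1 m2 else 0) =
      ∑ r ∈ Icc (-(8 * P : ℤ)) (8 * P),
        α m1 * (starRingEnd ℂ) (α m2) * ∑ l ∈ L ×ˢ L, gL F η N ((p1, p2, r), l) m1 m2 := by
    intro m1 hm1 m2 hm2 p1 hp1 p2 hp2
    have hp1' := (mem_filter.mp hp1)
    have hp2' := (mem_filter.mp hp2)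
    have hP1 := mem_Ioc.mp hp1'.1
    have hP2 := mem_Ioc.mp hp2'.1
    rw [ts_mem] at hm1 hm2
    have hG : ∀ r ∈ Icc (-(8 * P : ℤ)) (8 * P),
        α m1 * (starRingEnd ℂ) (α m2) * ∑ l ∈ L ×ˢ L, gL F η N ((p1, p2, r), l) m1 m2 =
        if Adm N p1 p2 r m1 m2 then ts_tt η α F L (nn p1 p2 r m1 m2) p1 p2 m1 m2 else 0 := by
      intro r _
      split_ifs with h
      · rw [ts_tt, mul_sum]
        refine sum_congr rfl fun l _ => ?_
        simp only [gL, gG, xi]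
        rw [if_pos h, map_mul]
        ring
      · rw [sum_eq_zero, mul_zero]
        intro l _
        simp only [gL, gG]
        rw [if_neg h]
    rw [sum_congr rfl hG, ← sum_filter, ← sum_filter]
    symm
    refine sum_nbij' (fun r => nn p1 p2 r m1 m2)
      (fun n => ((p1 : ℤ) * m1 - (p2 : ℤ) * m2) / n) ?_ ?_ ?_ ?_ ?_
    · intro r hr
      rw [mem_filter] at hr ⊢
      obtain ⟨_, h1, h2, h3, h4, h5, h6, h7⟩ := hr
      refine ⟨h6, ⟨?_, ?_, ?_, ?_, ?_⟩, h1, ?_⟩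
      · intro hd
        have := Nat.Coprime.coprime_dvd_left hd h7
        have h8 := Nat.Coprime.eq_one_of_dvd this (dvd_mul_right p1 m1)
        exact hp1'.2.one_lt.ne' h8
      · intro hd
        have h9 : (p2 : ℤ) ∣ (p1 : ℤ) * m1 := by
          have : (p1 : ℤ) * m1 = r * (nn p1 p2 r m1 m2 : ℤ) + p2 * m2 := by rw [h5]; ring
          rw [this]
          exact dvd_add (Dvd.dvd.mul_left (by exact_mod_cast hd) _) (dvd_mul_right _ _)
        have h10 : p2 ∣ p1 * m1 := by exact_mod_cast h9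
        have h11 := Nat.Coprime.coprime_dvd_left hd h7
        exact hp2'.2.one_lt.ne' (Nat.Coprime.eq_one_of_dvd h11 h10)
      · exact (Nat.Coprime.coprime_dvd_right (dvd_mul_left m1 p1) h7).symm
      · have h8 : Nat.Coprime (nn p1 p2 r m1 m2) (p2 * m2) := by
          have hg : ((Nat.gcd (nn p1 p2 r m1 m2) (p2 * m2) : ℕ) : ℤ) ∣ (p1 : ℤ) * m1 := by
            have h12 : (p1 : ℤ) * m1 = r * (nn p1 p2 r m1 m2 : ℤ) + p2 * m2 := by rw [h5]; ring
            rw [h12]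
            refine dvd_add (Dvd.dvd.mul_left ?_ _) ?_
            · exact_mod_cast Nat.gcd_dvd_left _ _
            · exact_mod_cast Nat.gcd_dvd_right (nn p1 p2 r m1 m2) (p2 * m2)
          have hg' : Nat.gcd (nn p1 p2 r m1 m2) (p2 * m2) ∣ p1 * m1 := by exact_mod_cast hg
          have h13 := Nat.dvd_gcd (Nat.gcd_dvd_left (nn p1 p2 r m1 m2) (p2 * m2)) hg'
          rw [Nat.Coprime] at h7
          rw [h7] at h13
          exact Nat.dvd_one.mp h13
        exact (Nat.Coprime.coprime_dvd_right (dvd_mul_left m2 p2) h8).symm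
      · apply Nat.ModEq.symm
        rw [Nat.modEq_iff_dvd]
        push_cast
        rw [← h5]
        exact dvd_mul_left _ _
      · rintro (h | h)
        · exact h2 h
        · exact h3 h
    · intro n hn
      rw [mem_filter] at hn ⊢
      obtain ⟨hn1, ⟨h1, h2, h3, h4, h5⟩, h6, h7⟩ := hn
      rw [ts_mem] at hn1
      have hd := Nat.modEq_iff_dvd.mp h5.symm
      push_cast at hd
      have hn0 : (n : ℤ) ≠ 0 := by omega
      have hr := Int.ediv_mul_cancel hd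
      set r := ((p1 : ℤ) * m1 - (p2 : ℤ) * m2) / n with hrdef
      have hne : (p1 : ℤ) * m1 - (p2 : ℤ) * m2 ≠ 0 := by
        intro h0
        have h8 : p1 * m1 = p2 * m2 := by
          have : (p1 : ℤ) * m1 = p2 * m2 := by linarith
          exact_mod_cast this
        have h9 : p1 ∣ p2 * m2 := h8 ▸ dvd_mul_right p1 m1
        rcases (Nat.Prime.dvd_mul hp1'.2).mp h9 with h10 | h10
        · exact h6 ((Nat.prime_dvd_prime_iff_eq hp1'.2 hp2'.2).mp h10)
        · exact h7 (Or.inl h10)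
      have hr0 : r ≠ 0 := by
        intro h0
        rw [h0, zero_mul] at hr
        exact hne hr.symm
      have hnn : nn p1 p2 r m1 m2 = n := by
        unfold nn
        rw [← hr, Int.mul_ediv_cancel_left _ hr0, Int.toNat_natCast]
      refine ⟨?_, h6, fun h => h7 (Or.inl h), fun h => h7 (Or.inr h), hr0, ?_, ?_, ?_⟩
      · rw [mem_Icc]
        have e1 : (p1 : ℤ) * m1 ≤ 4 * P * (2 * N + 1) := by
          have a1 : (p1 : ℤ) ≤ 4 * P := by exact_mod_cast hP1.2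
          have a2 : (m1 : ℤ) ≤ 2 * N + 1 := by exact_mod_cast hm1.2
          exact mul_le_mul a1 a2 (by positivity) (by positivity)
        have e2 : (p2 : ℤ) * m2 ≤ 4 * P * (2 * N + 1) := by
          have a1 : (p2 : ℤ) ≤ 4 * P := by exact_mod_cast hP2.2
          have a2 : (m2 : ℤ) ≤ 2 * N + 1 := by exact_mod_cast hm2.2
          exact mul_le_mul a1 a2 (by positivity) (by positivity)
        have e3 : (0 : ℤ) ≤ (p1 : ℤ) * m1 := by positivity
        have e4 : (0 : ℤ) ≤ (p2 : ℤ) * m2 := by positivity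
        have hnN : (N : ℤ) + 1 ≤ n := by omega
        have hP0 : (0 : ℤ) ≤ P := by positivity
        have e5 : 4 * (P : ℤ) * (2 * N + 1) ≤ 8 * P * n := by nlinarith
        have hnpos : (0 : ℤ) < n := by omega
        constructor
        · by_contra hc
          push Not at hc
          have : r * n ≤ (-(8 * (P : ℤ)) - 1) * n :=
            mul_le_mul_of_nonneg_right (by omega) hnpos.le
          rw [hr] at this
          nlinarith
        · by_contra hc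
          push Not at hc
          have : (8 * (P : ℤ) + 1) * n ≤ r * n :=
            mul_le_mul_of_nonneg_right (by omega) hnpos.le
          rw [hr] at this
          nlinarith
      · rw [hnn]; exact hr
      · rw [hnn, ts_mem]; exact hn1
      · rw [hnn]
        apply Nat.Coprime.mul_right
        · exact ((Nat.Prime.coprime_iff_not_dvd hp1'.2).mpr h1).symm
        · exact h3.symm
    · intro r hr
      rw [mem_filter] at hr
      obtain ⟨_, h1, h2, h3, h4, h5, h6, h7⟩ := hr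
      rw [ts_mem] at h6
      rw [← h5]
      apply Int.mul_ediv_cancel
      have : 0 < nn p1 p2 r m1 m2 := by omega
      exact_mod_cast this.ne'
    · intro n hn
      rw [mem_filter] at hn
      obtain ⟨hn1, ⟨h1, h2, h3, h4, h5⟩, h6, h7⟩ := hn
      rw [ts_mem] at hn1
      have hd := Nat.modEq_iff_dvd.mp h5.symm
      push_cast at hd
      have hr := Int.ediv_mul_cancel hd
      have hne : (p1 : ℤ) * m1 - (p2 : ℤ) * m2 ≠ 0 := by
        intro h0
        have h8 : p1 * m1 = p2 * m2 := by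
          have : (p1 : ℤ) * m1 = p2 * m2 := by linarith
          exact_mod_cast this
        have h9 : p1 ∣ p2 * m2 := h8 ▸ dvd_mul_right p1 m1
        rcases (Nat.Prime.dvd_mul hp1'.2).mp h9 with h10 | h10
        · exact h6 ((Nat.prime_dvd_prime_iff_eq hp1'.2 hp2'.2).mp h10)
        · exact h7 (Or.inl h10)
      have hr0 : ((p1 : ℤ) * m1 - (p2 : ℤ) * m2) / n ≠ 0 := by
        intro h0
        rw [h0, zero_mul] at hr
        exact hne hr.symm
      simp only [nn]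
      conv_lhs => rw [show ((p1 : ℤ) * m1 - (p2 : ℤ) * m2) =
        ((p1 : ℤ) * m1 - (p2 : ℤ) * m2) / n * n from hr.symm]
      rw [Int.mul_ediv_cancel _ (by omega : (n : ℤ) ≠ 0), Int.mul_ediv_cancel_left _ hr0,
        Int.toNat_natCast]
    · intro r hr
      rfl
  calc _ = ∑ m1 ∈ II N, ∑ m2 ∈ II N, ∑ p1 ∈ PP P, ∑ p2 ∈ PP P, ∑ n ∈ II N,
      (if ts_CC n p1 p2 m1 m2 ∧ p1 ≠ p2 ∧ ¬ (p1 ∣ m2 ∨ p2 ∣ m1) then
        ts_tt η α F L n p1 p2 m1 m2 else 0) := by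
        rw [sum_comm]
        rw [sum_congr rfl fun p1 _ => sum_comm]
        rw [sum_congr rfl fun p1 _ => sum_congr rfl fun p2 _ => sum_comm]
        rw [sum_congr rfl fun p1 _ => sum_congr rfl fun p2 _ => sum_congr rfl fun m1 _ => sum_comm]
        rw [sum_congr rfl fun p1 _ => sum_comm]
        rw [sum_comm]
        refine sum_congr rfl fun m1 _ => ?_
        rw [sum_congr rfl fun p1 _ => sum_comm]
        rw [sum_comm]
    _ = UL F η N P L α := by
        unfold UL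
        refine sum_congr rfl fun m1 hm1 => sum_congr rfl fun m2 hm2 => ?_
        rw [SL, sum_product, TT, sum_product, mul_sum]
        refine sum_congr rfl fun p1 hp1 => ?_
        rw [sum_product, mul_sum]
        refine sum_congr rfl fun p2 hp2 => ?_
        rw [key m1 hm1 m2 hm2 p1 hp1 p2 hp2, mul_sum]


/-- the bound for one `p` and one `m` -/
private theorem ts_one (N : ℕ) (hN : 1 ≤ N) (η : ℤ) (L : Finset ℤ)
    (α : ℕ → ℂ) (F : ℤ → ℝ → ℂ) (hF : ∀ l ∈ L, ∀ y, ‖F l y‖ ≤ 1) (D0 : ℝ) (hD0 : 0 ≤ D0)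
    (p m : ℕ)
    (hD : α m ≠ 0 → ∀ l1 ∈ L, ∀ l2 ∈ L, l1 ≠ l2 →
      ‖∑ n ∈ (II N).filter (fun n => Nat.Coprime n (p * m)),
        F l1 ((m : ℝ) * n) * (starRingEnd ℂ) (F l2 ((m : ℝ) * n)) *
          kf n (η * (l1 * p - l2 * p)) (p * m)‖ ≤ D0) :
    ‖∑ n ∈ (II N).filter (fun n => Nat.Coprime n (p * m)), ts_tt η α F L n p p m m‖ ≤
      ‖α m‖ ^ 2 * (2 * N * L.card + (L.card : ℝ) ^ 2 * D0) := by
  classical
  have hN1 : (1 : ℝ) ≤ N := by exact_mod_cast hN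
  have hII : ((II N).card : ℝ) ≤ 2 * N := by
    rw [ts_card]; push_cast; linarith
  by_cases ha : α m = 0
  · rw [sum_eq_zero fun n _ => ts_tt_zero1 η α F L n p p m m ha, norm_zero]
    positivity
  have h1 : ∑ n ∈ (II N).filter (fun n => Nat.Coprime n (p * m)), ts_tt η α F L n p p m m =
      ∑ l ∈ L ×ˢ L, (α m * (starRingEnd ℂ) (α m)) *
        ∑ n ∈ (II N).filter (fun n => Nat.Coprime n (p * m)),
          F l.1 ((m : ℝ) * n) * (starRingEnd ℂ) (F l.2 ((m : ℝ) * n)) *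
          kf n (η * (l.1 * p - l.2 * p)) (p * m) := by
    unfold ts_tt
    rw [sum_comm]
    refine sum_congr rfl fun l _ => ?_
    rw [mul_sum]
    refine sum_congr rfl fun n _ => ?_
    rw [map_mul]
    ring
  have h2 : ∀ l ∈ L ×ˢ L, ‖∑ n ∈ (II N).filter (fun n => Nat.Coprime n (p * m)),
          F l.1 ((m : ℝ) * n) * (starRingEnd ℂ) (F l.2 ((m : ℝ) * n)) *
          kf n (η * (l.1 * p - l.2 * p)) (p * m)‖ ≤ (if l.1 = l.2 then 2 * (N : ℝ) else 0) + D0 := by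
    intro l hl
    obtain ⟨hl1, hl2⟩ := mem_product.1 hl
    split_ifs with h
    · have h3 : ‖∑ n ∈ (II N).filter (fun n => Nat.Coprime n (p * m)),
          F l.1 ((m : ℝ) * n) * (starRingEnd ℂ) (F l.2 ((m : ℝ) * n)) *
          kf n (η * (l.1 * p - l.2 * p)) (p * m)‖ ≤ 2 * N := by
        calc _ ≤ ∑ n ∈ (II N).filter (fun n => Nat.Coprime n (p * m)), (1 : ℝ) := by
              refine norm_sum_le_of_le _ fun n _ => ?_
              rw [norm_mul, norm_kf, mul_one, norm_mul, RCLike.norm_conj]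
              exact mul_le_one₀ (hF _ hl1 _) (norm_nonneg _) (hF _ hl2 _)
          _ = (((II N).filter (fun n => Nat.Coprime n (p * m))).card : ℝ) := by
              rw [sum_const, nsmul_eq_mul, mul_one]
          _ ≤ ((II N).card : ℝ) := by exact_mod_cast card_filter_le _ _
          _ ≤ 2 * N := hII
      linarith
    · rw [zero_add]
      exact hD ha l.1 hl1 l.2 hl2 h
  have h4 : ∑ l ∈ L ×ˢ L, ((if l.1 = l.2 then 2 * (N : ℝ) else 0) + D0) =
      2 * N * L.card + (L.card : ℝ) ^ 2 * D0 := by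
    rw [sum_add_distrib, sum_const, card_product, nsmul_eq_mul, sum_product]
    have h5 : ∀ l1 ∈ L, ∑ l2 ∈ L, (if l1 = l2 then 2 * (N : ℝ) else 0) = 2 * N := by
      intro l1 hl1
      rw [sum_ite_eq, if_pos hl1]
    rw [sum_congr rfl h5, sum_const, nsmul_eq_mul]
    push_cast
    ring
  rw [h1]
  calc _ ≤ ∑ l ∈ L ×ˢ L, ‖α m‖ ^ 2 * ((if l.1 = l.2 then 2 * (N : ℝ) else 0) + D0) := by
        refine norm_sum_le_of_le _ fun l hl => ?_
        rw [norm_mul, norm_mul, RCLike.norm_conj, ← sq]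
        exact mul_le_mul_of_nonneg_left (h2 l hl) (by positivity)
    _ = _ := by rw [← mul_sum, h4]

open Classical in
private theorem ts_first (N P : ℕ) (hN : 1 ≤ N) (η : ℤ) (L : Finset ℤ)
    (α : ℕ → ℂ) (F : ℤ → ℝ → ℂ) (hF : ∀ l ∈ L, ∀ y, ‖F l y‖ ≤ 1) (D0 : ℝ) (hD0 : 0 ≤ D0)
    (hD : ∀ m ∈ II N, α m ≠ 0 → ∀ p ∈ PP P, ∀ l1 ∈ L, ∀ l2 ∈ L, l1 ≠ l2 →
      ‖∑ n ∈ (II N).filter (fun n => Nat.Coprime n (p * m)),
        F l1 ((m : ℝ) * n) * (starRingEnd ℂ) (F l2 ((m : ℝ) * n)) *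
          kf n (η * (l1 * p - l2 * p)) (p * m)‖ ≤ D0) :
    ‖∑ n ∈ II N, ∑ p1 ∈ PP P, ∑ p2 ∈ PP P, ∑ m1 ∈ II N, ∑ m2 ∈ II N,
      (if ts_CC n p1 p2 m1 m2 ∧ p1 = p2 then ts_tt η α F L n p1 p2 m1 m2 else 0)‖ ≤
    (PP P).card * n2 (II N) α * (2 * N * L.card + (L.card : ℝ) ^ 2 * D0) := by
  have h1 : ∀ n ∈ II N, ∀ p ∈ PP P, ∀ m ∈ II N,
      ∑ m2 ∈ II N, (if ts_CC n p p m m2 then ts_tt η α F L n p p m m2 else 0) =
      if Nat.Coprime n (p * m) then ts_tt η α F L n p p m m else 0 := by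
    intro n hn p hp m hm
    have hpp := (mem_filter.mp hp).2
    rw [sum_eq_single m]
    · by_cases hc : Nat.Coprime n (p * m)
      · rw [if_pos hc, if_pos]
        refine ⟨?_, ?_, ?_, ?_, rfl⟩
        · exact (Nat.Prime.coprime_iff_not_dvd hpp).1
            (Nat.Coprime.coprime_dvd_right (dvd_mul_right p m) hc).symm
        · exact (Nat.Prime.coprime_iff_not_dvd hpp).1
            (Nat.Coprime.coprime_dvd_right (dvd_mul_right p m) hc).symm
        · exact (Nat.Coprime.coprime_dvd_right (dvd_mul_left m p) hc).symm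
        · exact (Nat.Coprime.coprime_dvd_right (dvd_mul_left m p) hc).symm
      · rw [if_neg hc, if_neg]
        rintro ⟨c1, -, c3, -, -⟩
        apply hc
        apply Nat.Coprime.mul_right
        · exact ((Nat.Prime.coprime_iff_not_dvd hpp).mpr c1).symm
        · exact c3.symm
    · intro m2 hm2 hne
      rw [if_neg]
      rintro ⟨c1, -, -, -, c5⟩
      have hco : Nat.Coprime p n := (Nat.Prime.coprime_iff_not_dvd hpp).mpr c1
      exact hne (ts_uniq hn hm hm2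
        (Nat.ModEq.cancel_left_of_coprime (by rw [Nat.gcd_comm]; exact hco) c5)).symm
    · intro h
      exact absurd hm h
  have h2 : ∑ n ∈ II N, ∑ p1 ∈ PP P, ∑ p2 ∈ PP P, ∑ m1 ∈ II N, ∑ m2 ∈ II N,
      (if ts_CC n p1 p2 m1 m2 ∧ p1 = p2 then ts_tt η α F L n p1 p2 m1 m2 else 0) =
      ∑ p ∈ PP P, ∑ m ∈ II N, ∑ n ∈ (II N).filter (fun n => Nat.Coprime n (p * m)),
        ts_tt η α F L n p p m m := by
    have h3 : ∀ n ∈ II N, ∀ p1 ∈ PP P, ∑ p2 ∈ PP P, ∑ m1 ∈ II N, ∑ m2 ∈ II N,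
        (if ts_CC n p1 p2 m1 m2 ∧ p1 = p2 then ts_tt η α F L n p1 p2 m1 m2 else 0) =
        ∑ m ∈ II N, if Nat.Coprime n (p1 * m) then ts_tt η α F L n p1 p1 m m else 0 := by
      intro n hn p1 hp1
      rw [sum_eq_single p1]
      · simp only [and_true]
        exact sum_congr rfl fun m hm => h1 n hn p1 hp1 m hm
      · intro p2 _ hne
        refine sum_eq_zero fun m1 _ => sum_eq_zero fun m2 _ => ?_
        rw [if_neg]
        intro h
        exact hne h.2.symm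
      · intro h
        exact absurd hp1 h
    rw [sum_congr rfl fun n hn => sum_congr rfl fun p1 hp1 => h3 n hn p1 hp1]
    rw [sum_comm]
    refine sum_congr rfl fun p _ => ?_
    rw [sum_comm]
    refine sum_congr rfl fun m _ => ?_
    rw [sum_filter]
  rw [h2]
  calc _ ≤ ∑ p ∈ PP P, ∑ m ∈ II N, ‖α m‖ ^ 2 * (2 * N * L.card + (L.card : ℝ) ^ 2 * D0) := by
        refine norm_sum_le_of_le _ fun p hp => norm_sum_le_of_le _ fun m hm => ?_
        exact ts_one N hN η L α F hF D0 hD0 p m (fun ha => hD m hm ha p hp)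
    _ = _ := by
        rw [sum_const, nsmul_eq_mul, ← sum_mul]
        unfold n2
        ring

theorem splitL (N P : ℕ) (hN : 1 ≤ N) (hP : 1 ≤ P) (hPN : P ≤ N) (η : ℤ) (L : Finset ℤ)
    (α : ℕ → ℂ) (F : ℤ → ℝ → ℂ) (hF : ∀ l ∈ L, ∀ y, ‖F l y‖ ≤ 1) (h0 : 0 < (PP P).card)
    (hα : ∀ m ∈ II N, α m ≠ 0 → ∀ p ∈ PP P, ¬ p ∣ m)
    (hPP : ∀ n ∈ II N, (PP P).card ≤ 2 * ((PP P).filter (fun p => ¬ p ∣ n)).card)
    (D0 : ℝ) (hD0 : 0 ≤ D0)
    (hD : ∀ m ∈ II N, α m ≠ 0 → ∀ p ∈ PP P, ∀ l1 ∈ L, ∀ l2 ∈ L, l1 ≠ l2 →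
      ‖∑ n ∈ (II N).filter (fun n => Nat.Coprime n (p * m)),
        F l1 ((m : ℝ) * n) * (starRingEnd ℂ) (F l2 ((m : ℝ) * n)) *
          kf n (η * (l1 * p - l2 * p)) (p * m)‖ ≤ D0) :
    ∑ n ∈ II N, ‖∑ m ∈ (II N).filter (fun m => Nat.Coprime m n),
        α m * ∑ l ∈ L, F l ((m : ℝ) * n) * kf n (l * η) m‖ ^ 2 ≤
      12 * N / ((PP P).card : ℝ) ^ 2 *
        ((PP P).card * n2 (II N) α * (2 * N * L.card + (L.card : ℝ) ^ 2 * D0) +
          ‖UL F η N P L α‖) := by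
  classical
  have hN1 : (1 : ℝ) ≤ N := by exact_mod_cast hN
  have hc : (0 : ℝ) < (PP P).card := by exact_mod_cast h0
  set A : ℕ → ℂ := fun n => ∑ p1 ∈ PP P, ∑ p2 ∈ PP P, ∑ m1 ∈ II N, ∑ m2 ∈ II N,
    (if ts_CC n p1 p2 m1 m2 then ts_tt η α F L n p1 p2 m1 m2 else 0) with hA
  have h1 : ∀ n ∈ II N, ‖∑ m ∈ (II N).filter (fun m => Nat.Coprime m n),
        α m * ∑ l ∈ L, F l ((m : ℝ) * n) * kf n (l * η) m‖ ^ 2 ≤ 12 * N / ((PP P).card : ℝ) ^ 2 * (A n).re := by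
    intro n hn
    have hn' := ts_mem.mp hn
    have hn1 : 1 ≤ n := by omega
    have h2 := ts_amp n hn1 η ((II N).filter (fun m => Nat.Coprime m n))
      ((PP P).filter (fun p => ¬ p ∣ n)) L (fun m hm => (mem_filter.mp hm).2)
      (fun p hp => (Nat.Prime.coprime_iff_not_dvd (mem_filter.mp (mem_filter.mp hp).1).2).mpr
        (mem_filter.mp hp).2) (fun l m => α m * F l ((m : ℝ) * n))
    have h2' : ∑ m ∈ (II N).filter (fun m => Nat.Coprime m n), ∑ l ∈ L,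
        (fun (l : ℤ) (m : ℕ) => α m * F l ((m : ℝ) * n)) l m * kf n (l * η) m =
        ∑ m ∈ (II N).filter (fun m => Nat.Coprime m n),
          α m * ∑ l ∈ L, F l ((m : ℝ) * n) * kf n (l * η) m := by
      refine sum_congr rfl fun m _ => ?_
      rw [mul_sum]
      refine sum_congr rfl fun l _ => ?_
      simp only
      ring
    rw [h2'] at h2
    have h3 : (∑ p1 ∈ (PP P).filter (fun p => ¬ p ∣ n), ∑ p2 ∈ (PP P).filter (fun p => ¬ p ∣ n),
        ∑ m1 ∈ (II N).filter (fun m => Nat.Coprime m n),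
        ∑ m2 ∈ ((II N).filter (fun m => Nat.Coprime m n)).filter
          (fun m2 => p1 * m1 ≡ p2 * m2 [MOD n]),
        ∑ l ∈ L ×ˢ L, (fun (l : ℤ) (m : ℕ) => α m * F l ((m : ℝ) * n)) l.1 m1 *
          (starRingEnd ℂ) ((fun (l : ℤ) (m : ℕ) => α m * F l ((m : ℝ) * n)) l.2 m2) *
          kf n (η * (l.1 * p1 - l.2 * p2)) (p1 * m1)) = A n := by
      rw [hA]
      simp only
      rw [sum_filter]
      refine sum_congr rfl fun p1 _ => ?_
      by_cases e1 : p1 ∣ n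
      · rw [if_neg (not_not.mpr e1)]
        symm
        refine sum_eq_zero fun p2 _ => sum_eq_zero fun m1 _ => sum_eq_zero fun m2 _ => ?_
        rw [if_neg]
        intro h
        exact h.1 e1
      · rw [if_pos e1, sum_filter]
        refine sum_congr rfl fun p2 _ => ?_
        by_cases e2 : p2 ∣ n
        · rw [if_neg (not_not.mpr e2)]
          symm
          refine sum_eq_zero fun m1 _ => sum_eq_zero fun m2 _ => ?_
          rw [if_neg]
          intro h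
          exact h.2.1 e2
        · rw [if_pos e2, sum_filter]
          refine sum_congr rfl fun m1 _ => ?_
          by_cases e3 : Nat.Coprime m1 n
          · rw [if_pos e3, filter_filter, sum_filter]
            refine sum_congr rfl fun m2 _ => ?_
            by_cases e4 : Nat.Coprime m2 n ∧ p1 * m1 ≡ p2 * m2 [MOD n]
            · rw [if_pos e4, if_pos ⟨e1, e2, e3, e4.1, e4.2⟩, ts_tt]
            · rw [if_neg e4, if_neg]
              intro h
              exact e4 ⟨h.2.2.2.1, h.2.2.2.2⟩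
          · rw [if_neg e3]
            symm
            refine sum_eq_zero fun m2 _ => ?_
            rw [if_neg]
            intro h
            exact e3 h.2.2.1
    rw [h3] at h2
    set T := ‖∑ m ∈ (II N).filter (fun m => Nat.Coprime m n),
        α m * ∑ l ∈ L, F l ((m : ℝ) * n) * kf n (l * η) m‖ with hT
    have hT0 : 0 ≤ T := norm_nonneg _
    have h4 : ((PP P).card : ℝ) ≤ 2 * (((PP P).filter (fun p => ¬ p ∣ n)).card : ℝ) := by
      exact_mod_cast hPP n hn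
    have h5 : ((PP P).card : ℝ) ^ 2 * T ^ 2 ≤
        4 * ((((PP P).filter (fun p => ¬ p ∣ n)).card : ℝ) ^ 2 * T ^ 2) := by
      have : ((PP P).card : ℝ) ^ 2 ≤
          (2 * (((PP P).filter (fun p => ¬ p ∣ n)).card : ℝ)) ^ 2 :=
        pow_le_pow_left₀ hc.le h4 2
      nlinarith [sq_nonneg T]
    have hn0 : (0 : ℝ) < n := by exact_mod_cast hn1
    have h6 : 0 ≤ (A n).re := by
      have h7 : 0 ≤ (n : ℝ) * (A n).re := le_trans (by positivity) h2
      exact nonneg_of_mul_nonneg_right h7 hn0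
    have h7 : (n : ℝ) * (A n).re ≤ 3 * N * (A n).re := by
      apply mul_le_mul_of_nonneg_right _ h6
      have : (n : ℝ) ≤ 2 * N + 1 := by exact_mod_cast hn'.2
      linarith
    rw [div_mul_eq_mul_div, le_div_iff₀ (by positivity)]
    calc T ^ 2 * ((PP P).card : ℝ) ^ 2 = ((PP P).card : ℝ) ^ 2 * T ^ 2 := by ring
      _ ≤ 4 * ((((PP P).filter (fun p => ¬ p ∣ n)).card : ℝ) ^ 2 * T ^ 2) := h5
      _ ≤ 4 * (n * (A n).re) := by linarith
      _ ≤ 4 * (3 * N * (A n).re) := by linarith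
      _ = 12 * N * (A n).re := by ring
  have hA2 := Pool.Agent.H35.KL.n2_nonneg (II N) α
  have h2 : (∑ n ∈ II N, (A n).re) ≤
      (PP P).card * n2 (II N) α * (2 * N * L.card + (L.card : ℝ) ^ 2 * D0) +
      ‖UL F η N P L α‖ := by
    rw [← Complex.re_sum]
    have h3 : ∑ n ∈ II N, A n =
        (∑ n ∈ II N, ∑ p1 ∈ PP P, ∑ p2 ∈ PP P, ∑ m1 ∈ II N, ∑ m2 ∈ II N,
          (if ts_CC n p1 p2 m1 m2 ∧ p1 = p2 then ts_tt η α F L n p1 p2 m1 m2 else 0)) +
        (∑ n ∈ II N, ∑ p1 ∈ PP P, ∑ p2 ∈ PP P, ∑ m1 ∈ II N, ∑ m2 ∈ II N,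
          (if ts_CC n p1 p2 m1 m2 ∧ p1 ≠ p2 ∧ (p1 ∣ m2 ∨ p2 ∣ m1) then
            ts_tt η α F L n p1 p2 m1 m2 else 0)) +
        (∑ n ∈ II N, ∑ p1 ∈ PP P, ∑ p2 ∈ PP P, ∑ m1 ∈ II N, ∑ m2 ∈ II N,
          (if ts_CC n p1 p2 m1 m2 ∧ p1 ≠ p2 ∧ ¬ (p1 ∣ m2 ∨ p2 ∣ m1) then
            ts_tt η α F L n p1 p2 m1 m2 else 0)) := by
      rw [hA]
      simp only [← sum_add_distrib]
      refine sum_congr rfl fun n _ => sum_congr rfl fun p1 _ => sum_congr rfl fun p2 _ =>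
        sum_congr rfl fun m1 _ => sum_congr rfl fun m2 _ => ?_
      by_cases e1 : ts_CC n p1 p2 m1 m2
      · by_cases e2 : p1 = p2
        · simp [e1, e2]
        · by_cases e3 : p1 ∣ m2 ∨ p2 ∣ m1
          · simp [e1, e2, e3]
          · simp [e1, e2, e3]
      · simp [e1]
    have hz : (∑ n ∈ II N, ∑ p1 ∈ PP P, ∑ p2 ∈ PP P, ∑ m1 ∈ II N, ∑ m2 ∈ II N,
          (if ts_CC n p1 p2 m1 m2 ∧ p1 ≠ p2 ∧ (p1 ∣ m2 ∨ p2 ∣ m1) then
            ts_tt η α F L n p1 p2 m1 m2 else 0)) = 0 := by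
      refine sum_eq_zero fun n _ => sum_eq_zero fun p1 hp1 => sum_eq_zero fun p2 hp2 =>
        sum_eq_zero fun m1 hm1 => sum_eq_zero fun m2 hm2 => ?_
      split_ifs with h
      · rcases h.2.2 with h5 | h5
        · refine ts_tt_zero2 η α F L n p1 p2 m1 m2 ?_
          by_contra ha
          exact hα m2 hm2 ha p1 hp1 h5
        · refine ts_tt_zero1 η α F L n p1 p2 m1 m2 ?_
          by_contra ha
          exact hα m1 hm1 ha p2 hp2 h5
      · rfl
    rw [h3, hz, add_zero, ts_third N P hN η L α F]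
    refine (Complex.re_le_norm _).trans ?_
    refine (norm_add_le _ _).trans ?_
    exact add_le_add (ts_first N P hN η L α F hF D0 hD0 hD) le_rfl
  calc _ ≤ ∑ n ∈ II N, 12 * N / ((PP P).card : ℝ) ^ 2 * (A n).re := sum_le_sum h1
    _ = 12 * N / ((PP P).card : ℝ) ^ 2 * ∑ n ∈ II N, (A n).re := by rw [mul_sum]
    _ ≤ _ := by
        apply mul_le_mul_of_nonneg_left h2
        positivity

end Pool.Agent.H35.WT
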