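import Pool.Agent.H35.WT.Defs

/-!
# WT-Tu: the second Cauchy step

As `cau2` (Pool/Agent/H35/KL/Ca.lean): Cauchy in `(m₁,m₂)`:
`‖UL‖² ≤ n2(α)² ∑_{m₁,m₂} ‖∑_{t ∈ SL} gL‖²`; open the square and split the pairs `(t,t')` by `Kt = 0`;
for `Kt = 0`: `‖gL gL'‖ ≤ 1` if both `Adm` hold, else `0`.
-/

set_option autoImplicit false

namespace Pool.Agent.H35.WT

open Finset
open Pool.Agent.H80.KF
open Pool.Agent.H35.KL (n2 r2)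

private theorem Tu_first (N P : ℕ) (η : ℤ) (L : Finset ℤ) (α : ℕ → ℂ) (F : ℤ → ℝ → ℂ) :
    ‖UL F η N P L α‖ ^ 2 ≤
      n2 (II N) α ^ 2 * ∑ m1 ∈ II N, ∑ m2 ∈ II N, ‖∑ t ∈ SL P L, gL F η N t m1 m2‖ ^ 2 := by
  have h1 : ‖UL F η N P L α‖ ≤ ∑ t ∈ II N ×ˢ II N,
      (‖α t.1‖ * ‖α t.2‖) * ‖∑ τ ∈ SL P L, gL F η N τ t.1 t.2‖ := by
    unfold UL
    rw [sum_product]
    refine (norm_sum_le _ _).trans (sum_le_sum fun m1 _ => ?_)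
    refine (norm_sum_le _ _).trans (sum_le_sum fun m2 _ => ?_)
    rw [norm_mul, norm_mul, RCLike.norm_conj]
  have h3 := Finset.sum_mul_sq_le_sq_mul_sq (II N ×ˢ II N) (fun t => ‖α t.1‖ * ‖α t.2‖)
    (fun t => ‖∑ τ ∈ SL P L, gL F η N τ t.1 t.2‖)
  have h4 : ∑ m1 ∈ II N, ∑ m2 ∈ II N, ‖∑ τ ∈ SL P L, gL F η N τ m1 m2‖ ^ 2 =
      ∑ t ∈ II N ×ˢ II N, ‖∑ τ ∈ SL P L, gL F η N τ t.1 t.2‖ ^ 2 := by
    rw [sum_product]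
  have h5 : n2 (II N) α ^ 2 = ∑ t ∈ II N ×ˢ II N, (‖α t.1‖ * ‖α t.2‖) ^ 2 := by
    unfold n2
    rw [sum_product, sq, sum_mul_sum]
    refine sum_congr rfl fun m1 _ => sum_congr rfl fun m2 _ => ?_
    rw [mul_pow]
  rw [h4, h5]
  exact (pow_le_pow_left₀ (norm_nonneg _) h1 2).trans h3

/-- the square of a sum is the double sum, split into the degenerate pairs and the rest -/
private theorem Tu_second (N P : ℕ) (η : ℤ) (L : Finset ℤ) (F : ℤ → ℝ → ℂ) :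
    ∑ m1 ∈ II N, ∑ m2 ∈ II N, ‖∑ τ ∈ SL P L, gL F η N τ m1 m2‖ ^ 2 ≤
      (∑ t ∈ (SL P L ×ˢ SL P L).filter (fun t => Kt η t.1 t.2 = 0), ∑ m1 ∈ II N, ∑ m2 ∈ II N,
        ‖gL F η N t.1 m1 m2‖ * ‖gL F η N t.2 m1 m2‖) + OL F η N P L := by
  have h1 : ∀ m1 m2 : ℕ, ((‖∑ τ ∈ SL P L, gL F η N τ m1 m2‖ ^ 2 : ℝ) : ℂ) =
      ∑ t ∈ SL P L ×ˢ SL P L, gL F η N t.1 m1 m2 * (starRingEnd ℂ) (gL F η N t.2 m1 m2) := by
    intro m1 m2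
    rw [sum_product]
    rw [← Complex.normSq_eq_norm_sq, Complex.normSq_eq_conj_mul_self, mul_comm, map_sum,
      sum_mul_sum]
  have h2 : ((∑ m1 ∈ II N, ∑ m2 ∈ II N, ‖∑ τ ∈ SL P L, gL F η N τ m1 m2‖ ^ 2 : ℝ) : ℂ) =
      ∑ t ∈ SL P L ×ˢ SL P L, ∑ m1 ∈ II N, ∑ m2 ∈ II N,
        gL F η N t.1 m1 m2 * (starRingEnd ℂ) (gL F η N t.2 m1 m2) := by
    push_cast
    have h3 : ∀ m1 m2 : ℕ, ((‖∑ τ ∈ SL P L, gL F η N τ m1 m2‖ : ℝ) : ℂ) ^ 2 =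
        ∑ t ∈ SL P L ×ˢ SL P L, gL F η N t.1 m1 m2 * (starRingEnd ℂ) (gL F η N t.2 m1 m2) := by
      intro m1 m2
      rw [← h1]
      push_cast
      rfl
    simp only [h3]
    calc ∑ m1 ∈ II N, ∑ m2 ∈ II N, ∑ t ∈ SL P L ×ˢ SL P L,
          gL F η N t.1 m1 m2 * (starRingEnd ℂ) (gL F η N t.2 m1 m2)
        = ∑ m1 ∈ II N, ∑ t ∈ SL P L ×ˢ SL P L, ∑ m2 ∈ II N,
          gL F η N t.1 m1 m2 * (starRingEnd ℂ) (gL F η N t.2 m1 m2) :=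
          sum_congr rfl fun m1 _ => sum_comm
      _ = _ := sum_comm
  have h5 : ∑ m1 ∈ II N, ∑ m2 ∈ II N, ‖∑ τ ∈ SL P L, gL F η N τ m1 m2‖ ^ 2 =
      ‖∑ t ∈ SL P L ×ˢ SL P L, ∑ m1 ∈ II N, ∑ m2 ∈ II N,
        gL F η N t.1 m1 m2 * (starRingEnd ℂ) (gL F η N t.2 m1 m2)‖ := by
    rw [← h2, Complex.norm_real, Real.norm_of_nonneg]
    exact sum_nonneg fun _ _ => sum_nonneg fun _ _ => by positivity
  rw [h5, ← sum_filter_add_sum_filter_not (SL P L ×ˢ SL P L) (fun t => Kt η t.1 t.2 = 0)]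
  refine (norm_add_le _ _).trans (add_le_add ?_ ?_)
  · refine (norm_sum_le _ _).trans (sum_le_sum fun t _ => ?_)
    refine (norm_sum_le _ _).trans (sum_le_sum fun m1 _ => ?_)
    refine (norm_sum_le _ _).trans (sum_le_sum fun m2 _ => ?_)
    rw [norm_mul, RCLike.norm_conj]
  · unfold OL
    refine (norm_sum_le _ _).trans (sum_le_sum fun t _ => ?_)
    exact norm_sum_le _ _

private theorem Tu_gL {N P : ℕ} {η : ℤ} {L : Finset ℤ} {F : ℤ → ℝ → ℂ}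
    (hF : ∀ l ∈ L, ∀ y, ‖F l y‖ ≤ 1) {t : (ℕ × ℕ × ℤ) × (ℤ × ℤ)} (ht : t ∈ SL P L)
    (m1 m2 : ℕ) : ‖gL F η N t m1 m2‖ ≤ 1 := by
  unfold SL at ht
  rw [mem_product, mem_product] at ht
  unfold gL gG
  split_ifs with h
  · rw [norm_mul, norm_mul, RCLike.norm_conj]
    have h1 := hF _ ht.2.1 ((m1 : ℝ) * (nn t.1.1 t.1.2.1 t.1.2.2 m1 m2 : ℝ))
    have h2 := hF _ ht.2.2 ((m2 : ℝ) * (nn t.1.1 t.1.2.1 t.1.2.2 m1 m2 : ℝ))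
    have h3 := (norm_kf (nn t.1.1 t.1.2.1 t.1.2.2 m1 m2) (xi η t) (t.1.1 * m1)).le
    calc _ ≤ (1 : ℝ) * 1 * 1 := by gcongr
      _ = 1 := by norm_num
  · simp

private theorem Tu_gL0 {N : ℕ} {η : ℤ} {F : ℤ → ℝ → ℂ} {t : (ℕ × ℕ × ℤ) × (ℤ × ℤ)} {m1 m2 : ℕ}
    (h : ¬ Adm N t.1.1 t.1.2.1 t.1.2.2 m1 m2) : gL F η N t m1 m2 = 0 := by
  unfold gL gG
  rw [if_neg h]

theorem cauL (N P : ℕ) (hN : 1 ≤ N) (η : ℤ) (L : Finset ℤ) (α : ℕ → ℂ) (F : ℤ → ℝ → ℂ)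
    (hF : ∀ l ∈ L, ∀ y, ‖F l y‖ ≤ 1) :
    ‖UL F η N P L α‖ ^ 2 ≤ n2 (II N) α ^ 2 * (DG η N P L + OL F η N P L) := by
  refine (Tu_first N P η L α F).trans ?_
  apply mul_le_mul_of_nonneg_left _ (by positivity)
  refine (Tu_second N P η L F).trans ?_
  apply add_le_add _ le_rfl
  unfold DG
  refine sum_le_sum fun t ht => sum_le_sum fun m1 _ => sum_le_sum fun m2 _ => ?_
  rw [mem_filter, mem_product] at ht
  split_ifs with h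
  · have h1 := Tu_gL (N := N) (η := η) hF ht.1.1 m1 m2
    have h2 := Tu_gL (N := N) (η := η) hF ht.1.2 m1 m2
    calc _ ≤ (1 : ℝ) * 1 := by gcongr
      _ = 1 := by norm_num
  · rw [not_and_or] at h
    rcases h with h | h
    · rw [Tu_gL0 h]; simp
    · rw [Tu_gL0 h]; simp

end Pool.Agent.H35.WT
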