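import Pool.Agent.H35.WT.To
import Pool.Agent.H35.WT.Tg
import Pool.Agent.H35.WT.Tu
import Pool.Agent.H35.WT.Ts
import Pool.Agent.H35.WT.Tn

/-!
# WT-Tk: the trilinear bound, `α` free of the primes of the amplifier

As `kb_of_oob` (Pool/Agent/H35/WL/Kn.lean).  Let `S = N^{1/10} A^{-2/5}`; `S/2 ≤ P ≤ 10^20 S`, `A ≤ P`;
`A ≤ N^{1/14}`, so `P ≥ N^{1/14}/2 ≥ N^{1/25}` (for `pp_half`) and `P ≤ N`, `c = #PP P ≥ P/log N`.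
`D0 = C N^{3/4+ε'} A` from `nsum` (`ξ = η (l₁ - l₂)`, `|ξ| ≤ 8N²`,
`gcd(ξ,m) ≤ gcd(η,m) |l₁ - l₂| ≤ √N · 2A`; `p ∤ m` by `hα`).  `#L ≤ 2A`.
`ol_bound`, `dg_bound`, `cauL`: `‖UL‖ ≤ n2(α) C N^{ε'} (N P A + P^{7/2} A² N^{3/4})`.
`splitL`: `W = ∑_n ‖T_n‖² ≤ n2(α) C N^{ε''} (N² A/P + N^{7/4} A³/P + N^{7/4} P^{3/2} A²)`, and
`A² ≤ N^{1/4}`, `P^{5/2} A ≤ 10^50 N^{1/4}`, so `W ≤ n2(α) C N^{2+ε''} A/P ≤ n2(α) C' N^{19/10+ε''} A^{7/5}`.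
Cauchy in `n`: `‖sum‖² ≤ W n2(β)` (exchange the sums over `l` and `(n,m)`).
-/

set_option autoImplicit false

namespace Pool.Agent.H35.WT

open Finset
open Pool.Agent.H80.KF
open Pool.Agent.H35.KL (n2 r2)
open Pool.Agent.H35.WL (WB)

private theorem Tk_large (κ B : ℝ) (hκ : 0 < κ) :
    ∃ N0 : ℕ, ∀ N : ℕ, N0 ≤ N → B ≤ (N : ℝ) ^ κ := by
  have h := ((tendsto_rpow_atTop hκ).comp
    (tendsto_natCast_atTop_atTop (R := ℝ))).eventually_ge_atTop B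
  obtain ⟨N0, h0⟩ := Filter.eventually_atTop.1 h
  exact ⟨N0, fun N hN => h0 N hN⟩

private theorem Tk_cauchy {N : ℕ} (β T : ℕ → ℂ) :
    ‖∑ n ∈ II N, β n * T n‖ ^ 2 ≤ n2 (II N) β * ∑ n ∈ II N, ‖T n‖ ^ 2 := by
  have h1 : ‖∑ n ∈ II N, β n * T n‖ ≤ ∑ n ∈ II N, ‖β n‖ * ‖T n‖ := by
    refine (norm_sum_le _ _).trans (le_of_eq (Finset.sum_congr rfl fun n _ => ?_))
    rw [norm_mul]
  refine (pow_le_pow_left₀ (norm_nonneg _) h1 2).trans ?_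
  exact Finset.sum_mul_sq_le_sq_mul_sq _ _ _

/-- `P^{5/2} A ≤ 10^50 N^{1/4}` -/
private theorem Tk_top {N P A : ℕ} (hN : 1 ≤ N) (hP : 1 ≤ P) (hA : 1 ≤ A)
    (hS2 : (P : ℝ) ≤ 10 ^ 20 * ((N : ℝ) ^ ((1 : ℝ) / 10) * (A : ℝ) ^ (-(2 : ℝ) / 5))) :
    (P : ℝ) ^ 2 * Real.sqrt P * A ≤ 10 ^ 50 * (N : ℝ) ^ ((1 : ℝ) / 4) := by
  have hN0 : (0 : ℝ) < N := by exact_mod_cast hN
  have hP0 : (0 : ℝ) < P := by exact_mod_cast hP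
  have hA0 : (0 : ℝ) < A := by exact_mod_cast hA
  apply (pow_le_pow_iff_left₀ (by positivity) (by positivity) two_ne_zero).1
  have e1 : ((P : ℝ) ^ 2 * Real.sqrt P * A) ^ 2 = (P : ℝ) ^ 5 * (A : ℝ) ^ 2 := by
    rw [mul_pow, mul_pow, Real.sq_sqrt hP0.le]
    ring
  have e2 : (10 ^ 50 * (N : ℝ) ^ ((1 : ℝ) / 4)) ^ 2 = 10 ^ 100 * (N : ℝ) ^ ((1 : ℝ) / 2) := by
    rw [mul_pow, ← Real.rpow_natCast ((N : ℝ) ^ _) 2, ← Real.rpow_mul hN0.le]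
    have e3 : (1 : ℝ) / 4 * ((2 : ℕ) : ℝ) = 1 / 2 := by norm_num
    rw [e3]
    norm_num
  have e4 : ((N : ℝ) ^ ((1 : ℝ) / 10)) ^ 5 = (N : ℝ) ^ ((1 : ℝ) / 2) := by
    rw [← Real.rpow_natCast ((N : ℝ) ^ _) 5, ← Real.rpow_mul hN0.le]
    congr 1
    norm_num
  have e5 : ((A : ℝ) ^ (-(2 : ℝ) / 5)) ^ 5 * (A : ℝ) ^ 2 = 1 := by
    rw [← Real.rpow_natCast ((A : ℝ) ^ _) 5, ← Real.rpow_mul hA0.le,
      ← Real.rpow_natCast (A : ℝ) 2, ← Real.rpow_add hA0]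
    have e6 : -(2 : ℝ) / 5 * ((5 : ℕ) : ℝ) + ((2 : ℕ) : ℝ) = 0 := by norm_num
    rw [e6, Real.rpow_zero]
  rw [e1, e2]
  calc (P : ℝ) ^ 5 * (A : ℝ) ^ 2 ≤
        (10 ^ 20 * ((N : ℝ) ^ ((1 : ℝ) / 10) * (A : ℝ) ^ (-(2 : ℝ) / 5))) ^ 5 * (A : ℝ) ^ 2 :=
        mul_le_mul_of_nonneg_right (pow_le_pow_left₀ hP0.le hS2 5) (by positivity)
    _ = 10 ^ 100 * (((N : ℝ) ^ ((1 : ℝ) / 10)) ^ 5 *
          (((A : ℝ) ^ (-(2 : ℝ) / 5)) ^ 5 * (A : ℝ) ^ 2)) := by ring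
    _ = 10 ^ 100 * (N : ℝ) ^ ((1 : ℝ) / 2) := by rw [e4, e5, mul_one]

/-- `N^{2+ε} A / P ≤ 2 N^{19/10+ε} A^{7/5}` -/
private theorem Tk_H {N P A : ℕ} (hN : 1 ≤ N) (hP : 1 ≤ P) (hA : 1 ≤ A) (ε : ℝ)
    (hS1 : (N : ℝ) ^ ((1 : ℝ) / 10) * (A : ℝ) ^ (-(2 : ℝ) / 5) ≤ 2 * P) :
    (N : ℝ) ^ (2 + ε) * A / P ≤ 2 * ((N : ℝ) ^ (19 / 10 + ε) * (A : ℝ) ^ ((7 : ℝ) / 5)) := by
  have hN0 : (0 : ℝ) < N := by exact_mod_cast hN
  have hP0 : (0 : ℝ) < P := by exact_mod_cast hP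
  have hA0 : (0 : ℝ) < A := by exact_mod_cast hA
  rw [div_le_iff₀ hP0]
  have e1 : (N : ℝ) ^ (2 + ε) = (N : ℝ) ^ (19 / 10 + ε) * (N : ℝ) ^ ((1 : ℝ) / 10) := by
    rw [← Real.rpow_add hN0]
    congr 1
    ring
  have e2 : (A : ℝ) = (A : ℝ) ^ ((7 : ℝ) / 5) * (A : ℝ) ^ (-(2 : ℝ) / 5) := by
    rw [← Real.rpow_add hA0]
    have e3 : (7 : ℝ) / 5 + -(2 : ℝ) / 5 = 1 := by norm_num
    rw [e3, Real.rpow_one]
  calc (N : ℝ) ^ (2 + ε) * A = (N : ℝ) ^ (19 / 10 + ε) * (N : ℝ) ^ ((1 : ℝ) / 10) *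
        ((A : ℝ) ^ ((7 : ℝ) / 5) * (A : ℝ) ^ (-(2 : ℝ) / 5)) := by rw [e1, ← e2]
    _ = (N : ℝ) ^ (19 / 10 + ε) * (A : ℝ) ^ ((7 : ℝ) / 5) *
        ((N : ℝ) ^ ((1 : ℝ) / 10) * (A : ℝ) ^ (-(2 : ℝ) / 5)) := by ring
    _ ≤ (N : ℝ) ^ (19 / 10 + ε) * (A : ℝ) ^ ((7 : ℝ) / 5) * (2 * P) :=
        mul_le_mul_of_nonneg_left hS1 (by positivity)
    _ = _ := by ring

private theorem Tk_core {N P A : ℕ} (hN : 1 ≤ N) (hP : 1 ≤ P) (hA : 1 ≤ A)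
    {c Λ U O D W a Lc D0 C1 C2 C3 ε : ℝ} (hε : 0 ≤ ε) (ha : 0 ≤ a) (hC1 : 0 ≤ C1) (hC2 : 0 ≤ C2)
    (hC3 : 0 ≤ C3) (hA14 : (A : ℝ) ≤ (N : ℝ) ^ ((1 : ℝ) / 14))
    (hS1 : (N : ℝ) ^ ((1 : ℝ) / 10) * (A : ℝ) ^ (-(2 : ℝ) / 5) ≤ 2 * P)
    (hS2 : (P : ℝ) ≤ 10 ^ 20 * ((N : ℝ) ^ ((1 : ℝ) / 10) * (A : ℝ) ^ (-(2 : ℝ) / 5)))
    (hc : (P : ℝ) / Λ ≤ c) (hΛ : 1 ≤ Λ) (hU : 0 ≤ U) (hUO : U ^ 2 ≤ a ^ 2 * (D + O))
    (hD : D ≤ C2 * (N : ℝ) ^ (2 + ε) * (P : ℝ) ^ 2 * (A : ℝ) ^ 2)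
    (hO : O ≤ C3 * (P : ℝ) ^ 7 * (A : ℝ) ^ 4 * (N : ℝ) ^ (3 / 2 + ε))
    (hL0 : 0 ≤ Lc) (hL : Lc ≤ 2 * A)
    (hD0 : D0 = C1 * (N : ℝ) ^ (1 / 2 + ε) * ((N : ℝ) ^ ((1 : ℝ) / 4) * (2 * A)))
    (hW : W ≤ 12 * N / c ^ 2 * (c * a * (2 * N * Lc + Lc ^ 2 * D0) + U)) :
    W ≤ a * ((N : ℝ) ^ (19 / 10 + ε) * (A : ℝ) ^ ((7 : ℝ) / 5) *
      (2 * (48 + 96 * C1 + 12 * Real.sqrt C2 + 12 * 10 ^ 50 * Real.sqrt C3) * Λ ^ 2)) := by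
  have hN1 : (1 : ℝ) ≤ N := by exact_mod_cast hN
  have hN0 : (0 : ℝ) < N := by linarith only [hN1]
  have hP0 : (0 : ℝ) < P := by exact_mod_cast hP
  have hA1 : (1 : ℝ) ≤ A := by exact_mod_cast hA
  have hA0 : (0 : ℝ) < A := by linarith only [hA1]
  have hΛ0 : 0 < Λ := by linarith only [hΛ]
  have hc0 : 0 < c := lt_of_lt_of_le (by positivity) hc
  have hic : 1 / c ≤ Λ / P := by
    rw [div_le_div_iff₀ hc0 hP0]
    rw [div_le_iff₀ hΛ0] at hc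
    linarith only [hc]
  have htop := Tk_top hN hP hA hS2
  have hHle := Tk_H hN hP hA ε hS1
  obtain ⟨q, hq⟩ : ∃ q : ℝ, q = Real.sqrt P := ⟨_, rfl⟩
  have hq0 : 0 ≤ q := by rw [hq]; exact Real.sqrt_nonneg _
  have hq2 : q ^ 2 = P := by rw [hq]; exact Real.sq_sqrt hP0.le
  rw [← hq] at htop
  obtain ⟨s2, hs2d⟩ : ∃ s : ℝ, s = Real.sqrt C2 := ⟨_, rfl⟩
  obtain ⟨s3, hs3d⟩ : ∃ s : ℝ, s = Real.sqrt C3 := ⟨_, rfl⟩
  have hs2 : 0 ≤ s2 := by rw [hs2d]; exact Real.sqrt_nonneg _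
  have hs3 : 0 ≤ s3 := by rw [hs3d]; exact Real.sqrt_nonneg _
  have hs22 : s2 ^ 2 = C2 := by rw [hs2d]; exact Real.sq_sqrt hC2
  have hs33 : s3 ^ 2 = C3 := by rw [hs3d]; exact Real.sq_sqrt hC3
  rw [← hs2d, ← hs3d]
  obtain ⟨Q1, hQ1⟩ : ∃ Q : ℝ, Q = s2 * (N : ℝ) ^ (1 + ε / 2) * P * A := ⟨_, rfl⟩
  obtain ⟨Q2, hQ2⟩ : ∃ Q : ℝ, Q = s3 * ((P : ℝ) ^ 3 * q) * (A : ℝ) ^ 2 *
    (N : ℝ) ^ (3 / 4 + ε / 2) := ⟨_, rfl⟩
  have hQ10 : 0 ≤ Q1 := by rw [hQ1]; positivity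
  have hQ20 : 0 ≤ Q2 := by rw [hQ2]; positivity
  have hDQ : D ≤ Q1 ^ 2 := by
    refine hD.trans (le_of_eq ?_)
    have e : (N : ℝ) ^ (2 + ε) = ((N : ℝ) ^ (1 + ε / 2)) ^ 2 := by
      rw [← Real.rpow_natCast ((N : ℝ) ^ _) 2, ← Real.rpow_mul hN0.le]
      congr 1
      push_cast
      ring
    rw [hQ1, e, mul_pow, mul_pow, mul_pow, hs22]
  have hOQ : O ≤ Q2 ^ 2 := by
    refine hO.trans (le_of_eq ?_)
    have e : (N : ℝ) ^ (3 / 2 + ε) = ((N : ℝ) ^ (3 / 4 + ε / 2)) ^ 2 := by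
      rw [← Real.rpow_natCast ((N : ℝ) ^ _) 2, ← Real.rpow_mul hN0.le]
      congr 1
      push_cast
      ring
    rw [hQ2, e, mul_pow, mul_pow, mul_pow, mul_pow, hs33, hq2]
    ring
  have hUle : U ≤ a * (Q1 + Q2) := by
    apply (pow_le_pow_iff_left₀ hU (by positivity) two_ne_zero).1
    refine hUO.trans ?_
    rw [mul_pow a]
    apply mul_le_mul_of_nonneg_left _ (by positivity)
    have h1 : 0 ≤ 2 * (Q1 * Q2) := by positivity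
    have h2 : (Q1 + Q2) ^ 2 = Q1 ^ 2 + Q2 ^ 2 + 2 * (Q1 * Q2) := by ring
    rw [h2]
    linarith only [h1, hDQ, hOQ]
  have hD00 : 0 ≤ D0 := by rw [hD0]; positivity
  have hstep : W ≤ 12 * N / c ^ 2 *
      (c * a * (2 * N * (2 * A) + (2 * A) ^ 2 * D0) + a * (Q1 + Q2)) := by
    refine hW.trans ?_
    apply mul_le_mul_of_nonneg_left _ (by positivity)
    have h1 : Lc ^ 2 ≤ (2 * (A : ℝ)) ^ 2 := pow_le_pow_left₀ hL0 hL 2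
    have h2 : 2 * N * Lc + Lc ^ 2 * D0 ≤ 2 * N * (2 * A) + (2 * A) ^ 2 * D0 :=
      add_le_add (mul_le_mul_of_nonneg_left hL (by positivity))
        (mul_le_mul_of_nonneg_right h1 hD00)
    exact add_le_add (mul_le_mul_of_nonneg_left h2 (by positivity)) hUle
  have heq : 12 * (N : ℝ) / c ^ 2 *
      (c * a * (2 * N * (2 * A) + (2 * A) ^ 2 * D0) + a * (Q1 + Q2)) =
      a * (48 * (N * (N * A) + N * (A ^ 2 * D0)) * (1 / c) +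
        12 * (N * (Q1 + Q2)) * (1 / c) ^ 2) := by
    field_simp
    ring
  rw [heq] at hstep
  have h1c : 0 ≤ 1 / c := by positivity
  obtain ⟨H, hH⟩ : ∃ H : ℝ, H = (N : ℝ) ^ (2 + ε) * A / P := ⟨_, rfl⟩
  have hH0 : 0 ≤ H := by rw [hH]; positivity
  rw [← hH] at hHle
  have hNe : (N : ℝ) ^ (2 + ε) = (N : ℝ) ^ 2 * (N : ℝ) ^ ε := by
    rw [Real.rpow_add hN0, Real.rpow_two]
  have hNe1 : 1 ≤ (N : ℝ) ^ ε := Real.one_le_rpow hN1 hε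
  have k1 : N * (N * A) / (P : ℝ) ≤ H := by
    rw [hH, hNe]
    apply div_le_div_of_nonneg_right _ hP0.le
    have h1 : (N : ℝ) ^ 2 * 1 * A ≤ (N : ℝ) ^ 2 * (N : ℝ) ^ ε * A :=
      mul_le_mul_of_nonneg_right (mul_le_mul_of_nonneg_left hNe1 (by positivity)) hA0.le
    calc (N : ℝ) * (N * A) = (N : ℝ) ^ 2 * 1 * A := by ring
      _ ≤ _ := h1
  have hA2 : (A : ℝ) ^ 2 ≤ (N : ℝ) ^ ((1 : ℝ) / 4) := by
    refine (pow_le_pow_left₀ hA0.le hA14 2).trans ?_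
    rw [← Real.rpow_natCast ((N : ℝ) ^ _) 2, ← Real.rpow_mul hN0.le]
    exact Real.rpow_le_rpow_of_exponent_le hN1 (by norm_num)
  have k2 : N * (A ^ 2 * D0) / (P : ℝ) ≤ 2 * C1 * H := by
    have e1 : (N : ℝ) ^ (2 + ε) = (N : ℝ) ^ (1 : ℝ) * (N : ℝ) ^ (1 / 2 + ε) *
        (N : ℝ) ^ ((1 : ℝ) / 4) * (N : ℝ) ^ ((1 : ℝ) / 4) := by
      rw [← Real.rpow_add hN0, ← Real.rpow_add hN0, ← Real.rpow_add hN0]
      congr 1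
      ring
    rw [Real.rpow_one] at e1
    rw [hH, hD0, e1, mul_div_assoc', div_le_div_iff_of_pos_right hP0]
    calc (N : ℝ) * ((A : ℝ) ^ 2 * (C1 * (N : ℝ) ^ (1 / 2 + ε) *
          ((N : ℝ) ^ ((1 : ℝ) / 4) * (2 * A))))
        = 2 * C1 * (N * (N : ℝ) ^ (1 / 2 + ε) * (N : ℝ) ^ ((1 : ℝ) / 4) * (A : ℝ) ^ 2 * A) := by
          ring
      _ ≤ 2 * C1 * (N * (N : ℝ) ^ (1 / 2 + ε) * (N : ℝ) ^ ((1 : ℝ) / 4) *
            (N : ℝ) ^ ((1 : ℝ) / 4) * A) := by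
          apply mul_le_mul_of_nonneg_left _ (by positivity)
          apply mul_le_mul_of_nonneg_right _ hA0.le
          exact mul_le_mul_of_nonneg_left hA2 (by positivity)
  have k3 : N * Q1 / (P : ℝ) ^ 2 ≤ s2 * H := by
    have e1 : N * (N : ℝ) ^ (1 + ε / 2) ≤ (N : ℝ) ^ (2 + ε) := by
      have e2 : N * (N : ℝ) ^ (1 + ε / 2) = (N : ℝ) ^ (2 + ε / 2) := by
        have e3 : (N : ℝ) ^ (2 + ε / 2) = (N : ℝ) ^ (1 : ℝ) * (N : ℝ) ^ (1 + ε / 2) := by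
          rw [← Real.rpow_add hN0]
          congr 1
          ring
        rw [e3, Real.rpow_one]
      rw [e2]
      exact Real.rpow_le_rpow_of_exponent_le hN1 (by linarith only [hε])
    have e4 : N * Q1 / (P : ℝ) ^ 2 = s2 * ((N * (N : ℝ) ^ (1 + ε / 2)) * A / P) := by
      rw [hQ1]
      field_simp
    rw [e4, hH]
    apply mul_le_mul_of_nonneg_left _ hs2
    apply div_le_div_of_nonneg_right _ hP0.le
    exact mul_le_mul_of_nonneg_right e1 hA0.le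
  have k4 : N * Q2 / (P : ℝ) ^ 2 ≤ 10 ^ 50 * s3 * H := by
    have e1 : N * (N : ℝ) ^ (3 / 4 + ε / 2) * (N : ℝ) ^ ((1 : ℝ) / 4) ≤ (N : ℝ) ^ (2 + ε) := by
      have e2 : N * (N : ℝ) ^ (3 / 4 + ε / 2) * (N : ℝ) ^ ((1 : ℝ) / 4) =
          (N : ℝ) ^ (2 + ε / 2) := by
        have e3 : (N : ℝ) ^ (2 + ε / 2) = (N : ℝ) ^ (1 : ℝ) * (N : ℝ) ^ (3 / 4 + ε / 2) *
            (N : ℝ) ^ ((1 : ℝ) / 4) := by
          rw [← Real.rpow_add hN0, ← Real.rpow_add hN0]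
          congr 1
          ring
        rw [e3, Real.rpow_one]
      rw [e2]
      exact Real.rpow_le_rpow_of_exponent_le hN1 (by linarith only [hε])
    have e4 : N * Q2 / (P : ℝ) ^ 2 = s3 * ((N * (N : ℝ) ^ (3 / 4 + ε / 2) *
        ((P : ℝ) ^ 2 * q * A)) * A / P) := by
      rw [hQ2]
      field_simp
    rw [e4, hH]
    have e5 : 10 ^ 50 * s3 * ((N : ℝ) ^ (2 + ε) * A / P) =
        s3 * ((10 ^ 50 * (N : ℝ) ^ (2 + ε)) * A / P) := by ring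
    rw [e5]
    apply mul_le_mul_of_nonneg_left _ hs3
    apply div_le_div_of_nonneg_right _ hP0.le
    apply mul_le_mul_of_nonneg_right _ hA0.le
    calc N * (N : ℝ) ^ (3 / 4 + ε / 2) * ((P : ℝ) ^ 2 * q * A)
        ≤ N * (N : ℝ) ^ (3 / 4 + ε / 2) * (10 ^ 50 * (N : ℝ) ^ ((1 : ℝ) / 4)) :=
          mul_le_mul_of_nonneg_left htop (by positivity)
      _ = 10 ^ 50 * (N * (N : ℝ) ^ (3 / 4 + ε / 2) * (N : ℝ) ^ ((1 : ℝ) / 4)) := by ring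
      _ ≤ 10 ^ 50 * (N : ℝ) ^ (2 + ε) := mul_le_mul_of_nonneg_left e1 (by positivity)
  have t1 : 48 * (N * (N * A) + N * (A ^ 2 * D0)) * (1 / c) ≤
      48 * Λ * (H + 2 * C1 * H) := by
    calc 48 * (N * (N * A) + N * (A ^ 2 * D0)) * (1 / c)
        ≤ 48 * (N * (N * A) + N * (A ^ 2 * D0)) * (Λ / P) :=
          mul_le_mul_of_nonneg_left hic (by positivity)
      _ = 48 * Λ * (N * (N * A) / (P : ℝ) + N * (A ^ 2 * D0) / (P : ℝ)) := by ring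
      _ ≤ 48 * Λ * (H + 2 * C1 * H) :=
          mul_le_mul_of_nonneg_left (add_le_add k1 k2) (by positivity)
  have t2 : 12 * (N * (Q1 + Q2)) * (1 / c) ^ 2 ≤
      12 * Λ ^ 2 * (s2 * H + 10 ^ 50 * s3 * H) := by
    calc 12 * (N * (Q1 + Q2)) * (1 / c) ^ 2
        ≤ 12 * (N * (Q1 + Q2)) * (Λ / P) ^ 2 :=
          mul_le_mul_of_nonneg_left (pow_le_pow_left₀ h1c hic 2) (by positivity)
      _ = 12 * Λ ^ 2 * (N * Q1 / (P : ℝ) ^ 2 + N * Q2 / (P : ℝ) ^ 2) := by ring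
      _ ≤ 12 * Λ ^ 2 * (s2 * H + 10 ^ 50 * s3 * H) :=
          mul_le_mul_of_nonneg_left (add_le_add k3 k4) (by positivity)
  refine hstep.trans ?_
  apply mul_le_mul_of_nonneg_left _ ha
  have hΛ2 : Λ ≤ Λ ^ 2 := by nlinarith only [hΛ]
  have t3 : 48 * Λ * (H + 2 * C1 * H) ≤ 48 * Λ ^ 2 * (H + 2 * C1 * H) := by
    apply mul_le_mul_of_nonneg_right _ (by positivity)
    linarith only [hΛ2]
  have t4 : 48 * (N * (N * A) + N * (A ^ 2 * D0)) * (1 / c) +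
      12 * (N * (Q1 + Q2)) * (1 / c) ^ 2 ≤
      H * ((48 + 96 * C1 + 12 * s2 + 12 * 10 ^ 50 * s3) * Λ ^ 2) := by
    refine (add_le_add (t1.trans t3) t2).trans (le_of_eq ?_)
    ring
  refine t4.trans ?_
  refine (mul_le_mul_of_nonneg_right hHle (by positivity)).trans (le_of_eq ?_)
  ring

private theorem Tk_gcd {η d : ℤ} {m N A : ℕ} (hd : d ≠ 0) (hdA : |d| ≤ 2 * (A : ℤ))
    (h : (Int.gcd η m : ℝ) ≤ Real.sqrt N) :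
    (Int.gcd (η * d) m : ℝ) ≤ Real.sqrt N * (2 * A) := by
  have h1 : Int.gcd (η * d) m ≤ Int.gcd η m * d.natAbs := by
    have e : Int.gcd (η * d) m = Nat.gcd m (η.natAbs * d.natAbs) := by
      rw [Nat.gcd_comm]
      unfold Int.gcd
      rw [Int.natAbs_mul, Int.natAbs_natCast]
    have e' : Int.gcd η m = Nat.gcd m η.natAbs := by
      rw [Nat.gcd_comm]
      unfold Int.gcd
      rw [Int.natAbs_natCast]
    rw [e, e']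
    have hdp : 0 < d.natAbs := Int.natAbs_pos.2 hd
    rcases Nat.eq_zero_or_pos (Nat.gcd m η.natAbs) with h0 | h0
    · obtain ⟨z1, z2⟩ := Nat.gcd_eq_zero_iff.1 h0
      rw [z1, z2]
      simp
    · have h2 : Nat.gcd m (η.natAbs * d.natAbs) ≤ Nat.gcd m η.natAbs * Nat.gcd m d.natAbs :=
        Nat.le_of_dvd (Nat.mul_pos h0 (Nat.gcd_pos_of_pos_right _ hdp))
          (Nat.gcd_mul_right_dvd_mul_gcd _ _ _)
      exact h2.trans (Nat.mul_le_mul_left _ (Nat.gcd_le_right _ hdp))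
  have h3 : ((Int.gcd (η * d) m : ℕ) : ℝ) ≤ (Int.gcd η m : ℝ) * (d.natAbs : ℝ) := by
    exact_mod_cast h1
  have h4 : (d.natAbs : ℝ) ≤ 2 * A := by
    have h5 : ((d.natAbs : ℕ) : ℤ) ≤ 2 * (A : ℤ) := by
      rw [Int.natCast_natAbs]
      exact hdA
    exact_mod_cast h5
  exact h3.trans (mul_le_mul h h4 (Nat.cast_nonneg _) (Real.sqrt_nonneg _))

private theorem Tk_sqrt {N A : ℕ} (hA : 1 ≤ A) {g : ℝ}
    (h : g ≤ Real.sqrt N * (2 * A)) : Real.sqrt g ≤ (N : ℝ) ^ ((1 : ℝ) / 4) * (2 * A) := by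
  have hA1 : (1 : ℝ) ≤ A := by exact_mod_cast hA
  have hN0 : (0 : ℝ) ≤ N := Nat.cast_nonneg _
  rw [Real.sqrt_le_iff]
  refine ⟨by positivity, h.trans ?_⟩
  have e1 : ((N : ℝ) ^ ((1 : ℝ) / 4)) ^ 2 = Real.sqrt N := by
    rw [← Real.rpow_natCast ((N : ℝ) ^ _) 2, ← Real.rpow_mul hN0, Real.sqrt_eq_rpow]
    congr 1
    norm_num
  rw [mul_pow, e1]
  apply mul_le_mul_of_nonneg_left _ (Real.sqrt_nonneg _)
  nlinarith only [hA1]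

private theorem Tk_L {A : ℕ} {L : Finset ℤ} (hL : Fr A L) : (L.card : ℝ) ≤ 2 * A := by
  have h : L ⊆ (Icc (-(A : ℤ)) A).erase 0 := by
    intro l hl
    obtain ⟨h1, h2⟩ := hL l hl
    have h3 := abs_le.1 h2
    rw [mem_erase, mem_Icc]
    exact ⟨h1, h3.1, h3.2⟩
  have h4 : L.card ≤ 2 * A := by
    refine (card_le_card h).trans ?_
    rw [card_erase_of_mem (by rw [mem_Icc]; constructor <;> omega), Int.card_Icc]
    omega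
  exact_mod_cast h4

theorem kt_free (hW : WB) (ε : ℝ) (hε : 0 < ε) : ∃ N0 : ℕ, ∀ N : ℕ, N0 ≤ N → ∀ P A : ℕ, 1 ≤ A →
    (A : ℝ) ≤ (N : ℝ) ^ ((1 : ℝ) / 14) → A ≤ P →
    (N : ℝ) ^ ((1 : ℝ) / 10) * (A : ℝ) ^ (-(2 : ℝ) / 5) ≤ 2 * P →
    (P : ℝ) ≤ 10 ^ 20 * ((N : ℝ) ^ ((1 : ℝ) / 10) * (A : ℝ) ^ (-(2 : ℝ) / 5)) →
    ∀ L : Finset ℤ, Fr A L → ∀ η : ℤ, η ≠ 0 → |η| * A ≤ 4 * (N : ℤ) ^ 2 →
    ∀ α β : ℕ → ℂ, (∀ m ∈ II N, α m ≠ 0 → ∀ p ∈ PP P, ¬ p ∣ m) →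
    (∀ m ∈ II N, α m ≠ 0 → (Int.gcd η m : ℝ) ≤ Real.sqrt N) →
    ∀ F : ℤ → ℝ → ℂ, (∀ l ∈ L, Wt N (F l)) →
    ‖∑ l ∈ L, ∑ n ∈ II N, ∑ m ∈ (II N).filter (fun m => Nat.Coprime m n),
        α m * β n * F l ((m : ℝ) * n) * kf n (l * η) m‖ ≤
      (N : ℝ) ^ (19 / 20 + ε) * (A : ℝ) ^ ((7 : ℝ) / 10) *
        (Real.sqrt (n2 (II N) α) * Real.sqrt (n2 (II N) β)) := by
  obtain ⟨C1, hC1, hns⟩ := nsum hW (ε / 2) (by positivity)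
  obtain ⟨C2, hC2, hdg⟩ := dg_bound (ε / 2) (by positivity)
  obtain ⟨C3, hC3, hol⟩ := ol_bound hW (ε / 2) (by positivity)
  obtain ⟨P0, hP0⟩ := pp_card_ge
  obtain ⟨Nh, hNh⟩ := pp_half
  obtain ⟨K, hK⟩ : ∃ K : ℝ, K = 48 + 96 * C1 + 12 * Real.sqrt C2 +
    12 * 10 ^ 50 * Real.sqrt C3 := ⟨_, rfl⟩
  have hK0 : 0 ≤ K := by rw [hK]; positivity
  obtain ⟨N1, hN1⟩ := Tk_large (1 / 14) (2 * max (P0 : ℝ) 2) (by norm_num)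
  obtain ⟨N2, hN2⟩ := Tk_large (1 / 14 - 1 / 25) 2 (by norm_num)
  obtain ⟨N3, hN3⟩ := Tk_large ε (2 * K * (4 / ε) ^ 2) hε
  obtain ⟨N4, hN4⟩ := Tk_large (9 / 10) (10 ^ 20) (by norm_num)
  refine ⟨max (max (max Nh 3) N1) (max (max N2 N3) N4), ?_⟩
  intro N hN P A hA hA14 hAP hS1 hS2 L hL η hη0 hη α β hα hαg F hF
  have l1 : Nh ≤ N := (le_max_left _ _).trans ((le_max_left _ _).trans ((le_max_left _ _).trans hN))
  have l2 : 3 ≤ N := (le_max_right _ _).trans ((le_max_left _ _).trans ((le_max_left _ _).trans hN))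
  have l3 : N1 ≤ N := (le_max_right _ _).trans ((le_max_left _ _).trans hN)
  have l4 : N2 ≤ N := (le_max_left _ _).trans ((le_max_left _ _).trans ((le_max_right _ _).trans hN))
  have l5 : N3 ≤ N := (le_max_right _ _).trans ((le_max_left _ _).trans ((le_max_right _ _).trans hN))
  have l6 : N4 ≤ N := (le_max_right _ _).trans ((le_max_right _ _).trans hN)
  have g1 := hN1 N l3
  have g2 := hN2 N l4
  have g3 := hN3 N l5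
  have g4 := hN4 N l6
  have hNge : 1 ≤ N := by omega
  have hNr : (1 : ℝ) ≤ N := by exact_mod_cast hNge
  have hN0 : (0 : ℝ) < N := by linarith
  have hA1 : (1 : ℝ) ≤ A := by exact_mod_cast hA
  have hA0 : (0 : ℝ) < A := by linarith
  have hSlow : (N : ℝ) ^ ((1 : ℝ) / 14) ≤
      (N : ℝ) ^ ((1 : ℝ) / 10) * (A : ℝ) ^ (-(2 : ℝ) / 5) := by
    have h1 : ((N : ℝ) ^ ((1 : ℝ) / 14)) ^ (-(2 : ℝ) / 5) ≤ (A : ℝ) ^ (-(2 : ℝ) / 5) :=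
      Real.rpow_le_rpow_of_nonpos hA0 hA14 (by norm_num)
    have h2 : (N : ℝ) ^ ((1 : ℝ) / 14) =
        (N : ℝ) ^ ((1 : ℝ) / 10) * ((N : ℝ) ^ ((1 : ℝ) / 14)) ^ (-(2 : ℝ) / 5) := by
      rw [← Real.rpow_mul hN0.le, ← Real.rpow_add hN0]
      congr 1
      norm_num
    calc (N : ℝ) ^ ((1 : ℝ) / 14) =
          (N : ℝ) ^ ((1 : ℝ) / 10) * ((N : ℝ) ^ ((1 : ℝ) / 14)) ^ (-(2 : ℝ) / 5) := h2
      _ ≤ _ := mul_le_mul_of_nonneg_left h1 (by positivity)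
  have hSP : (N : ℝ) ^ ((1 : ℝ) / 14) ≤ 2 * P := hSlow.trans hS1
  have hPmax : max (P0 : ℝ) 2 ≤ P := by linarith
  have hP2 : (2 : ℝ) ≤ P := (le_max_right _ _).trans hPmax
  have hP1 : 1 ≤ P := by
    have : (1 : ℝ) ≤ P := by linarith
    exact_mod_cast this
  have hPP0 : P0 ≤ P := by
    have : (P0 : ℝ) ≤ P := (le_max_left _ _).trans hPmax
    exact_mod_cast this
  have hPN : P ≤ N := by
    have h1 : (A : ℝ) ^ (-(2 : ℝ) / 5) ≤ 1 :=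
      Real.rpow_le_one_of_one_le_of_nonpos hA1 (by norm_num)
    have h2 : (N : ℝ) ^ ((1 : ℝ) / 10) * (A : ℝ) ^ (-(2 : ℝ) / 5) ≤
        (N : ℝ) ^ ((1 : ℝ) / 10) * 1 := mul_le_mul_of_nonneg_left h1 (by positivity)
    have h3 : (N : ℝ) = (N : ℝ) ^ ((9 : ℝ) / 10) * (N : ℝ) ^ ((1 : ℝ) / 10) := by
      rw [← Real.rpow_add hN0]
      have e : (9 : ℝ) / 10 + 1 / 10 = 1 := by norm_num
      rw [e, Real.rpow_one]
    have h4 : (P : ℝ) ≤ N := by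
      calc (P : ℝ) ≤ 10 ^ 20 * ((N : ℝ) ^ ((1 : ℝ) / 10) * (A : ℝ) ^ (-(2 : ℝ) / 5)) := hS2
        _ ≤ 10 ^ 20 * ((N : ℝ) ^ ((1 : ℝ) / 10) * 1) :=
            mul_le_mul_of_nonneg_left h2 (by positivity)
        _ = 10 ^ 20 * (N : ℝ) ^ ((1 : ℝ) / 10) := by ring
        _ ≤ (N : ℝ) ^ ((9 : ℝ) / 10) * (N : ℝ) ^ ((1 : ℝ) / 10) :=
            mul_le_mul_of_nonneg_right g4 (by positivity)
        _ = N := h3.symm
    exact_mod_cast h4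
  have hP25 : (N : ℝ) ^ ((1 : ℝ) / 25) ≤ P := by
    have e1 : (N : ℝ) ^ ((1 : ℝ) / 14) =
        (N : ℝ) ^ ((1 : ℝ) / 25) * (N : ℝ) ^ ((1 : ℝ) / 14 - 1 / 25) := by
      rw [← Real.rpow_add hN0]
      norm_num
    have h1 : (N : ℝ) ^ ((1 : ℝ) / 25) * 2 ≤
        (N : ℝ) ^ ((1 : ℝ) / 25) * (N : ℝ) ^ ((1 : ℝ) / 14 - 1 / 25) :=
      mul_le_mul_of_nonneg_left g2 (by positivity)
    rw [← e1] at h1
    linarith
  have hhalf := hNh N P l1 hP25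
  have hlogP : 0 < Real.log P := Real.log_pos (by linarith)
  have hlogPN : Real.log P ≤ Real.log N :=
    Real.log_le_log (by linarith) (by exact_mod_cast hPN)
  have hΛ1 : 1 ≤ Real.log N := by
    rw [Real.le_log_iff_exp_le hN0]
    have : Real.exp 1 ≤ 3 := Real.exp_one_lt_three.le
    have h3 : (3 : ℝ) ≤ N := by exact_mod_cast l2
    linarith
  have hc : (P : ℝ) / Real.log N ≤ ((PP P).card : ℝ) := by
    refine le_trans ?_ (hP0 P hPP0)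
    exact div_le_div_of_nonneg_left (by linarith) hlogP hlogPN
  have hcpos : 0 < (PP P).card := by
    have h1 : (0 : ℝ) < ((PP P).card : ℝ) := lt_of_lt_of_le (by positivity) hc
    exact_mod_cast h1
  have hΛle : Real.log N ≤ 4 / ε * (N : ℝ) ^ (ε / 4) := by
    have := Real.log_le_rpow_div hN0.le (by linarith : (0 : ℝ) < ε / 4)
    refine this.trans (le_of_eq ?_)
    field_simp
  obtain ⟨D0, hD0⟩ : ∃ D0 : ℝ, D0 = C1 * (N : ℝ) ^ (1 / 2 + ε / 2) *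
    ((N : ℝ) ^ ((1 : ℝ) / 4) * (2 * A)) := ⟨_, rfl⟩
  have hD00 : 0 ≤ D0 := by rw [hD0]; positivity
  have hD : ∀ m ∈ II N, α m ≠ 0 → ∀ p ∈ PP P, ∀ l1 ∈ L, ∀ l2 ∈ L, l1 ≠ l2 →
      ‖∑ n ∈ (II N).filter (fun n => Nat.Coprime n (p * m)),
        F l1 ((m : ℝ) * n) * (starRingEnd ℂ) (F l2 ((m : ℝ) * n)) *
          kf n (η * (l1 * p - l2 * p)) (p * m)‖ ≤ D0 := by
    intro m hm hαm p hp l1' hl1 l2' hl2 hne
    have hpp : p.Prime := by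
      unfold PP at hp
      exact (mem_filter.1 hp).2
    have hd0 : l1' - l2' ≠ 0 := sub_ne_zero.2 hne
    have hdA : |l1' - l2'| ≤ 2 * (A : ℤ) := by
      have h1 := abs_le.1 (hL _ hl1).2
      have h2 := abs_le.1 (hL _ hl2).2
      rw [abs_le]
      constructor <;> linarith [h1.1, h1.2, h2.1, h2.2]
    have hξ : |η * (l1' - l2')| ≤ 8 * (N : ℤ) ^ 2 := by
      rw [abs_mul]
      have h3 : |η| * |l1' - l2'| ≤ |η| * (2 * (A : ℤ)) :=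
        mul_le_mul_of_nonneg_left hdA (abs_nonneg _)
      have h4 : |η| * (2 * (A : ℤ)) = 2 * (|η| * A) := by ring
      linarith
    have e : η * (l1' * (p : ℤ) - l2' * p) = η * (l1' - l2') * p := by ring
    rw [e]
    refine (hns N hNge m hm p hpp (hα m hm hαm p hp) (F l1') (F l2') (hF _ hl1) (hF _ hl2)
      (η * (l1' - l2')) (mul_ne_zero hη0 hd0) hξ).trans ?_
    rw [hD0]
    apply mul_le_mul_of_nonneg_left _ (by positivity)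
    exact Tk_sqrt hA (Tk_gcd hd0 hdA (hαg m hm hαm))
  have hF1 : ∀ l ∈ L, ∀ y, ‖F l y‖ ≤ 1 := fun l hl => (hF l hl).1
  have hsplit := splitL N P hNge hP1 hPN η L α F hF1 hcpos hα hhalf D0 hD00 hD
  have hcau := cauL N P hNge η L α F hF1
  have hdg' := hdg N P A hNge hP1 hPN hAP L hL η hη0
  have hol' := hol N P A hNge hP1 hPN hAP L hL η hη0 hη F hF
  have ha : 0 ≤ n2 (II N) α := Pool.Agent.H35.KL.n2_nonneg _ _
  have hb : 0 ≤ n2 (II N) β := Pool.Agent.H35.KL.n2_nonneg _ _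
  have hcore := Tk_core hNge hP1 hA (by positivity) ha hC1.le hC2.le hC3.le hA14 hS1 hS2 hc hΛ1
    (norm_nonneg _) hcau hdg' hol' (Nat.cast_nonneg _) (Tk_L hL) hD0 hsplit
  rw [← hK] at hcore
  have hS : ∑ l ∈ L, ∑ n ∈ II N, ∑ m ∈ (II N).filter (fun m => Nat.Coprime m n),
        α m * β n * F l ((m : ℝ) * n) * kf n (l * η) m =
      ∑ n ∈ II N, β n * ∑ m ∈ (II N).filter (fun m => Nat.Coprime m n),
        α m * ∑ l ∈ L, F l ((m : ℝ) * n) * kf n (l * η) m := by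
    rw [Finset.sum_comm]
    apply Finset.sum_congr rfl
    intro n _
    rw [Finset.sum_comm, Finset.mul_sum]
    apply Finset.sum_congr rfl
    intro m _
    rw [Finset.mul_sum, Finset.mul_sum]
    apply Finset.sum_congr rfl
    intro l _
    ring
  rw [hS]
  apply (pow_le_pow_iff_left₀ (norm_nonneg _) (by positivity) two_ne_zero).1
  refine (Tk_cauchy β _).trans ?_
  have e1 : ((N : ℝ) ^ (19 / 20 + ε) * (A : ℝ) ^ ((7 : ℝ) / 10) *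
      (Real.sqrt (n2 (II N) α) * Real.sqrt (n2 (II N) β))) ^ 2 =
      n2 (II N) β * (n2 (II N) α * ((N : ℝ) ^ (19 / 10 + ε / 2) * (A : ℝ) ^ ((7 : ℝ) / 5) *
        ((N : ℝ) ^ ε * (N : ℝ) ^ (ε / 2)))) := by
    rw [mul_pow, mul_pow, mul_pow, Real.sq_sqrt ha, Real.sq_sqrt hb,
      ← Real.rpow_natCast ((N : ℝ) ^ _) 2, ← Real.rpow_mul hN0.le,
      ← Real.rpow_natCast ((A : ℝ) ^ _) 2, ← Real.rpow_mul hA0.le]
    have e2 : (N : ℝ) ^ ((19 / 20 + ε) * ((2 : ℕ) : ℝ)) =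
        (N : ℝ) ^ (19 / 10 + ε / 2) * ((N : ℝ) ^ ε * (N : ℝ) ^ (ε / 2)) := by
      rw [← Real.rpow_add hN0, ← Real.rpow_add hN0]
      congr 1
      push_cast
      ring
    have e3 : (7 : ℝ) / 10 * ((2 : ℕ) : ℝ) = 7 / 5 := by norm_num
    rw [e2, e3]
    ring
  rw [e1]
  apply mul_le_mul_of_nonneg_left _ hb
  refine hcore.trans ?_
  apply mul_le_mul_of_nonneg_left _ ha
  apply mul_le_mul_of_nonneg_left _ (by positivity)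
  have hΛ2 : Real.log N ^ 2 ≤ (4 / ε) ^ 2 * (N : ℝ) ^ (ε / 2) := by
    refine (pow_le_pow_left₀ (by linarith) hΛle 2).trans (le_of_eq ?_)
    rw [mul_pow, ← Real.rpow_natCast ((N : ℝ) ^ _) 2, ← Real.rpow_mul hN0.le]
    congr 2
    push_cast
    ring
  calc 2 * K * Real.log N ^ 2 ≤ 2 * K * ((4 / ε) ^ 2 * (N : ℝ) ^ (ε / 2)) :=
        mul_le_mul_of_nonneg_left hΛ2 (by positivity)
    _ = 2 * K * (4 / ε) ^ 2 * (N : ℝ) ^ (ε / 2) := by ring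
    _ ≤ (N : ℝ) ^ ε * (N : ℝ) ^ (ε / 2) := mul_le_mul_of_nonneg_right g3 (by positivity)

end Pool.Agent.H35.WT
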