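import Pool.Agent.H35.WT.Um

/-!
# WT-Ua: disjoint bad sets

Copy of `fam_card3` (Pool/Agent/H35/WL/Fa.lean) with `mxT`, `QT θ`, `mt θ κ`.
-/

set_option autoImplicit false

namespace Pool.Agent.H35.WT

open Finset
open Pool.Agent.H91.EHA (err)
open Pool.Agent.H80.KF
open Pool.Agent.H35.KM (Sel Adx)

/-- the sum over the moduli of the largest errors is small for every choice of residues from `A` -/
def Good (θ : ℝ) (c x : ℕ) (A : Finset ℤ) : Prop :=
  ∀ r : ℕ → ℤ, (∀ q, r q ∈ A) →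
    ∑ q ∈ (Icc 1 (QT θ x)).filter (fun q : ℕ => IsCoprime (r q) (q : ℤ)),
      ME x q (r q : ZMod q) ≤ x / Real.log x ^ c

private lemma ua_ev (m : ℝ) (hm : 0 < m) (c : ℕ) : ∃ x0 : ℕ, ∀ x : ℕ, x0 ≤ x →
    4 ≤ Real.log x ∧ 1 ≤ x ∧
      2 * Real.log x ^ (4 * c + 21) ≤ (x : ℝ) ^ m := by
  have h2 : ∀ᶠ x : ℝ in Filter.atTop, 4 ≤ Real.log x :=
    Real.tendsto_log_atTop.eventually_ge_atTop 4
  have h3 := (isLittleO_log_rpow_rpow_atTop (((4 * c + 21 : ℕ) : ℝ))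
    hm).bound (by norm_num : (0 : ℝ) < 1 / 2)
  have h4 := tendsto_natCast_atTop_atTop.eventually (h2.and h3)
  obtain ⟨x0, hx0⟩ := Filter.eventually_atTop.1 h4
  refine ⟨max x0 1, fun x hx => ?_⟩
  obtain ⟨h5, h6⟩ := hx0 x ((le_max_left _ _).trans hx)
  refine ⟨h5, (le_max_right _ _).trans hx, ?_⟩
  rw [Real.rpow_natCast] at h6
  have h7 : (0 : ℝ) ≤ Real.log x ^ (4 * c + 21) := by positivity
  have h8 : (0 : ℝ) ≤ (x : ℝ) ^ m := by positivity
  rw [Real.norm_of_nonneg h7, Real.norm_of_nonneg h8] at h6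
  linarith

/-- the numerical contradiction -/
private lemma ua_alg (x L M : ℝ) (c : ℕ) (hx : 0 < x) (hL : 4 ≤ L) (hM : 0 < M)
    (h : M * (x / L ^ c) ≤ Real.sqrt M * x * L ^ (c + 1 + 9) + M * x / L ^ (c + 1)) :
    M ≤ L ^ (4 * c + 21) := by
  have hL0 : 0 < L := by linarith
  set t := Real.sqrt M with ht
  have ht0 : 0 < t := Real.sqrt_pos.2 hM
  have htt : t * t = M := Real.mul_self_sqrt hM.le
  rw [← htt] at h ⊢
  have h6 : t * t * L ≤ t * L ^ (2 * c + 11) + t * t := by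
    have e1 : t * t * (x / L ^ c) * (L ^ (c + 1) / x) = t * t * L := by
      field_simp
      ring
    have e2 : (t * x * L ^ (c + 1 + 9) + t * t * x / L ^ (c + 1)) * (L ^ (c + 1) / x) =
        t * L ^ (2 * c + 11) + t * t := by
      have e6 : L ^ (2 * c + 11) = L ^ (c + 1 + 9) * L ^ (c + 1) := by
        rw [← pow_add]
        congr 1
        ring
      rw [e6]
      field_simp
    have e3 : 0 ≤ L ^ (c + 1) / x := by positivity
    have e4 := mul_le_mul_of_nonneg_right h e3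
    rw [e1, e2] at e4
    exact e4
  have h7 : t * (L - 1) ≤ L ^ (2 * c + 11) := by
    have e1 : t * (t * (L - 1)) ≤ t * L ^ (2 * c + 11) := by nlinarith
    exact le_of_mul_le_mul_left e1 ht0
  have h8 : 0 < t * (L - 1) := mul_pos ht0 (by linarith)
  have h9 : (t * (L - 1)) * (t * (L - 1)) ≤ L ^ (2 * c + 11) * L ^ (2 * c + 11) :=
    mul_le_mul h7 h7 h8.le (by positivity)
  have h10 : L ^ (2 * c + 11) * L ^ (2 * c + 11) = L ^ (4 * c + 21) * L := by
    rw [← pow_add, ← pow_succ]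
    congr 1
    ring
  have h11 : L ≤ (L - 1) * (L - 1) := by nlinarith
  have h12 : t * t * L ≤ L ^ (4 * c + 21) * L := by
    calc t * t * L ≤ t * t * ((L - 1) * (L - 1)) :=
          mul_le_mul_of_nonneg_left h11 (by positivity)
      _ = (t * (L - 1)) * (t * (L - 1)) := by ring
      _ ≤ L ^ (4 * c + 21) * L := by rw [← h10]; exact h9
  exact le_of_mul_le_mul_right h12 hL0

theorem fam_cardT (hK : KT) (θ κ : ℝ) (h0 : 0 ≤ κ) (ht : 1 / 2 ≤ θ) (h1 : 27 * θ + 20 * κ < 14)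
    (c : ℕ) : ∃ x0 : ℕ, ∀ x : ℕ, x0 ≤ x →
    ∀ F : Finset (Finset ℤ), (∀ A ∈ F, ∀ B ∈ F, A ≠ B → Disjoint A B) →
    (∀ A ∈ F, (∀ a ∈ A, |a| ≤ x) ∧ (A.card : ℝ) ≤ (x : ℝ) ^ κ ∧ ¬ Good θ c x A) →
    (F.card : ℝ) ≤ Real.log x ^ (4 * c + 21) := by
  classical
  obtain ⟨x1, hmx⟩ := mxT hK θ κ h0 ht h1 (c + 1)
  have hmg : 0 < mt θ κ := by
    unfold mt
    linarith
  obtain ⟨x2, hev⟩ := ua_ev (mt θ κ) hmg c
  refine ⟨max x1 x2, fun x hx F hdis hF => ?_⟩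
  have hmx' := hmx x ((le_max_left _ _).trans hx)
  obtain ⟨hL4, hx1, hLx⟩ := hev x ((le_max_right _ _).trans hx)
  set L := Real.log x with hL
  have hL0 : 0 < L := by linarith
  have hxr : (0 : ℝ) < x := by exact_mod_cast hx1
  by_contra hcon
  push Not at hcon
  have hLp : (0 : ℝ) ≤ L ^ (4 * c + 21) := by positivity
  set M := ⌊L ^ (4 * c + 21)⌋₊ + 1 with hM
  have hMF : M ≤ F.card := (Nat.floor_lt hLp).2 hcon
  have hM1 : 1 ≤ M := by omega
  have hMgt : L ^ (4 * c + 21) < M := by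
    rw [hM]
    push_cast
    exact Nat.lt_floor_add_one _
  have hMle : (M : ℝ) ≤ (x : ℝ) ^ (mt θ κ) := by
    have e1 : (M : ℝ) ≤ L ^ (4 * c + 21) + 1 := by
      rw [hM]
      push_cast
      have := Nat.floor_le hLp
      linarith
    have e2 : (1 : ℝ) ≤ L ^ (4 * c + 21) := one_le_pow₀ (by linarith)
    linarith
  obtain ⟨F', hF'F, hF'c⟩ := Finset.exists_subset_card_eq hMF
  have hr : ∀ B : Finset ℤ, ∃ r : ℕ → ℤ, B ∈ F' → (∀ q, r q ∈ B) ∧ x / L ^ c <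
      ∑ q ∈ (Icc 1 (QT θ x)).filter (fun q : ℕ => IsCoprime (r q) (q : ℤ)),
        ME x q (r q : ZMod q) := by
    intro B
    by_cases hB : B ∈ F'
    · have h2 := (hF B (hF'F hB)).2.2
      unfold Good at h2
      push Not at h2
      obtain ⟨r, h3, h4⟩ := h2
      exact ⟨r, fun _ => ⟨h3, h4⟩⟩
    · exact ⟨fun _ => 0, fun h => absurd h hB⟩
  choose r hr using hr
  set A : Finset ℤ := F'.biUnion id with hA
  set T : ℕ → Finset ℤ := fun q =>
    (F'.filter (fun B => IsCoprime (r B q) (q : ℤ))).image (fun B => r B q) with hT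
  have hinj : ∀ q : ℕ, ∀ B ∈ F', ∀ B' ∈ F', r B q = r B' q → B = B' := by
    intro q B hB B' hB' h
    by_contra hne
    have h2 := hdis B (hF'F hB) B' (hF'F hB') hne
    exact Finset.disjoint_left.1 h2 ((hr B hB).1 q) (h ▸ (hr B' hB').1 q)
  have hAx : ∀ a ∈ A, |a| ≤ x := by
    intro a ha
    rw [hA, mem_biUnion] at ha
    obtain ⟨B, hB, haB⟩ := ha
    exact (hF B (hF'F hB)).1 a haB
  have hSel : Sel A M T := by
    intro q
    refine ⟨?_, ?_, ?_⟩
    · intro a ha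
      rw [hT] at ha
      simp only [mem_image, mem_filter] at ha
      obtain ⟨B, ⟨hB, -⟩, rfl⟩ := ha
      rw [hA, mem_biUnion]
      exact ⟨B, hB, (hr B hB).1 q⟩
    · rw [← hF'c]
      exact card_image_le.trans (card_filter_le _ _)
    · intro a ha
      rw [hT] at ha
      simp only [mem_image, mem_filter] at ha
      obtain ⟨B, ⟨-, hc⟩, rfl⟩ := ha
      exact hc
  have hAc : (A.card : ℝ) ≤ (x : ℝ) ^ (κ + mt θ κ) := by
    have e1 : A.card ≤ ∑ B ∈ F', B.card := card_biUnion_le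
    have e2 : (A.card : ℝ) ≤ ∑ B ∈ F', (B.card : ℝ) := by exact_mod_cast e1
    have e3 : ∑ B ∈ F', (B.card : ℝ) ≤ ∑ _B ∈ F', (x : ℝ) ^ κ :=
      sum_le_sum fun B hB => (hF B (hF'F hB)).2.1
    rw [sum_const, hF'c, nsmul_eq_mul] at e3
    rw [Real.rpow_add hxr]
    calc (A.card : ℝ) ≤ M * (x : ℝ) ^ κ := e2.trans e3
      _ ≤ (x : ℝ) ^ (mt θ κ) * (x : ℝ) ^ κ := by gcongr
      _ = (x : ℝ) ^ κ * (x : ℝ) ^ (mt θ κ) := mul_comm _ _
  have hup := hmx' A hAx hAc M hM1 T hSel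
  have hsum : ∑ q ∈ Icc 1 (QT θ x), ∑ a ∈ T q, ME x q (a : ZMod q) =
      ∑ B ∈ F', ∑ q ∈ (Icc 1 (QT θ x)).filter (fun q : ℕ => IsCoprime (r B q) (q : ℤ)),
        ME x q (r B q : ZMod q) := by
    have e1 : ∀ q ∈ Icc 1 (QT θ x), ∑ a ∈ T q, ME x q (a : ZMod q) =
        ∑ B ∈ F', if IsCoprime (r B q) (q : ℤ) then ME x q (r B q : ZMod q) else 0 := by
      intro q _
      rw [hT, ← sum_filter]
      apply sum_image
      intro B hB B' hB' h
      rw [mem_coe, mem_filter] at hB hB'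
      exact hinj q B hB.1 B' hB'.1 h
    rw [sum_congr rfl e1, sum_comm]
    refine sum_congr rfl fun B _ => ?_
    rw [sum_filter]
  have hlow : (M : ℝ) * (x / L ^ c) ≤ ∑ q ∈ Icc 1 (QT θ x), ∑ a ∈ T q, ME x q (a : ZMod q) := by
    rw [hsum, ← hF'c, ← nsmul_eq_mul]
    exact card_nsmul_le_sum F' _ _ fun B hB => (hr B hB).2.le
  have hfin := ua_alg x L M c hxr hL4 (by exact_mod_cast hM1) (hlow.trans hup)
  linarith

end Pool.Agent.H35.WT
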