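import Pool.Agent.H35.WT.Defs

/-!
# WT-Ub: the sum over the frequencies for one `g`

As `ckb3` (Pool/Agent/H35/WL/Cb.lean; `ckb_wt` and the other private lemmas have to be copied), but for
the sum over all `l`, `0 < |l| ≤ A = 2Q²/(g x)` (natural division), with `KT`: `N = Q/g`, `η = h1`,
`F_l(y) = if N² ≤ y then (N²/y) max(0, 1 - (2x|l|/g)/y) ee((l a/g)/y) else 0`.
`2x|l|/g ≤ 4Q²/g² ≤ 4(N+1)²`, `|l a/g| ≤ 2Q²/g² ≤ 2(N+1)²`, `|h1| A ≤ 2Q²/g² ≤ 2(N+1)² ≤ 4N²`;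
`n2 (c(g ·)) ≤ r2 c`.
-/

set_option autoImplicit false

namespace Pool.Agent.H35.WT

open Finset
open Pool.Agent.H80.KF
open Pool.Agent.H35.KL (n2 r2)

private theorem ckb_ee_norm (t : ℝ) : ‖ee t‖ = 1 := by
  have h : (2 * Real.pi * t * Complex.I : ℂ) = ((2 * Real.pi * t : ℝ) : ℂ) * Complex.I := by
    push_cast; ring
  rw [ee, h, Complex.norm_exp_ofReal_mul_I]

private theorem ckb_ee_lip (s t : ℝ) : ‖ee s - ee t‖ ≤ 2 * Real.pi * |s - t| := by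
  have h : ee s - ee t =
      ee t * (Complex.exp (Complex.I * ((2 * Real.pi * (s - t) : ℝ) : ℂ)) - 1) := by
    rw [ee, ee, mul_sub, mul_one, ← Complex.exp_add]
    congr 2
    push_cast
    ring
  rw [h, norm_mul, ckb_ee_norm, one_mul]
  refine Real.norm_exp_I_mul_ofReal_sub_one_le.trans ?_
  rw [Real.norm_eq_abs, abs_mul, abs_of_nonneg (by positivity)]

private theorem ckb_wt {N : ℕ} (hN : 10 ≤ N) {A B : ℝ} (hA0 : 0 ≤ A)
    (hA : A ≤ 4 * ((N : ℝ) + 1) ^ 2) (hB : |B| ≤ 2 * ((N : ℝ) + 1) ^ 2) :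
    Wt N (fun y => if (N : ℝ) ^ 2 ≤ y then
      (((N : ℝ) ^ 2 / y * max 0 (1 - A / y) : ℝ) : ℂ) * ee (B / y) else 0) := by
  have hNr : (10 : ℝ) ≤ N := by exact_mod_cast hN
  have hM : (0 : ℝ) < (N : ℝ) ^ 2 := by positivity
  have f1 : ∀ y : ℝ, (N : ℝ) ^ 2 ≤ y → 0 ≤ (N : ℝ) ^ 2 / y ∧ (N : ℝ) ^ 2 / y ≤ 1 := by
    intro y hy
    have hy0 : 0 < y := lt_of_lt_of_le hM hy
    exact ⟨by positivity, (div_le_one hy0).2 hy⟩
  have f2 : ∀ y : ℝ, (N : ℝ) ^ 2 ≤ y → 0 ≤ max 0 (1 - A / y) ∧ max 0 (1 - A / y) ≤ 1 := by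
    intro y hy
    have hy0 : 0 < y := lt_of_lt_of_le hM hy
    have : 0 ≤ A / y := by positivity
    exact ⟨le_max_left _ _, max_le (by norm_num) (by linarith)⟩
  refine ⟨?_, ?_⟩
  · intro y
    by_cases hy : (N : ℝ) ^ 2 ≤ y
    · simp only [if_pos hy]
      rw [norm_mul, ckb_ee_norm, mul_one, Complex.norm_real, Real.norm_eq_abs,
        abs_of_nonneg (mul_nonneg (f1 y hy).1 (f2 y hy).1)]
      exact mul_le_one₀ (f1 y hy).2 (f2 y hy).1 (f2 y hy).2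
    · simp only [if_neg hy, norm_zero]
      norm_num
  · intro y z hy _ hz _
    simp only [if_pos hy, if_pos hz]
    have hy0 : 0 < y := lt_of_lt_of_le hM hy
    have hz0 : 0 < z := lt_of_lt_of_le hM hz
    obtain ⟨D, hD⟩ : ∃ D : ℝ, D = |1 / y - 1 / z| := ⟨_, rfl⟩
    have hD0 : 0 ≤ D := by rw [hD]; exact abs_nonneg _
    have hDle : D ≤ |y - z| / ((N : ℝ) ^ 2) ^ 2 := by
      have h1 : 1 / y - 1 / z = (z - y) / (y * z) := by field_simp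
      rw [hD, h1, abs_div, abs_sub_comm z y, abs_of_pos (mul_pos hy0 hz0), sq ((N : ℝ) ^ 2)]
      exact div_le_div_of_nonneg_left (abs_nonneg _) (by positivity)
        (mul_le_mul hy hz hM.le hy0.le)
    have e1 : |(N : ℝ) ^ 2 / y - (N : ℝ) ^ 2 / z| = (N : ℝ) ^ 2 * D := by
      rw [hD, ← abs_of_pos hM, ← abs_mul, abs_of_pos hM]
      congr 1
      ring
    have e2 : |max 0 (1 - A / y) - max 0 (1 - A / z)| ≤ A * D := by
      have h1 := abs_max_sub_max_le_abs (1 - A / y) (1 - A / z) 0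
      rw [max_comm (1 - A / y) 0, max_comm (1 - A / z) 0] at h1
      refine h1.trans (le_of_eq ?_)
      have h2 : 1 - A / y - (1 - A / z) = A * -(1 / y - 1 / z) := by ring
      rw [h2, abs_mul, abs_of_nonneg hA0, abs_neg, hD]
    have e3 : ‖ee (B / y) - ee (B / z)‖ ≤ 2 * Real.pi * (|B| * D) := by
      refine (ckb_ee_lip _ _).trans (le_of_eq ?_)
      have h2 : B / y - B / z = B * (1 / y - 1 / z) := by ring
      rw [h2, abs_mul, hD]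
    obtain ⟨p, hp⟩ : ∃ p : ℝ, p = (N : ℝ) ^ 2 / y := ⟨_, rfl⟩
    obtain ⟨p', hp'⟩ : ∃ p' : ℝ, p' = (N : ℝ) ^ 2 / z := ⟨_, rfl⟩
    obtain ⟨r, hr⟩ : ∃ r : ℝ, r = max 0 (1 - A / y) := ⟨_, rfl⟩
    obtain ⟨r', hr'⟩ : ∃ r' : ℝ, r' = max 0 (1 - A / z) := ⟨_, rfl⟩
    have a1 := f1 z hz
    have a2 := f2 y hy
    have a3 := f2 z hz
    rw [← hp, ← hp'] at e1
    rw [← hr, ← hr'] at e2
    rw [← hp'] at a1
    rw [← hr] at a2
    rw [← hr'] at a3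
    rw [← hp, ← hp', ← hr, ← hr']
    have key : ((p * r : ℝ) : ℂ) * ee (B / y) - ((p' * r' : ℝ) : ℂ) * ee (B / z) =
        (((p - p') * r : ℝ) : ℂ) * ee (B / y) + ((p' * (r - r') : ℝ) : ℂ) * ee (B / y) +
          ((p' * r' : ℝ) : ℂ) * (ee (B / y) - ee (B / z)) := by
      push_cast
      ring
    rw [key]
    have n1 : ‖(((p - p') * r : ℝ) : ℂ) * ee (B / y)‖ ≤ (N : ℝ) ^ 2 * D := by
      rw [norm_mul, ckb_ee_norm, mul_one, Complex.norm_real, Real.norm_eq_abs, abs_mul, e1,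
        abs_of_nonneg a2.1]
      exact mul_le_of_le_one_right (by positivity) a2.2
    have n2 : ‖((p' * (r - r') : ℝ) : ℂ) * ee (B / y)‖ ≤ A * D := by
      rw [norm_mul, ckb_ee_norm, mul_one, Complex.norm_real, Real.norm_eq_abs, abs_mul,
        abs_of_nonneg a1.1]
      exact (mul_le_of_le_one_left (abs_nonneg _) a1.2).trans e2
    have n3 : ‖((p' * r' : ℝ) : ℂ) * (ee (B / y) - ee (B / z))‖ ≤ 2 * Real.pi * (|B| * D) := by
      rw [norm_mul, Complex.norm_real, Real.norm_eq_abs, abs_mul, abs_of_nonneg a1.1,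
        abs_of_nonneg a3.1]
      refine (mul_le_of_le_one_left (norm_nonneg _) ?_).trans e3
      exact mul_le_one₀ a1.2 a3.1 a3.2
    refine (norm_add₃_le).trans ?_
    have hpi : Real.pi ≤ 4 := Real.pi_le_four
    have hpi0 : 0 < Real.pi := Real.pi_pos
    have b1 : 2 * Real.pi * (|B| * D) ≤ 8 * (2 * ((N : ℝ) + 1) ^ 2 * D) := by
      have h1 : |B| * D ≤ 2 * ((N : ℝ) + 1) ^ 2 * D := mul_le_mul_of_nonneg_right hB hD0
      have h2 : 2 * Real.pi ≤ 8 := by linarith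
      exact mul_le_mul h2 h1 (mul_nonneg (abs_nonneg _) hD0) (by norm_num)
    have b2 : A * D ≤ 4 * ((N : ℝ) + 1) ^ 2 * D := mul_le_mul_of_nonneg_right hA hD0
    have b3 : ((N : ℝ) + 1) ^ 2 ≤ 39 / 20 * (N : ℝ) ^ 2 := by nlinarith
    have b4 : ((N : ℝ) + 1) ^ 2 * D ≤ 39 / 20 * (N : ℝ) ^ 2 * D :=
      mul_le_mul_of_nonneg_right b3 hD0
    have b5 : (N : ℝ) ^ 2 * D ≤ 1 / (N : ℝ) ^ 2 * |y - z| := by
      have h1 := mul_le_mul_of_nonneg_left hDle hM.le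
      refine h1.trans (le_of_eq ?_)
      field_simp
    have b6 : 40 / (N : ℝ) ^ 2 * |y - z| = 40 * (1 / (N : ℝ) ^ 2 * |y - z|) := by ring
    rw [b6]
    nlinarith

private theorem n2_le_r2 {g : ℕ} (hg : 1 ≤ g) (N Q : ℕ) (c : ℕ → ℝ) :
    n2 (II N) (fun m => if g * m ∈ Ioc Q (2 * Q) then ((c (g * m) : ℝ) : ℂ) else 0) ≤
      r2 (Ioc Q (2 * Q)) c := by
  unfold n2 r2
  have h1 : ∑ m ∈ II N, ‖(fun m : ℕ => if g * m ∈ Ioc Q (2 * Q) then ((c (g * m) : ℝ) : ℂ) else 0) m‖ ^ 2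
      = ∑ m ∈ (II N).filter (fun m => g * m ∈ Ioc Q (2 * Q)), c (g * m) ^ 2 := by
    rw [sum_filter]
    refine sum_congr rfl fun m _ => ?_
    by_cases h : g * m ∈ Ioc Q (2 * Q)
    · simp only [if_pos h, Complex.norm_real, Real.norm_eq_abs, sq_abs]
    · simp only [if_neg h, norm_zero]
      norm_num
  rw [h1]
  have h2 : ∑ m ∈ (II N).filter (fun m => g * m ∈ Ioc Q (2 * Q)), c (g * m) ^ 2 =
      ∑ q ∈ ((II N).filter (fun m => g * m ∈ Ioc Q (2 * Q))).image (fun m => g * m), c q ^ 2 := by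
    rw [sum_image]
    intro a _ b _ hab
    exact Nat.eq_of_mul_eq_mul_left (by omega) hab
  rw [h2]
  refine sum_le_sum_of_subset_of_nonneg ?_ fun _ _ _ => sq_nonneg _
  intro q hq
  obtain ⟨m, hm, rfl⟩ := mem_image.1 hq
  exact (mem_filter.1 hm).2

theorem ckbT (hK : KT) (ε : ℝ) (hε : 0 < ε) : ∃ N0 : ℕ, ∀ x Q g : ℕ, 1 ≤ x → 1 ≤ g → N0 ≤ Q / g →
    1 ≤ 2 * Q ^ 2 / (g * x) →
    ((2 * Q ^ 2 / (g * x) : ℕ) : ℝ) ≤ ((Q / g : ℕ) : ℝ) ^ (1 / 14 - ε) →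
    ∀ a h1 : ℤ, h1 ≠ 0 → |a| ≤ x → (g : ℤ) * |h1| ≤ x → ∀ c c' : ℕ → ℝ,
    ‖∑ l ∈ (Icc (-((2 * Q ^ 2 / (g * x) : ℕ) : ℤ)) ((2 * Q ^ 2 / (g * x) : ℕ) : ℤ)).erase 0,
      ∑ n ∈ II (Q / g), ∑ m ∈ (II (Q / g)).filter (fun m => Nat.Coprime m n),
        (if g * m ∈ Ioc Q (2 * Q) ∧ g * n ∈ Ioc Q (2 * Q) then
          ((c (g * m) * c' (g * n) / ((g : ℝ) * m * n) *
            max 0 (1 - 2 * x * |(l : ℝ)| / ((g : ℝ) * m * n)) : ℝ) : ℂ) *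
            (ee ((l : ℝ) * a / ((g : ℝ) * m * n)) * kf n (l * h1) m)
        else 0)‖ ≤
      1 / ((g : ℝ) * ((Q / g : ℕ) : ℝ) ^ 2) * (((Q / g : ℕ) : ℝ) ^ (19 / 20 + ε) *
        ((2 * Q ^ 2 / (g * x) : ℕ) : ℝ) ^ ((7 : ℝ) / 10) *
          (Real.sqrt (r2 (Ioc Q (2 * Q)) c) * Real.sqrt (r2 (Ioc Q (2 * Q)) c'))) := by
  obtain ⟨N0, hK⟩ := hK ε hε
  refine ⟨max N0 10, ?_⟩
  intro x Q g hx hg hNN hM1 hMN a h1 hh1 ha hgh c c'
  obtain ⟨N, hNdef⟩ : ∃ N : ℕ, N = Q / g := ⟨_, rfl⟩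
  obtain ⟨M, hMdef⟩ : ∃ M : ℕ, M = 2 * Q ^ 2 / (g * x) := ⟨_, rfl⟩
  rw [← hNdef] at hNN hMN ⊢
  rw [← hMdef] at hM1 hMN ⊢
  have hN0 : N0 ≤ N := (le_max_left _ _).trans hNN
  have hN10 : 10 ≤ N := (le_max_right _ _).trans hNN
  have hNr : (10 : ℝ) ≤ N := by exact_mod_cast hN10
  have hgr : (1 : ℝ) ≤ g := by exact_mod_cast hg
  have hg0 : (0 : ℝ) < g := by linarith
  have hxr : (1 : ℝ) ≤ x := by exact_mod_cast hx
  have hx0 : (0 : ℝ) < x := by linarith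
  have hQlt : Q < g * (N + 1) := by
    rw [hNdef]
    exact Nat.lt_mul_div_succ Q (by omega)
  have hQr : (Q : ℝ) < g * (N + 1) := by exact_mod_cast hQlt
  have hQ0 : (0 : ℝ) ≤ Q := Nat.cast_nonneg _
  have hQ2 : (Q : ℝ) ^ 2 ≤ (g : ℝ) ^ 2 * ((N : ℝ) + 1) ^ 2 := by
    rw [← mul_pow]
    exact pow_le_pow_left₀ hQ0 hQr.le 2
  have hMgx : (M : ℝ) * g * x ≤ 2 * (Q : ℝ) ^ 2 := by
    have h2 : M * (g * x) ≤ 2 * Q ^ 2 := by
      rw [hMdef]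
      exact Nat.div_mul_le_self _ _
    have h3 : (M : ℝ) * (g * x) ≤ 2 * (Q : ℝ) ^ 2 := by exact_mod_cast h2
    linarith only [h3]
  have har : |(a : ℝ)| ≤ x := by exact_mod_cast ha
  have hhr : (g : ℝ) * |(h1 : ℝ)| ≤ x := by exact_mod_cast hgh
  -- the size of the frequency
  have hη : |h1| * (M : ℤ) ≤ 4 * (N : ℤ) ^ 2 := by
    have h2 : |(h1 : ℝ)| * (M : ℝ) ≤ 4 * (N : ℝ) ^ 2 := by
      have h3 : |(h1 : ℝ)| * (M : ℝ) * (g : ℝ) ^ 2 ≤ 2 * ((N : ℝ) + 1) ^ 2 * (g : ℝ) ^ 2 := by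
        calc |(h1 : ℝ)| * (M : ℝ) * (g : ℝ) ^ 2 = (M : ℝ) * g * (g * |(h1 : ℝ)|) := by ring
          _ ≤ (M : ℝ) * g * x := mul_le_mul_of_nonneg_left hhr (by positivity)
          _ ≤ 2 * (Q : ℝ) ^ 2 := hMgx
          _ ≤ 2 * ((g : ℝ) ^ 2 * ((N : ℝ) + 1) ^ 2) := by linarith
          _ = 2 * ((N : ℝ) + 1) ^ 2 * (g : ℝ) ^ 2 := by ring
      have h4 : |(h1 : ℝ)| * (M : ℝ) ≤ 2 * ((N : ℝ) + 1) ^ 2 :=
        le_of_mul_le_mul_right h3 (by positivity)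
      nlinarith
    exact_mod_cast h2
  obtain ⟨F, hF⟩ : ∃ F : ℤ → ℝ → ℂ, F = fun (l : ℤ) (y : ℝ) => if (N : ℝ) ^ 2 ≤ y then
      (((N : ℝ) ^ 2 / y * max 0 (1 - (2 * x * |(l : ℝ)| / g) / y) : ℝ) : ℂ) *
        ee (((l : ℝ) * a / g) / y) else 0 := ⟨_, rfl⟩
  have hlr : ∀ l ∈ (Icc (-(M : ℤ)) (M : ℤ)).erase 0, l ≠ 0 ∧ |l| ≤ M := by
    intro l hl
    rw [mem_erase, mem_Icc] at hl
    exact ⟨hl.1, abs_le.mpr hl.2⟩
  have hW : ∀ l ∈ (Icc (-(M : ℤ)) (M : ℤ)).erase 0, Wt N (F l) := by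
    intro l hl
    have hl2 : |(l : ℝ)| ≤ M := by exact_mod_cast (hlr l hl).2
    have hcr : |(l : ℝ)| * g * x ≤ 2 * (Q : ℝ) ^ 2 := by
      refine le_trans ?_ hMgx
      exact mul_le_mul_of_nonneg_right (mul_le_mul_of_nonneg_right hl2 hg0.le) hx0.le
    have hA0 : 0 ≤ 2 * x * |(l : ℝ)| / g := by positivity
    have hA1 : 2 * x * |(l : ℝ)| / g ≤ 4 * ((N : ℝ) + 1) ^ 2 := by
      rw [div_le_iff₀ hg0]
      have h3 : 2 * x * |(l : ℝ)| * g ≤ 4 * ((N : ℝ) + 1) ^ 2 * g * g := by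
        calc 2 * x * |(l : ℝ)| * g = 2 * (|(l : ℝ)| * g * x) := by ring
          _ ≤ 2 * (2 * (Q : ℝ) ^ 2) := by linarith
          _ ≤ 2 * (2 * ((g : ℝ) ^ 2 * ((N : ℝ) + 1) ^ 2)) := by linarith
          _ = 4 * ((N : ℝ) + 1) ^ 2 * g * g := by ring
      exact le_of_mul_le_mul_right h3 hg0
    have hB1 : |(l : ℝ) * a / g| ≤ 2 * ((N : ℝ) + 1) ^ 2 := by
      rw [abs_div, abs_mul, abs_of_pos hg0, div_le_iff₀ hg0]
      have h3 : |(l : ℝ)| * |(a : ℝ)| * g ≤ 2 * ((N : ℝ) + 1) ^ 2 * g * g := by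
        calc |(l : ℝ)| * |(a : ℝ)| * g = |(l : ℝ)| * g * |(a : ℝ)| := by ring
          _ ≤ |(l : ℝ)| * g * x := mul_le_mul_of_nonneg_left har (by positivity)
          _ ≤ 2 * (Q : ℝ) ^ 2 := hcr
          _ ≤ 2 * ((g : ℝ) ^ 2 * ((N : ℝ) + 1) ^ 2) := by linarith
          _ = 2 * ((N : ℝ) + 1) ^ 2 * g * g := by ring
      exact le_of_mul_le_mul_right h3 hg0
    rw [hF]
    exact ckb_wt hN10 hA0 hA1 hB1
  have hmain := hK N hN0 M hM1 hMN ((Icc (-(M : ℤ)) (M : ℤ)).erase 0) hlr h1 hh1 hη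
    (fun m => if g * m ∈ Ioc Q (2 * Q) then ((c (g * m) : ℝ) : ℂ) else 0)
    (fun n => if g * n ∈ Ioc Q (2 * Q) then ((c' (g * n) : ℝ) : ℂ) else 0)
    F hW
  have hsum : (∑ l ∈ (Icc (-(M : ℤ)) (M : ℤ)).erase 0,
      ∑ n ∈ II N, ∑ m ∈ (II N).filter (fun m => Nat.Coprime m n),
      (if g * m ∈ Ioc Q (2 * Q) ∧ g * n ∈ Ioc Q (2 * Q) then
        ((c (g * m) * c' (g * n) / ((g : ℝ) * m * n) *
          max 0 (1 - 2 * x * |(l : ℝ)| / ((g : ℝ) * m * n)) : ℝ) : ℂ) *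
          (ee ((l : ℝ) * a / ((g : ℝ) * m * n)) * kf n (l * h1) m)
      else 0)) =
      ((1 / ((g : ℝ) * (N : ℝ) ^ 2) : ℝ) : ℂ) *
      ∑ l ∈ (Icc (-(M : ℤ)) (M : ℤ)).erase 0,
      ∑ n ∈ II N, ∑ m ∈ (II N).filter (fun m => Nat.Coprime m n),
        (fun m : ℕ => if g * m ∈ Ioc Q (2 * Q) then ((c (g * m) : ℝ) : ℂ) else 0) m *
        (fun n : ℕ => if g * n ∈ Ioc Q (2 * Q) then ((c' (g * n) : ℝ) : ℂ) else 0) n *
        F l ((m : ℝ) * n) *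
        kf n (l * h1) m := by
    rw [mul_sum]
    refine sum_congr rfl fun l _ => ?_
    rw [mul_sum]
    refine sum_congr rfl fun n hn => ?_
    rw [mul_sum]
    refine sum_congr rfl fun m hm => ?_
    have hm' := (mem_filter.1 hm).1
    rw [II, mem_Ioc] at hn hm'
    have hnr : (N : ℝ) < n := by exact_mod_cast hn.1
    have hmr : (N : ℝ) < m := by exact_mod_cast hm'.1
    have hn0 : (0 : ℝ) < n := by linarith
    have hm0 : (0 : ℝ) < m := by linarith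
    have hmn : (N : ℝ) ^ 2 ≤ (m : ℝ) * n := by
      rw [sq]
      exact mul_le_mul hmr.le hnr.le (by linarith) hm0.le
    rw [hF]
    dsimp only
    rw [if_pos hmn]
    by_cases h1' : g * m ∈ Ioc Q (2 * Q)
    · by_cases h2' : g * n ∈ Ioc Q (2 * Q)
      · rw [if_pos ⟨h1', h2'⟩, if_pos h1', if_pos h2']
        have e1 : (2 * x * |(l : ℝ)| / g) / ((m : ℝ) * n) =
            2 * x * |(l : ℝ)| / ((g : ℝ) * m * n) := by
          rw [div_div, mul_assoc (g : ℝ)]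
        have e2 : ((l : ℝ) * a / g) / ((m : ℝ) * n) = (l : ℝ) * a / ((g : ℝ) * m * n) := by
          rw [div_div, mul_assoc (g : ℝ)]
        rw [e1, e2]
        obtain ⟨E, hE⟩ : ∃ E : ℂ, E = ee ((l : ℝ) * a / ((g : ℝ) * m * n)) := ⟨_, rfl⟩
        obtain ⟨K, hKd⟩ : ∃ K : ℂ, K = kf n (l * h1) m := ⟨_, rfl⟩
        obtain ⟨R, hR⟩ : ∃ R : ℝ, R = max 0 (1 - 2 * x * |(l : ℝ)| / ((g : ℝ) * m * n)) :=
          ⟨_, rfl⟩
        rw [← hE, ← hKd, ← hR]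
        have hnum : c (g * m) * c' (g * n) / ((g : ℝ) * m * n) * R =
            1 / ((g : ℝ) * (N : ℝ) ^ 2) *
              (c (g * m) * c' (g * n) * ((N : ℝ) ^ 2 / ((m : ℝ) * n) * R)) := by
          have hNz : (N : ℝ) ≠ 0 := by linarith
          field_simp
        rw [hnum]
        push_cast
        ring
      · rw [if_neg (fun h => h2' h.2), if_neg h2']
        ring
    · rw [if_neg (fun h => h1' h.1), if_neg h1']
      ring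
  rw [hsum, norm_mul, Complex.norm_real, Real.norm_eq_abs, abs_of_nonneg (by positivity)]
  refine mul_le_mul_of_nonneg_left (hmain.trans ?_) (by positivity)
  refine mul_le_mul_of_nonneg_left ?_ (by positivity)
  exact mul_le_mul (Real.sqrt_le_sqrt (n2_le_r2 hg N Q c)) (Real.sqrt_le_sqrt (n2_le_r2 hg N Q c'))
    (Real.sqrt_nonneg _) (Real.sqrt_nonneg _)

end Pool.Agent.H35.WT
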