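import Pool.Agent.H35.WT.Ub

/-!
# WT-Uc: all `g`

As `xk3` (Pool/Agent/H35/WL/Cc.lean; the private lemmas have to be copied) with `ckbT`.  For each
`g ∣ a' - a`, `g ≤ 2Q`: if `2Q² < g x` the term is zero; otherwise `A = 2Q²/(gx) ≥ 1`,
`N = Q/g ≥ x/(2Q) - 1` is large; with `ε'` small such that `θ (27/14 + ε') < 1`:
`A ≤ 2Q²/(gx) ≤ (Q/(2g))^{1/14 - ε'} ≤ N^{1/14 - ε'}` for large `x` (as `Q^{27/14 + ε'} ≤ x^{1-δ}`).
Only the `|l| ≤ A` contribute (`ckc_zero`).  The term of `g` is at most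
`(π² x/2) /(g N²) N^{19/20+ε'} A^{7/10} √√ ≤ 33 (g x)^{3/10} Q^{-3/5} (Q/g)^{19/20} x^{ε'} √√
≤ 33 x^{3/10 + ε'} Q^{7/20} √√` (`N ≥ Q/(2g)`).
-/

set_option autoImplicit false

namespace Pool.Agent.H35.WT

open Finset
open Pool.Agent.H80.KF
open Pool.Agent.H35.KL (n2 r2)

private theorem ckc_fej (x M : ℕ) (B : ℤ) (hx : 1 ≤ x) (hM : 1 ≤ M) (hB : (M : ℤ) ≤ B) (c : ℤ) :
    fej x M c - 1 = ∑ l ∈ (Icc (-B) B).erase 0,
      ((max 0 (1 - 2 * x * |(l : ℝ)| / M) : ℝ) : ℂ) * ee ((l : ℝ) * c / M) := by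
  have h0 : (0 : ℤ) ∈ Icc (-B) B := by
    rw [mem_Icc]
    omega
  have h1 : fej x M c = ∑ l ∈ Icc (-B) B,
      ((max 0 (1 - 2 * x * |(l : ℝ)| / M) : ℝ) : ℂ) * ee ((l : ℝ) * c / M) := by
    unfold fej
    apply sum_subset
    · intro l hl
      rw [mem_Icc] at hl ⊢
      omega
    · intro l _ hl
      rw [mem_Icc] at hl
      have h2 : (M : ℤ) ≤ |l| := by
        by_contra h3
        apply hl
        rw [not_le, abs_lt] at h3
        omega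
      have h3 : (M : ℝ) ≤ |(l : ℝ)| := by exact_mod_cast h2
      have h4 : (0 : ℝ) < M := by exact_mod_cast hM
      have h5 : (1 : ℝ) ≤ x := by exact_mod_cast hx
      have h6 : 1 ≤ 2 * x * |(l : ℝ)| / M := by
        rw [le_div_iff₀ h4]
        nlinarith [abs_nonneg (l : ℝ)]
      rw [max_eq_left (by linarith), Complex.ofReal_zero, zero_mul]
  rw [h1, ← add_sum_erase _ _ h0]
  simp [ee_zero]

private theorem ckc_group (Q : ℕ) (D : ℕ → Prop) [DecidablePred D] (T : ℕ → ℕ → ℂ) :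
    (∑ q ∈ Ioc Q (2 * Q), ∑ q' ∈ Ioc Q (2 * Q), if D (Nat.gcd q q') then T q q' else 0) =
      ∑ g ∈ Icc 1 (2 * Q), if D g then
        ∑ n ∈ II (Q / g), ∑ m ∈ (II (Q / g)).filter (fun m => Nat.Coprime m n),
          (if g * m ∈ Ioc Q (2 * Q) ∧ g * n ∈ Ioc Q (2 * Q) then T (g * m) (g * n) else 0)
      else 0 := by
  rw [← sum_product']
  have hmap : ∀ p ∈ Ioc Q (2 * Q) ×ˢ Ioc Q (2 * Q), Nat.gcd p.1 p.2 ∈ Icc 1 (2 * Q) := by
    intro p hp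
    rw [mem_product, mem_Ioc, mem_Ioc] at hp
    rw [mem_Icc]
    refine ⟨Nat.gcd_pos_of_pos_left _ (by omega), ?_⟩
    exact (Nat.gcd_le_left _ (by omega)).trans hp.1.2
  rw [← sum_fiberwise_of_maps_to hmap]
  refine sum_congr rfl fun g hg => ?_
  rw [mem_Icc] at hg
  by_cases hD : D g
  · rw [if_pos hD]
    have e1 : (∑ n ∈ II (Q / g), ∑ m ∈ (II (Q / g)).filter (fun m => Nat.Coprime m n),
        (if g * m ∈ Ioc Q (2 * Q) ∧ g * n ∈ Ioc Q (2 * Q) then T (g * m) (g * n) else 0)) =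
        ∑ p ∈ (II (Q / g) ×ˢ II (Q / g)).filter (fun p => Nat.Coprime p.2 p.1 ∧
          (g * p.2 ∈ Ioc Q (2 * Q) ∧ g * p.1 ∈ Ioc Q (2 * Q))), T (g * p.2) (g * p.1) := by
      rw [sum_filter, sum_product]
      refine sum_congr rfl fun n _ => ?_
      rw [sum_filter]
      refine sum_congr rfl fun m _ => ?_
      by_cases h1 : Nat.Coprime m n
      · rw [if_pos h1]
        by_cases h2 : g * m ∈ Ioc Q (2 * Q) ∧ g * n ∈ Ioc Q (2 * Q)
        · rw [if_pos h2, if_pos ⟨h1, h2⟩]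
        · rw [if_neg h2, if_neg (fun h => h2 h.2)]
      · rw [if_neg h1, if_neg (fun h => h1 h.1)]
    rw [e1]
    have e2 : ∀ p ∈ (Ioc Q (2 * Q) ×ˢ Ioc Q (2 * Q)).filter (fun p => Nat.gcd p.1 p.2 = g),
        (if D (Nat.gcd p.1 p.2) then T p.1 p.2 else 0) = T p.1 p.2 := by
      intro p hp
      rw [(mem_filter.mp hp).2, if_pos hD]
    rw [sum_congr rfl e2]
    have hg0 : 0 < g := hg.1
    refine sum_bij' (fun p _ => (p.2 / g, p.1 / g)) (fun p _ => (g * p.2, g * p.1)) ?_ ?_ ?_ ?_ ?_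
    · rintro ⟨q, q'⟩ hp
      rw [mem_filter, mem_product] at hp
      obtain ⟨⟨h1, h2⟩, h3⟩ := hp
      simp only at h1 h2 h3
      obtain ⟨m, hm⟩ : g ∣ q := h3 ▸ Nat.gcd_dvd_left q q'
      obtain ⟨n, hn⟩ : g ∣ q' := h3 ▸ Nat.gcd_dvd_right q q'
      have hm1 : q / g = m := by rw [hm, Nat.mul_div_cancel_left _ hg0]
      have hn1 : q' / g = n := by rw [hn, Nat.mul_div_cancel_left _ hg0]
      rw [mem_filter, mem_product]
      simp only [hm1, hn1]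
      rw [← hm, ← hn]
      have hII : ∀ m q : ℕ, q = g * m → q ∈ Ioc Q (2 * Q) → m ∈ II (Q / g) := by
        intro m q hq h
        rw [mem_Ioc] at h
        unfold II
        rw [mem_Ioc]
        have h5 : Q / g < m := by
          rw [Nat.div_lt_iff_lt_mul hg0, mul_comm, ← hq]
          exact h.1
        refine ⟨h5, ?_⟩
        by_contra h6
        push Not at h6
        have h7 : Q < g * (Q / g) + g := by
          have := Nat.lt_mul_div_succ Q hg0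
          rw [Nat.mul_add, mul_one] at this
          exact this
        have h8 : g * (2 * (Q / g) + 2) ≤ g * m := Nat.mul_le_mul_left _ (by omega)
        have h9 : g * (2 * (Q / g) + 2) = 2 * (g * (Q / g) + g) := by ring
        rw [← hq] at h8
        omega
      refine ⟨⟨hII n q' hn h2, hII m q hm h1⟩, ?_, h1, h2⟩
      have h10 : g * Nat.gcd m n = g := by
        rw [← Nat.gcd_mul_left, ← hm, ← hn, h3]
      exact Nat.eq_of_mul_eq_mul_left hg0 (by rw [h10, mul_one])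
    · rintro ⟨n, m⟩ hp
      rw [mem_filter, mem_product] at hp
      obtain ⟨-, h1, h2, h3⟩ := hp
      simp only at h1 h2 h3
      rw [mem_filter, mem_product]
      simp only
      refine ⟨⟨h2, h3⟩, ?_⟩
      rw [Nat.gcd_mul_left]
      have : Nat.gcd m n = 1 := h1
      rw [this, mul_one]
    · rintro ⟨q, q'⟩ hp
      rw [mem_filter, mem_product] at hp
      obtain ⟨⟨h1, h2⟩, h3⟩ := hp
      simp only at h1 h2 h3
      have hm : g ∣ q := h3 ▸ Nat.gcd_dvd_left q q'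
      have hn : g ∣ q' := h3 ▸ Nat.gcd_dvd_right q q'
      simp only
      rw [Nat.mul_div_cancel' hm, Nat.mul_div_cancel' hn]
    · rintro ⟨n, m⟩ _
      simp only
      rw [Nat.mul_div_cancel_left _ hg0, Nat.mul_div_cancel_left _ hg0]
    · rintro ⟨q, q'⟩ hp
      rw [mem_filter, mem_product] at hp
      obtain ⟨⟨h1, h2⟩, h3⟩ := hp
      simp only at h1 h2 h3
      have hm : g ∣ q := h3 ▸ Nat.gcd_dvd_left q q'
      have hn : g ∣ q' := h3 ▸ Nat.gcd_dvd_right q q'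
      simp only
      rw [Nat.mul_div_cancel' hm, Nat.mul_div_cancel' hn]
  · rw [if_neg hD]
    refine sum_eq_zero fun p hp => ?_
    rw [(mem_filter.mp hp).2, if_neg hD]

/-- the sum of one frequency -/
private noncomputable def ckcS (x Q g : ℕ) (c c' : ℕ → ℝ) (a h1 l : ℤ) : ℂ :=
  ∑ n ∈ II (Q / g), ∑ m ∈ (II (Q / g)).filter (fun m => Nat.Coprime m n),
    (if g * m ∈ Ioc Q (2 * Q) ∧ g * n ∈ Ioc Q (2 * Q) then
      ((c (g * m) * c' (g * n) / ((g : ℝ) * m * n) *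
        max 0 (1 - 2 * x * |(l : ℝ)| / ((g : ℝ) * m * n)) : ℝ) : ℂ) *
        (ee ((l : ℝ) * a / ((g : ℝ) * m * n)) * kf n (l * h1) m)
    else 0)

private theorem ckc_expand (x Q g : ℕ) (hx : 1 ≤ x) (hg : 1 ≤ g) (c c' : ℕ → ℝ) (a a' h1 : ℤ)
    (hh : (g : ℤ) * h1 = a' - a) (n0 : ℕ → ℕ → ℤ)
    (hn0 : ∀ q q' : ℕ, ((Nat.gcd q q' : ℕ) : ℤ) ∣ a' - a →
      (q : ℤ) ∣ n0 q q' - a ∧ (q' : ℤ) ∣ n0 q q' - a') :
    (∑ n ∈ II (Q / g), ∑ m ∈ (II (Q / g)).filter (fun m => Nat.Coprime m n),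
      (if g * m ∈ Ioc Q (2 * Q) ∧ g * n ∈ Ioc Q (2 * Q) then
        ((c (g * m) * c' (g * n) * (Real.pi ^ 2 * x / (2 * (Nat.lcm (g * m) (g * n) : ℕ))) : ℝ) : ℂ)
          * (fej x (Nat.lcm (g * m) (g * n)) (n0 (g * m) (g * n)) - 1)
      else 0)) =
      ∑ l ∈ (Icc (-(4 * (Q : ℤ) ^ 2)) (4 * (Q : ℤ) ^ 2)).erase 0,
        ((Real.pi ^ 2 * x / 2 : ℝ) : ℂ) * ckcS x Q g c c' a h1 l := by
  unfold ckcS
  simp_rw [mul_sum]
  rw [sum_comm]
  refine sum_congr rfl fun n hn => ?_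
  rw [sum_comm]
  refine sum_congr rfl fun m hm => ?_
  rw [mem_filter] at hm
  by_cases hq : g * m ∈ Ioc Q (2 * Q) ∧ g * n ∈ Ioc Q (2 * Q)
  swap
  · simp only [if_neg hq, mul_zero, sum_const_zero]
  simp only [if_pos hq]
  have hm1 : 1 ≤ m := by
    have := hm.1
    unfold II at this
    rw [mem_Ioc] at this
    omega
  have hn1 : 1 ≤ n := by
    unfold II at hn
    rw [mem_Ioc] at hn
    omega
  have hlcm : Nat.lcm (g * m) (g * n) = g * m * n := by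
    rw [Nat.lcm_mul_left, Nat.Coprime.lcm_eq_mul hm.2, mul_assoc]
  have hM1 : 1 ≤ g * m * n := Nat.mul_pos (Nat.mul_pos hg hm1) hn1
  have hMB : ((g * m * n : ℕ) : ℤ) ≤ 4 * (Q : ℤ) ^ 2 := by
    have h2 : g * m ≤ 2 * Q := (mem_Ioc.mp hq.1).2
    have h3 : g * n ≤ 2 * Q := (mem_Ioc.mp hq.2).2
    have h4 : n ≤ 2 * Q := le_trans (Nat.le_mul_of_pos_left n hg) h3
    have h5 : g * m * n ≤ 2 * Q * (2 * Q) := Nat.mul_le_mul h2 h4
    have h6 : 2 * Q * (2 * Q) = 4 * Q ^ 2 := by ring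
    rw [h6] at h5
    exact_mod_cast h5
  rw [hlcm, ckc_fej x (g * m * n) _ hx hM1 hMB, mul_sum]
  refine sum_congr rfl fun l _ => ?_
  have hgcd : ((Nat.gcd (g * m) (g * n) : ℕ) : ℤ) ∣ a' - a := by
    rw [Nat.gcd_mul_left]
    have h2 : Nat.gcd m n = 1 := hm.2
    rw [h2, mul_one]
    exact ⟨h1, hh.symm⟩
  obtain ⟨h2, h3⟩ := hn0 (g * m) (g * n) hgcd
  have hph := crt_phase g m n hg hm1 hn1 hm.2 a a' h1 (n0 (g * m) (g * n)) l hh h2 h3
  have hcast : ((g * m * n : ℕ) : ℝ) = (g : ℝ) * m * n := by push_cast; ring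
  rw [hcast, hph]
  have hgmn : ((g : ℝ) * m * n) ≠ 0 := by
    have h4 : (0 : ℝ) < ((g * m * n : ℕ) : ℝ) := by exact_mod_cast hM1
    rw [hcast] at h4
    exact h4.ne'
  have hre : (c (g * m) * c' (g * n) * (Real.pi ^ 2 * x / (2 * ((g : ℝ) * m * n)))) *
      max 0 (1 - 2 * x * |(l : ℝ)| / ((g : ℝ) * m * n)) =
      (Real.pi ^ 2 * x / 2) * (c (g * m) * c' (g * n) / ((g : ℝ) * m * n) *
        max 0 (1 - 2 * x * |(l : ℝ)| / ((g : ℝ) * m * n))) := by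
    field_simp
  have hre' : ((c (g * m) * c' (g * n) * (Real.pi ^ 2 * x / (2 * ((g : ℝ) * m * n))) : ℝ) : ℂ) *
      ((max 0 (1 - 2 * x * |(l : ℝ)| / ((g : ℝ) * m * n)) : ℝ) : ℂ) =
      ((Real.pi ^ 2 * x / 2 : ℝ) : ℂ) * ((c (g * m) * c' (g * n) / ((g : ℝ) * m * n) *
        max 0 (1 - 2 * x * |(l : ℝ)| / ((g : ℝ) * m * n)) : ℝ) : ℂ) := by
    rw [← Complex.ofReal_mul, hre, Complex.ofReal_mul]
  linear_combination (ee ((l : ℝ) * a / ((g : ℝ) * m * n)) * kf n (l * h1) m) * hre'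

private theorem ckc_zeroT (x Q g : ℕ) (hg : 1 ≤ g) (c c' : ℕ → ℝ)
    (a h1 l : ℤ) (hbig : 2 * Q ^ 2 < l.natAbs * (g * x)) : ckcS x Q g c c' a h1 l = 0 := by
  unfold ckcS
  refine sum_eq_zero fun n _ => sum_eq_zero fun m _ => ?_
  by_cases hq : g * m ∈ Ioc Q (2 * Q) ∧ g * n ∈ Ioc Q (2 * Q)
  swap
  · rw [if_neg hq]
  rw [if_pos hq]
  have h2 : Q < g * m ∧ g * m ≤ 2 * Q := mem_Ioc.mp hq.1
  have h3 : Q < g * n ∧ g * n ≤ 2 * Q := mem_Ioc.mp hq.2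
  have h4 : (g * m) * (g * n) ≤ (2 * Q) * (2 * Q) := Nat.mul_le_mul h2.2 h3.2
  have h5 : (g * m * n) * g < (2 * x * l.natAbs) * g := by
    calc (g * m * n) * g = (g * m) * (g * n) := by ring
      _ ≤ (2 * Q) * (2 * Q) := h4
      _ = 2 * (2 * Q ^ 2) := by ring
      _ < 2 * (l.natAbs * (g * x)) := by omega
      _ = (2 * x * l.natAbs) * g := by ring
  have h6 : g * m * n < 2 * x * l.natAbs := Nat.lt_of_mul_lt_mul_right h5
  have h7 : ((g : ℝ) * m * n) < 2 * x * (l.natAbs : ℝ) := by exact_mod_cast h6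
  have h8 : (0 : ℝ) < (g : ℝ) * m * n := by
    have hm : 0 < m := Nat.pos_of_ne_zero (by rintro rfl; omega)
    have hn : 0 < n := Nat.pos_of_ne_zero (by rintro rfl; omega)
    have : 0 < g * m * n := Nat.mul_pos (Nat.mul_pos hg hm) hn
    exact_mod_cast this
  have h9 : (l.natAbs : ℝ) = |(l : ℝ)| := by
    rw [Nat.cast_natAbs, Int.cast_abs]
  have h10 : 1 ≤ 2 * x * |(l : ℝ)| / ((g : ℝ) * m * n) := by
    rw [le_div_iff₀ h8, ← h9]
    linarith only [h7]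
  rw [max_eq_left (by linarith), mul_zero, Complex.ofReal_zero, zero_mul]

private theorem uc_exp (u v w e S : ℝ) (hw : 0 ≤ w) (hvu : v ≤ u) (hv : 0 ≤ v)
    (he : 0 ≤ e) (hS : 0 ≤ S) :
    Real.pi ^ 2 * Real.exp u / 2 * (4 / (Real.exp w * (Real.exp (v - w)) ^ 2) *
      ((Real.exp (v - w)) ^ (19 / 20 + e) *
        (2 * Real.exp (v + (v - w) - u)) ^ ((7 : ℝ) / 10) * S)) ≤
      40 * ((Real.exp u) ^ (3 / 10 + e) * (Real.exp v) ^ ((7 : ℝ) / 20)) * S := by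
  have h2 : (2 : ℝ) ^ ((7 : ℝ) / 10) ≤ 2 := by
    calc (2 : ℝ) ^ ((7 : ℝ) / 10) ≤ (2 : ℝ) ^ (1 : ℝ) :=
          Real.rpow_le_rpow_of_exponent_le (by norm_num) (by norm_num)
      _ = 2 := Real.rpow_one 2
  have h20 : (0 : ℝ) ≤ (2 : ℝ) ^ ((7 : ℝ) / 10) := Real.rpow_nonneg (by norm_num) _
  have hpi : Real.pi ^ 2 ≤ 10 := by
    have h2 := Real.pi_lt_d4
    have h3 := Real.pi_pos
    nlinarith only [h2, h3]
  rw [Real.mul_rpow (by norm_num) (Real.exp_pos _).le]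
  rw [← Real.exp_mul, ← Real.exp_mul, ← Real.exp_mul, ← Real.exp_mul, ← Real.exp_nat_mul]
  have e1 : (4 : ℝ) / (Real.exp w * Real.exp ((2 : ℕ) * (v - w))) =
      4 * Real.exp (-(w + (2 : ℕ) * (v - w))) := by
    rw [Real.exp_neg, Real.exp_add]
    rfl
  rw [e1]
  have e2 : Real.pi ^ 2 * Real.exp u / 2 * (4 * Real.exp (-(w + (2 : ℕ) * (v - w))) *
      (Real.exp ((v - w) * (19 / 20 + e)) *
        ((2 : ℝ) ^ ((7 : ℝ) / 10) * Real.exp ((v + (v - w) - u) * (7 / 10))) * S)) =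
      (Real.pi ^ 2 * (2 * (2 : ℝ) ^ ((7 : ℝ) / 10))) *
        (Real.exp (u + (-(w + (2 : ℕ) * (v - w))) + (v - w) * (19 / 20 + e) +
          (v + (v - w) - u) * (7 / 10)) * S) := by
    rw [Real.exp_add, Real.exp_add, Real.exp_add]
    ring
  rw [e2, ← Real.exp_add]
  have h3 : Real.exp (u + (-(w + (2 : ℕ) * (v - w))) + (v - w) * (19 / 20 + e) +
          (v + (v - w) - u) * (7 / 10)) ≤ Real.exp (u * (3 / 10 + e) + v * (7 / 20)) := by
    apply Real.exp_le_exp.mpr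
    push_cast
    nlinarith [mul_nonneg hw he, mul_nonneg (sub_nonneg.mpr hvu) he]
  calc (Real.pi ^ 2 * (2 * (2 : ℝ) ^ ((7 : ℝ) / 10))) *
        (Real.exp (u + (-(w + (2 : ℕ) * (v - w))) + (v - w) * (19 / 20 + e) +
          (v + (v - w) - u) * (7 / 10)) * S)
      ≤ 40 * (Real.exp (u * (3 / 10 + e) + v * (7 / 20)) * S) := by
        apply mul_le_mul
        · nlinarith [sq_nonneg Real.pi]
        · exact mul_le_mul_of_nonneg_right h3 hS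
        · exact mul_nonneg (Real.exp_pos _).le hS
        · norm_num
    _ = 40 * Real.exp (u * (3 / 10 + e) + v * (7 / 20)) * S := by ring

private theorem uc_real (x Q g N A e S : ℝ) (hx : 1 ≤ x) (hQ : 1 ≤ Q) (hg : 1 ≤ g) (hN : 1 ≤ N)
    (hNR : N ≤ Q / g) (hRN : Q / g ≤ 2 * N) (hA : 0 ≤ A) (hA2 : A ≤ 2 * Q ^ 2 / (g * x))
    (hQx : Q ≤ x) (he : 0 ≤ e) (hS : 0 ≤ S) :
    Real.pi ^ 2 * x / 2 * (1 / (g * N ^ 2) * (N ^ (19 / 20 + e) * A ^ ((7 : ℝ) / 10) * S)) ≤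
      40 * (x ^ (3 / 10 + e) * Q ^ ((7 : ℝ) / 20)) * S := by
  obtain ⟨u, hu⟩ : ∃ u, Real.exp u = x := ⟨Real.log x, Real.exp_log (by linarith)⟩
  obtain ⟨v, hv⟩ : ∃ v, Real.exp v = Q := ⟨Real.log Q, Real.exp_log (by linarith)⟩
  obtain ⟨w, hw⟩ : ∃ w, Real.exp w = g := ⟨Real.log g, Real.exp_log (by linarith)⟩
  have hw0 : 0 ≤ w := by
    rw [← Real.exp_le_exp, Real.exp_zero, hw]
    exact hg
  have hv0 : 0 ≤ v := by
    rw [← Real.exp_le_exp, Real.exp_zero, hv]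
    exact hQ
  have hvu : v ≤ u := by
    rw [← Real.exp_le_exp, hv, hu]
    exact hQx
  have hR : Real.exp (v - w) = Q / g := by rw [Real.exp_sub, hv, hw]
  have hA3 : 2 * Real.exp (v + (v - w) - u) = 2 * Q ^ 2 / (g * x) := by
    rw [Real.exp_sub, Real.exp_add, hR, hv, hu]
    field_simp
  have h1 := uc_exp u v w e S hw0 hvu hv0 he hS
  rw [hA3, hR, hu, hv, hw] at h1
  refine le_trans ?_ h1
  have hg0 : 0 < g := by linarith
  have hR0 : 0 < Q / g := by positivity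
  apply mul_le_mul_of_nonneg_left _ (by positivity)
  have b1 : 1 / (g * N ^ 2) ≤ 4 / (g * (Q / g) ^ 2) := by
    rw [div_le_div_iff₀ (by positivity) (by positivity)]
    have h2 : (Q / g) ^ 2 ≤ (2 * N) ^ 2 := pow_le_pow_left₀ hR0.le hRN 2
    nlinarith [mul_le_mul_of_nonneg_left h2 hg0.le]
  have b2 : N ^ (19 / 20 + e) ≤ (Q / g) ^ (19 / 20 + e) :=
    Real.rpow_le_rpow (by linarith) hNR (by linarith)
  have b3 : A ^ ((7 : ℝ) / 10) ≤ (2 * Q ^ 2 / (g * x)) ^ ((7 : ℝ) / 10) :=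
    Real.rpow_le_rpow hA hA2 (by norm_num)
  have n1 : 0 ≤ N ^ (19 / 20 + e) := Real.rpow_nonneg (by linarith) _
  have n2 : 0 ≤ A ^ ((7 : ℝ) / 10) := Real.rpow_nonneg hA _
  have n3 : 0 ≤ (Q / g) ^ (19 / 20 + e) := Real.rpow_nonneg hR0.le _
  exact mul_le_mul b1 (mul_le_mul_of_nonneg_right (mul_le_mul b2 b3 n2 n3) hS)
    (mul_nonneg (mul_nonneg n1 n2) hS) (by positivity)

theorem xkT (hK : KT) (θ : ℝ) (h0 : 1 / 2 ≤ θ) (h1 : θ < 14 / 27) (ε : ℝ) (hε : 0 < ε) :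
    ∃ x0 : ℕ, ∀ x Q : ℕ, x0 ≤ x →
    1 ≤ Q → (Q : ℝ) ≤ (x : ℝ) ^ θ → ∀ a a' : ℤ, a ≠ a' → |a| ≤ x → |a'| ≤ x →
    |a' - a| ≤ x → ∀ c c' : ℕ → ℝ, ∀ n0 : ℕ → ℕ → ℤ,
    (∀ q q' : ℕ, ((Nat.gcd q q' : ℕ) : ℤ) ∣ a' - a →
      (q : ℤ) ∣ n0 q q' - a ∧ (q' : ℤ) ∣ n0 q q' - a') →
    ‖XK x Q c c' a a' n0‖ ≤ (tau (a' - a).natAbs : ℝ) *
      ((x : ℝ) ^ (3 / 10 + ε) * (Q : ℝ) ^ ((7 : ℝ) / 20)) *
      (Real.sqrt (r2 (Ioc Q (2 * Q)) c) * Real.sqrt (r2 (Ioc Q (2 * Q)) c')) := by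
  obtain ⟨ε', hε'⟩ : ∃ e : ℝ, e = min (ε / 2) (min (1 / 28) (1 - 27 * θ / 14)) := ⟨_, rfl⟩
  have hδ0 : 0 < 1 - 27 * θ / 14 := by linarith
  have he0 : 0 < ε' := by
    rw [hε']
    exact lt_min (by linarith) (lt_min (by norm_num) hδ0)
  have he1 : ε' ≤ ε / 2 := by
    rw [hε']
    exact min_le_left _ _
  have he2 : ε' ≤ 1 / 28 := by
    rw [hε']
    exact (min_le_right _ _).trans (min_le_left _ _)
  have he3 : ε' ≤ 1 - 27 * θ / 14 := by
    rw [hε']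
    exact (min_le_right _ _).trans (min_le_right _ _)
  have hδ : 0 < 1 - θ * (2 - (1 / 14 - ε')) := by
    nlinarith only [he3, he0, h0, h1, hδ0]
  obtain ⟨N0, hckb⟩ := ckbT hK ε' he0
  set N1 : ℕ := max N0 100 with hN1
  -- large `x`
  obtain ⟨X1, hX1⟩ : ∃ X1 : ℕ, ∀ x : ℕ, X1 ≤ x → (4 : ℝ) ≤ (x : ℝ) ^ (1 - θ * (2 - (1 / 14 - ε'))) := by
    have h2 := ((tendsto_rpow_atTop hδ).comp tendsto_natCast_atTop_atTop).eventually_ge_atTop 4
    rw [Filter.eventually_atTop] at h2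
    exact h2
  obtain ⟨X2, hX2⟩ : ∃ X2 : ℕ, ∀ x : ℕ, X2 ≤ x → (40 : ℝ) ≤ (x : ℝ) ^ (ε / 2) := by
    have h2 := ((tendsto_rpow_atTop (half_pos hε)).comp
      tendsto_natCast_atTop_atTop).eventually_ge_atTop 40
    rw [Filter.eventually_atTop] at h2
    exact h2
  refine ⟨max ((2 * N1) ^ 3) (max X1 X2), ?_⟩
  intro x Q hxm hQ hQx a a' haa ha ha' hd c c' n0 hn0
  have hx : (2 * N1) ^ 3 ≤ x := (le_max_left _ _).trans hxm
  have hx4 := hX1 x ((le_max_left _ _).trans ((le_max_right _ _).trans hxm))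
  have hx40 := hX2 x ((le_max_right _ _).trans ((le_max_right _ _).trans hxm))
  obtain ⟨S, hS⟩ : ∃ S : ℝ, S = Real.sqrt (r2 (Ioc Q (2 * Q)) c) * Real.sqrt (r2 (Ioc Q (2 * Q)) c') :=
    ⟨_, rfl⟩
  have hS0 : 0 ≤ S := by
    rw [hS]
    exact mul_nonneg (Real.sqrt_nonneg _) (Real.sqrt_nonneg _)
  rw [← hS]
  have hN1100 : 100 ≤ N1 := le_max_right _ _
  have hx1 : 1 ≤ x := le_trans (Nat.one_le_pow _ _ (by omega)) hx
  have hxr : (1 : ℝ) ≤ x := by exact_mod_cast hx1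
  have hx0 : (0 : ℝ) < x := by linarith
  have hQ0 : (0 : ℝ) < Q := by exact_mod_cast hQ
  have hQ1 : (1 : ℝ) ≤ Q := by exact_mod_cast hQ
  have hQx35 : (Q : ℝ) ≤ (x : ℝ) ^ ((3 : ℝ) / 5) :=
    hQx.trans (Real.rpow_le_rpow_of_exponent_le hxr (by linarith))
  have hQxx : (Q : ℝ) ≤ x := by
    refine hQx.trans ?_
    calc (x : ℝ) ^ θ ≤ (x : ℝ) ^ (1 : ℝ) := Real.rpow_le_rpow_of_exponent_le hxr (by linarith)
      _ = x := Real.rpow_one _
  -- the size of x^(2/5)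
  have hpow : 2 * (N1 : ℝ) ≤ (x : ℝ) ^ ((2 : ℝ) / 5) := by
    have h1 : ((2 * N1 : ℕ) : ℝ) ^ 3 ≤ x := by exact_mod_cast hx
    have h2 : ((2 * N1 : ℕ) : ℝ) = (((2 * N1 : ℕ) : ℝ) ^ 3) ^ ((1 : ℝ) / 3) := by
      rw [← Real.rpow_natCast, ← Real.rpow_mul (by positivity)]
      norm_num
    have h3 : (((2 * N1 : ℕ) : ℝ) ^ 3) ^ ((1 : ℝ) / 3) ≤ (x : ℝ) ^ ((1 : ℝ) / 3) :=
      Real.rpow_le_rpow (by positivity) h1 (by norm_num)
    have h4 : (x : ℝ) ^ ((1 : ℝ) / 3) ≤ (x : ℝ) ^ ((2 : ℝ) / 5) :=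
      Real.rpow_le_rpow_of_exponent_le hxr (by norm_num)
    have h5 : ((2 * N1 : ℕ) : ℝ) = 2 * (N1 : ℝ) := by push_cast; ring
    rw [← h5, h2]
    exact h3.trans h4
  have hxQ : 2 * (N1 : ℝ) * Q ≤ x := by
    have h1 : (x : ℝ) ^ ((2 : ℝ) / 5) * (x : ℝ) ^ ((3 : ℝ) / 5) = x := by
      rw [← Real.rpow_add hx0]
      norm_num
    calc 2 * (N1 : ℝ) * Q ≤ (x : ℝ) ^ ((2 : ℝ) / 5) * (x : ℝ) ^ ((3 : ℝ) / 5) :=
          mul_le_mul hpow hQx35 hQ0.le (by positivity)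
      _ = x := h1
  -- `4 Q^(2-e) ≤ x`
  have h4Q : 4 * (Q : ℝ) ^ (2 - (1 / 14 - ε')) ≤ x := by
    have h2 : (Q : ℝ) ^ (2 - (1 / 14 - ε')) ≤ (x : ℝ) ^ (θ * (2 - (1 / 14 - ε'))) := by
      rw [Real.rpow_mul hx0.le]
      exact Real.rpow_le_rpow hQ0.le hQx (by linarith)
    calc 4 * (Q : ℝ) ^ (2 - (1 / 14 - ε'))
        ≤ (x : ℝ) ^ (1 - θ * (2 - (1 / 14 - ε'))) * (x : ℝ) ^ (θ * (2 - (1 / 14 - ε'))) :=
          mul_le_mul hx4 h2 (Real.rpow_nonneg hQ0.le _) (Real.rpow_nonneg hx0.le _)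
      _ = x := by
          rw [← Real.rpow_add hx0, sub_add_cancel, Real.rpow_one]
  -- regroup
  have hXK : XK x Q c c' a a' n0 = ∑ g ∈ Icc 1 (2 * Q), if ((g : ℕ) : ℤ) ∣ a' - a then
        ∑ n ∈ II (Q / g), ∑ m ∈ (II (Q / g)).filter (fun m => Nat.Coprime m n),
          (if g * m ∈ Ioc Q (2 * Q) ∧ g * n ∈ Ioc Q (2 * Q) then
            ((c (g * m) * c' (g * n) *
              (Real.pi ^ 2 * x / (2 * (Nat.lcm (g * m) (g * n) : ℕ))) : ℝ) : ℂ)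
              * (fej x (Nat.lcm (g * m) (g * n)) (n0 (g * m) (g * n)) - 1)
          else 0)
      else 0 := by
    unfold XK
    exact ckc_group Q (fun g => ((g : ℕ) : ℤ) ∣ a' - a) (fun q q' =>
      ((c q * c' q' * (Real.pi ^ 2 * x / (2 * (Nat.lcm q q' : ℕ))) : ℝ) : ℂ) *
        (fej x (Nat.lcm q q') (n0 q q') - 1))
  rw [hXK]
  refine (norm_sum_le _ _).trans ?_
  obtain ⟨B, hB⟩ : ∃ B : ℝ, B = (x : ℝ) ^ (3 / 10 + ε) * (Q : ℝ) ^ ((7 : ℝ) / 20) := ⟨_, rfl⟩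
  have hB0 : 0 ≤ B := by
    rw [hB]
    positivity
  rw [← hB]
  have hE : ∀ g ∈ Icc 1 (2 * Q), ‖(if ((g : ℕ) : ℤ) ∣ a' - a then
        ∑ n ∈ II (Q / g), ∑ m ∈ (II (Q / g)).filter (fun m => Nat.Coprime m n),
          (if g * m ∈ Ioc Q (2 * Q) ∧ g * n ∈ Ioc Q (2 * Q) then
            ((c (g * m) * c' (g * n) *
              (Real.pi ^ 2 * x / (2 * (Nat.lcm (g * m) (g * n) : ℕ))) : ℝ) : ℂ)
              * (fej x (Nat.lcm (g * m) (g * n)) (n0 (g * m) (g * n)) - 1)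
          else 0)
      else 0)‖ ≤ (if ((g : ℕ) : ℤ) ∣ a' - a then B * S else 0) := by
    intro g hg
    rw [mem_Icc] at hg
    have hg0 : (0 : ℝ) < g := by exact_mod_cast hg.1
    have hg1 : (1 : ℝ) ≤ g := by exact_mod_cast hg.1
    have hRnn : 0 ≤ B * S := mul_nonneg hB0 hS0
    by_cases hdv : ((g : ℕ) : ℤ) ∣ a' - a
    swap
    · rw [if_neg hdv, if_neg hdv, norm_zero]
    rw [if_pos hdv, if_pos hdv]
    obtain ⟨h1, hh⟩ := hdv
    have hh1 : (g : ℤ) * h1 = a' - a := hh.symm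
    have hh0 : h1 ≠ 0 := by
      rintro rfl
      rw [mul_zero] at hh1
      exact haa (by linarith only [hh])
    rw [ckc_expand x Q g hx1 hg.1 c c' a a' h1 hh1 n0 hn0]
    -- reduce to `|l| ≤ Mn`
    obtain ⟨Mn, hMn⟩ : ∃ Mn : ℕ, Mn = 2 * Q ^ 2 / (g * x) := ⟨_, rfl⟩
    have hgx : 0 < g * x := Nat.mul_pos hg.1 hx1
    have hred : ∑ l ∈ (Icc (-(4 * (Q : ℤ) ^ 2)) (4 * (Q : ℤ) ^ 2)).erase 0,
          ((Real.pi ^ 2 * x / 2 : ℝ) : ℂ) * ckcS x Q g c c' a h1 l =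
        ((Real.pi ^ 2 * x / 2 : ℝ) : ℂ) *
          ∑ l ∈ (Icc (-(Mn : ℤ)) (Mn : ℤ)).erase 0, ckcS x Q g c c' a h1 l := by
      rw [mul_sum]
      symm
      apply sum_subset
      · intro l hl
        rw [mem_erase, mem_Icc] at hl ⊢
        have h2 : (Mn : ℤ) ≤ 4 * (Q : ℤ) ^ 2 := by
          have h3 : Mn ≤ 4 * Q ^ 2 := by
            rw [hMn]
            refine (Nat.div_le_self _ _).trans ?_
            exact Nat.mul_le_mul_right _ (by norm_num)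
          exact_mod_cast h3
        refine ⟨hl.1, ?_, ?_⟩
        · linarith only [hl.2.1, h2]
        · linarith only [hl.2.2, h2]
      · intro l hl hl2
        rw [mem_erase] at hl
        have h2 : Mn < l.natAbs := by
          by_contra h3
          apply hl2
          rw [mem_erase, mem_Icc]
          refine ⟨hl.1, ?_⟩
          omega
        have h3 : 2 * Q ^ 2 < l.natAbs * (g * x) := by
          rw [hMn] at h2
          exact (Nat.div_lt_iff_lt_mul hgx).mp h2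
        rw [ckc_zeroT x Q g hg.1 c c' a h1 l h3, mul_zero]
    rw [hred, norm_mul, Complex.norm_real, Real.norm_of_nonneg (by positivity)]
    rcases Nat.eq_zero_or_pos Mn with hM0 | hM1
    · have h2 : (Icc (-(Mn : ℤ)) (Mn : ℤ)).erase 0 = ∅ := by
        rw [hM0]
        ext l
        rw [mem_erase, mem_Icc]
        constructor
        · rintro ⟨h3, h4, h5⟩
          exfalso
          apply h3
          push_cast at h4 h5
          omega
        · intro h3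
          exact absurd h3 (notMem_empty _)
      rw [h2, sum_empty, norm_zero, mul_zero]
      exact hRnn
    have hbig : g * x ≤ 2 * Q ^ 2 := by
      by_contra h3
      push Not at h3
      rw [hMn, Nat.div_eq_of_lt h3] at hM1
      exact absurd hM1 (lt_irrefl _)
    have hbigr : (g : ℝ) * x ≤ 2 * (Q : ℝ) ^ 2 := by exact_mod_cast hbig
    have hNg : N1 ≤ Q / g := by
      rw [Nat.le_div_iff_mul_le hg.1]
      have h2 : (N1 : ℝ) * g ≤ Q := by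
        have h3 : (g : ℝ) * (2 * N1 * Q) ≤ 2 * (Q : ℝ) ^ 2 :=
          (mul_le_mul_of_nonneg_left hxQ hg0.le).trans hbigr
        have h4 : ((N1 : ℝ) * g) * (2 * Q) ≤ Q * (2 * Q) := by nlinarith only [h3]
        exact le_of_mul_le_mul_right h4 (by positivity)
      exact_mod_cast h2
    obtain ⟨N, hN⟩ : ∃ N : ℕ, N = Q / g := ⟨_, rfl⟩
    have hNg' : N1 ≤ N := by rw [hN]; exact hNg
    have hN100 : 100 ≤ N := hN1100.trans hNg'
    have hNr : (100 : ℝ) ≤ N := by exact_mod_cast hN100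
    have hNpos : (0 : ℝ) < N := by linarith
    have hghx : (g : ℤ) * |h1| ≤ x := by
      have h2 : (g : ℤ) * |h1| = |a' - a| := by
        rw [← hh1, abs_mul, Nat.abs_cast]
      rw [h2]
      exact hd
    have hMr : (Mn : ℝ) ≤ 2 * (Q : ℝ) ^ 2 / (g * x) := by
      have h2 : ((2 * Q ^ 2 / (g * x) : ℕ) : ℝ) ≤ ((2 * Q ^ 2 : ℕ) : ℝ) / ((g * x : ℕ) : ℝ) :=
        Nat.cast_div_le
      push_cast at h2
      rw [hMn]
      push_cast
      exact h2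
    have hQN : (Q : ℝ) / g ≤ N + 1 := by
      rw [div_le_iff₀ hg0]
      have h2 : Q < g * (N + 1) := by
        rw [hN]
        exact Nat.lt_mul_div_succ Q hg.1
      have h3 : (Q : ℝ) < g * (N + 1) := by exact_mod_cast h2
      linarith only [h3]
    have hNQ : (N : ℝ) ≤ Q / g := by
      rw [hN]
      exact Nat.cast_div_le
    have hQ2N : (Q : ℝ) / g ≤ 2 * N := by linarith
    -- the condition on `A`
    have hcond : (Mn : ℝ) ≤ (N : ℝ) ^ (1 / 14 - ε') := by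
      obtain ⟨e, he⟩ : ∃ e : ℝ, e = 1 / 14 - ε' := ⟨_, rfl⟩
      rw [← he] at h4Q ⊢
      have e0 : 0 ≤ e := by linarith
      have e1 : e ≤ 1 := by linarith
      have h2 : (Q : ℝ) / (2 * g) ≤ N := by
        rw [div_le_iff₀ (by positivity)]
        rw [div_le_iff₀ hg0] at hQ2N
        linarith only [hQ2N]
      have h3 : ((Q : ℝ) / (2 * g)) ^ e ≤ (N : ℝ) ^ e :=
        Real.rpow_le_rpow (by positivity) h2 e0
      refine hMr.trans (le_trans ?_ h3)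
      rw [Real.div_rpow hQ0.le (by positivity)]
      have h5 : (2 * (g : ℝ)) ^ e ≤ 2 * g := by
        calc (2 * (g : ℝ)) ^ e ≤ (2 * (g : ℝ)) ^ (1 : ℝ) :=
              Real.rpow_le_rpow_of_exponent_le (by linarith) e1
          _ = 2 * g := Real.rpow_one _
      have h6 : (0 : ℝ) < (2 * (g : ℝ)) ^ e := Real.rpow_pos_of_pos (by positivity) _
      have h7 : (Q : ℝ) ^ e / (2 * g) ≤ (Q : ℝ) ^ e / (2 * (g : ℝ)) ^ e :=
        div_le_div_of_nonneg_left (Real.rpow_nonneg hQ0.le _) h6 h5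
      refine le_trans ?_ h7
      rw [div_le_div_iff₀ (by positivity) (by positivity)]
      have h8 : (Q : ℝ) ^ 2 = (Q : ℝ) ^ (2 - e) * (Q : ℝ) ^ e := by
        rw [← Real.rpow_add hQ0, sub_add_cancel, Real.rpow_two]
      have h9 : 0 ≤ (Q : ℝ) ^ e := Real.rpow_nonneg hQ0.le _
      calc 2 * (Q : ℝ) ^ 2 * (2 * g) = (4 * (Q : ℝ) ^ (2 - e)) * ((Q : ℝ) ^ e * g) := by
            rw [h8]
            ring
        _ ≤ x * ((Q : ℝ) ^ e * g) := mul_le_mul_of_nonneg_right h4Q (by positivity)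
        _ = (Q : ℝ) ^ e * (g * x) := by ring
    have h9 := hckb x Q g hx1 hg.1 ((le_max_left _ _).trans hNg)
      (by rw [← hMn]; exact hM1) (by rw [← hMn, ← hN]; exact hcond) a h1 hh0 ha hghx c c'
    rw [← hMn, ← hS] at h9
    have h10 : ‖∑ l ∈ (Icc (-(Mn : ℤ)) (Mn : ℤ)).erase 0, ckcS x Q g c c' a h1 l‖ ≤
        1 / ((g : ℝ) * (N : ℝ) ^ 2) * ((N : ℝ) ^ (19 / 20 + ε') * (Mn : ℝ) ^ ((7 : ℝ) / 10) * S) := by
      rw [hN]
      exact h9
    refine (mul_le_mul_of_nonneg_left h10 (by positivity)).trans ?_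
    refine (uc_real x Q g N Mn ε' S hxr hQ1 hg1 (by linarith) hNQ hQ2N (Nat.cast_nonneg _) hMr
      hQxx he0.le hS0).trans ?_
    refine mul_le_mul_of_nonneg_right ?_ hS0
    rw [hB]
    have h11 : (40 : ℝ) * (x : ℝ) ^ (3 / 10 + ε') ≤ (x : ℝ) ^ (3 / 10 + ε) := by
      calc (40 : ℝ) * (x : ℝ) ^ (3 / 10 + ε')
          ≤ (x : ℝ) ^ (ε / 2) * (x : ℝ) ^ (3 / 10 + ε') :=
            mul_le_mul_of_nonneg_right hx40 (Real.rpow_nonneg hx0.le _)
        _ = (x : ℝ) ^ (ε / 2 + (3 / 10 + ε')) := by rw [← Real.rpow_add hx0]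
        _ ≤ (x : ℝ) ^ (3 / 10 + ε) :=
            Real.rpow_le_rpow_of_exponent_le hxr (by linarith)
    have h12 : 0 ≤ (Q : ℝ) ^ ((7 : ℝ) / 20) := Real.rpow_nonneg hQ0.le _
    calc 40 * ((x : ℝ) ^ (3 / 10 + ε') * (Q : ℝ) ^ ((7 : ℝ) / 20))
        = (40 * (x : ℝ) ^ (3 / 10 + ε')) * (Q : ℝ) ^ ((7 : ℝ) / 20) := by ring
      _ ≤ (x : ℝ) ^ (3 / 10 + ε) * (Q : ℝ) ^ ((7 : ℝ) / 20) :=
          mul_le_mul_of_nonneg_right h11 h12
  refine (sum_le_sum hE).trans ?_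
  rw [← sum_filter, sum_const, nsmul_eq_mul]
  have hcard : (((Icc 1 (2 * Q)).filter (fun g : ℕ => ((g : ℕ) : ℤ) ∣ a' - a)).card : ℝ) ≤
      (tau (a' - a).natAbs : ℝ) := by
    have h2 : (Icc 1 (2 * Q)).filter (fun g : ℕ => ((g : ℕ) : ℤ) ∣ a' - a) ⊆
        (a' - a).natAbs.divisors := by
      intro g hg
      rw [mem_filter] at hg
      rw [Nat.mem_divisors]
      refine ⟨Int.natCast_dvd.1 hg.2, ?_⟩
      intro h3
      exact haa (sub_eq_zero.1 (Int.natAbs_eq_zero.1 h3)).symm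
    have h3 := card_le_card h2
    unfold tau
    exact_mod_cast h3
  have h2 : 0 ≤ B * S := mul_nonneg hB0 hS0
  have h3 := mul_le_mul_of_nonneg_right hcard h2
  linarith only [h3]

end Pool.Agent.H35.WT
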