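import Pool.Agent.H35.WT.Ua
import Pool.Agent.H35.WT.Tb
import Pool.Agent.H35.WL.Ew

/-!
# The region `27θ + 20κ < 14`
-/

set_option autoImplicit false

namespace Pool.Agent.H35.WT

open Finset
open Pool.Agent.H91.EHA (err)
open Pool.Agent.H80.KF

theorem fam_region (θ κ : ℝ) (h0 : 0 ≤ κ) (h1 : κ < 1 / 40) (h2 : 27 * θ + 20 * κ < 14) (c : ℕ) :
    ∃ x0 : ℕ, ∀ x : ℕ, x0 ≤ x →
    ∀ F : Finset (Finset ℤ), (∀ A ∈ F, ∀ B ∈ F, A ≠ B → Disjoint A B) →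
    (∀ A ∈ F, (∀ a ∈ A, |a| ≤ x) ∧ (A.card : ℝ) ≤ (x : ℝ) ^ κ ∧
      ¬ (∀ r : ℕ → ℤ, (∀ q, r q ∈ A) →
        ∑ q ∈ (Icc 1 ⌊(x : ℝ) ^ θ⌋₊).filter (fun q : ℕ => IsCoprime (r q) (q : ℤ)),
          ME x q (r q : ZMod q) ≤ x / Real.log x ^ c)) →
    (F.card : ℝ) ≤ Real.log x ^ (4 * c + 21) := by
  obtain ⟨x1, hx1⟩ := fam_cardT (kt Pool.Agent.H35.WL.wb) (max (1 / 2) θ) κ h0 (le_max_left _ _)
    (by
      rcases max_choice (1 / 2 : ℝ) θ with h | h <;> rw [h] <;> linarith) c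
  refine ⟨max x1 1, fun x hx F hF hbad => ?_⟩
  refine hx1 x ((le_max_left _ _).trans hx) F hF fun A hA => ?_
  obtain ⟨h3, h4, h5⟩ := hbad A hA
  refine ⟨h3, h4, fun h => h5 fun r hr => ?_⟩
  have h6 := h r hr
  refine le_trans ?_ h6
  refine sum_le_sum_of_subset_of_nonneg ?_ ?_
  · refine filter_subset_filter _ (Icc_subset_Icc le_rfl ?_)
    unfold QT
    refine Nat.floor_le_floor ?_
    refine Real.rpow_le_rpow_of_exponent_le ?_ (le_max_right _ _)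
    have : 1 ≤ x := (le_max_right _ _).trans hx
    exact_mod_cast this
  · intro q _ _
    unfold ME
    refine le_trans (abs_nonneg (err 0 q (r q : ZMod q))) ?_
    exact le_sup' (f := fun y => |err y q (r q : ZMod q)|) (mem_range.2 (Nat.succ_pos x))

end Pool.Agent.H35.WT
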