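import Pool.Agent.H35.WT.Ur
import Pool.Agent.H35.WL.Un
import Pool.Agent.H35.KL.Bk

/-!
# WT-Ul: one dyadic block of moduli and a selection

Copy of `bl3` (Pool/Agent/H35/WL/Bl.lean) with `crsT`.  `μ = mt θ κ = (14 - 27θ - 20κ)/160`,
`K = #A ≤ x^{κ + μ}`, `E a a' = x^{1 - 1/20 + μ} + x^{3/10 + μ} Q^{7/20} √(r2 (cf a)) √(r2 (cf a'))`.
As `θ ≥ 1/2`: `20κ + 160μ ≤ 1/2`, i.e. `κ + 8μ ≤ 1/40`.
Exponents: `2κ + 2μ + 1 - 1/20 + μ ≤ 1 - μ`;
`3/10 + μ + (7/20)θ + κ + μ + θ = 1 - 8μ + 2μ = 1 - 6μ ≤ 1 - μ`;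
the other terms as in `bl3` (`θ < 14/27 < 11/20`).
-/

set_option autoImplicit false

namespace Pool.Agent.H35.WT

open Finset
open Pool.Agent.H91.EHA (err)
open Pool.Agent.H80.KF
open Pool.Agent.H35.KM (Sel Adx)
open Pool.Agent.H35.KL (n2 r2)
open Pool.Agent.H35.WL (RV unf3)

private theorem WBT_num (m : ℝ) (hm : 0 < m) (c : ℕ) : ∃ x0 : ℕ, ∀ x : ℕ, x0 ≤ x → 3 ≤ x ∧
    (11 : ℝ) ≤ (x : ℝ) ^ m ∧ (2 : ℝ) ≤ (x : ℝ) ^ ((9 : ℝ) / 20) ∧
    2 * Real.log x ^ (c + 1) ≤ (x : ℝ) ^ ((9 : ℝ) / 20) ∧ (4 * 10 ^ 6 : ℝ) ≤ Real.log x := by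
  have hcast := tendsto_natCast_atTop_atTop (R := ℝ)
  have e1 : ∀ᶠ x : ℕ in Filter.atTop, (11 : ℝ) ≤ (x : ℝ) ^ m :=
    ((tendsto_rpow_atTop hm).comp hcast).eventually_ge_atTop 11
  have e1' : ∀ᶠ x : ℕ in Filter.atTop, (2 : ℝ) ≤ (x : ℝ) ^ ((9 : ℝ) / 20) :=
    ((tendsto_rpow_atTop (by norm_num)).comp hcast).eventually_ge_atTop 2
  have e2 : ∀ᶠ x : ℕ in Filter.atTop, (4 * 10 ^ 6 : ℝ) ≤ Real.log x :=
    (Real.tendsto_log_atTop.comp hcast).eventually_ge_atTop _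
  have e3 : ∀ᶠ x : ℕ in Filter.atTop, 2 * Real.log x ^ (c + 1) ≤ (x : ℝ) ^ ((9 : ℝ) / 20) := by
    have h := (isLittleO_log_rpow_rpow_atTop ((c + 1 : ℕ) : ℝ) (s := (9 : ℝ) / 20)
      (by norm_num)).bound (c := 1 / 2) (by norm_num)
    have h' := hcast.eventually h
    filter_upwards [h', e2] with x hx hl
    rw [Real.rpow_natCast, Real.norm_of_nonneg (by positivity),
      Real.norm_of_nonneg (by positivity)] at hx
    linarith
  have e4 : ∀ᶠ x : ℕ in Filter.atTop, 3 ≤ x := Filter.eventually_ge_atTop 3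
  have := e4.and (e1.and (e1'.and (e3.and e2)))
  exact Filter.eventually_atTop.1 this

theorem blT (hK : KT) (θ κ : ℝ) (h0 : 0 ≤ κ) (ht : 1 / 2 ≤ θ) (h1 : 27 * θ + 20 * κ < 14)
    (c : ℕ) : ∃ x0 : ℕ, ∀ x Q : ℕ, x0 ≤ x →
    1 ≤ Q → (Q : ℝ) ≤ (x : ℝ) ^ θ → ∀ A : Finset ℤ, Adx x A →
    (A.card : ℝ) ≤ (x : ℝ) ^ (κ + mt θ κ) → ∀ M : ℕ, 1 ≤ M →
    ∀ T : ℕ → Finset ℤ, Sel A M T → ∀ y : ℕ, y ≤ x →
    ∑ q ∈ Ioc Q (2 * Q), ∑ a ∈ T q, |err y q (a : ZMod q)| ≤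
      Real.sqrt M * x * Real.log x ^ 3 / 4 + M * x / Real.log x ^ c := by
  classical
  obtain ⟨m, hm⟩ : ∃ m : ℝ, m = mt θ κ := ⟨_, rfl⟩
  have hm4 : 27 * θ + 20 * κ + 160 * m = 14 := by
    rw [hm]
    unfold mt
    ring
  have hm0 : 0 < m := by linarith
  obtain ⟨l, hl⟩ : ∃ l : ℝ, l = θ := ⟨_, rfl⟩
  rw [← hl] at hm4 ht h1
  have hl1 : l ≤ 14 / 27 := by linarith
  have hκ8 : κ + 8 * m ≤ 1 / 40 := by linarith
  have hl2 : l * (7 / 20) + l + κ = 7 / 10 - 8 * m := by linarith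
  obtain ⟨x1, h1'⟩ := WBT_num m hm0 c
  obtain ⟨x2, h2⟩ := unf3 (c + 1)
  obtain ⟨x3, h3⟩ := crsT hK θ κ h0 (by rw [← hl]; exact ht) (by rw [← hl]; exact h1)
  obtain ⟨x4, h4⟩ := pt_bd
  refine ⟨x1 + x2 + x3 + x4, ?_⟩
  intro x Q hx hQ hQx A hAdx hKA M hM T hT y hyx
  rw [← hl] at hQx
  rw [← hm] at hKA
  obtain ⟨hA, hAA⟩ := hAdx
  obtain ⟨hx3, n1, n1', n2, n3⟩ := h1' x (by omega)
  have hcr := h3 x Q (2 * (4 * Q ^ 2).factorial) (by omega) hQ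
    (by have := Nat.factorial_pos (4 * Q ^ 2); omega) (by rw [← hl]; exact hQx)
    (by
      intro k hk1 hk2
      have := Nat.dvd_factorial (by omega : 0 < k) hk2
      exact Dvd.dvd.mul_left (Dvd.dvd.mul_left this 2) (2 * x))
  simp only [← hm] at hcr
  set R : ℕ := RV x with hR
  set J : ℕ := 2 * (4 * Q ^ 2).factorial with hJ
  set K : ℝ := (A.card : ℝ) with hKdef
  set L : ℝ := Real.log x with hL
  have hJ2 : 2 ≤ J := by have := Nat.factorial_pos (4 * Q ^ 2); omega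
  have hX0 : (0 : ℝ) < x := by exact_mod_cast (by omega : 0 < x)
  have hX1 : (1 : ℝ) ≤ x := by exact_mod_cast (by omega : 1 ≤ x)
  have hK0 : 0 ≤ K := by positivity
  have hL1 : 1 ≤ L := by linarith
  have hM1' : (1 : ℝ) ≤ M := by exact_mod_cast hM
  -- R
  have hM1 : (1 : ℝ) ≤ (x : ℝ) ^ ((1 : ℝ) / 20) := Real.one_le_rpow hX1 (by norm_num)
  have hR1 : 1 ≤ R := by
    rw [hR]
    exact Nat.le_floor (by simpa using hM1)
  have hRx : R ≤ x := by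
    have : (R : ℝ) ≤ x := by
      refine (Nat.floor_le (by positivity)).trans ?_
      calc (x : ℝ) ^ ((1 : ℝ) / 20) ≤ (x : ℝ) ^ (1 : ℝ) :=
            Real.rpow_le_rpow_of_exponent_le hX1 (by norm_num)
        _ = x := Real.rpow_one _
    exact_mod_cast this
  have hpt := h4 x Q R (by omega) hQ hR1 hRx
  -- powers
  have hpw : ∀ s t : ℝ, (x : ℝ) ^ s * (x : ℝ) ^ t = (x : ℝ) ^ (s + t) := fun s t =>
    (Real.rpow_add hX0 s t).symm
  have hmono : ∀ s t : ℝ, s ≤ t → (x : ℝ) ^ s ≤ (x : ℝ) ^ t := fun s t h =>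
    Real.rpow_le_rpow_of_exponent_le hX1 h
  have hx1 : (x : ℝ) ^ (1 : ℝ) = x := Real.rpow_one _
  -- 2 Q ≤ x
  have hQ2 : 2 * Q ≤ x := by
    have : 2 * (Q : ℝ) ≤ x := by
      calc 2 * (Q : ℝ) ≤ (x : ℝ) ^ ((9 : ℝ) / 20) * (x : ℝ) ^ l := by gcongr
        _ = (x : ℝ) ^ ((9 : ℝ) / 20 + l) := hpw _ _
        _ ≤ (x : ℝ) ^ (1 : ℝ) := hmono _ _ (by linarith)
        _ = x := hx1
    exact_mod_cast this
  -- signs
  obtain ⟨cf, hcf, hc0, hsign⟩ := Pool.Agent.H35.KM.sgn y Q R M A T hT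
  -- the element with the largest error
  have hs : ∀ q : ℕ, ∃ s : ℤ, IsCoprime s (q : ℤ) ∧ ∀ a ∈ T q,
      |err y q (a : ZMod q) - ∑ p ∈ PX y, uu R q a p| ≤
        |err y q (s : ZMod q) - ∑ p ∈ PX y, uu R q s p| := by
    intro q
    by_cases hne : (T q).Nonempty
    · obtain ⟨s, hsT, hs⟩ := exists_max_image (T q)
        (fun a : ℤ => |err y q (a : ZMod q) - ∑ p ∈ PX y, uu R q a p|) hne
      exact ⟨s, (hT q).2.2 s hsT, hs⟩
    · rw [not_nonempty_iff_eq_empty] at hne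
      refine ⟨1, isCoprime_one_left, ?_⟩
      intro a ha
      rw [hne] at ha
      simp at ha
  choose s hs1 hs2 using hs
  have hunf := h2 x Q (by omega) hQ y hyx s hs1
  -- structured part
  have hS1 : ∑ q ∈ Ioc Q (2 * Q), ∑ a ∈ T q, |err y q (a : ZMod q)| ≤
      ∑ p ∈ PX y, ∑ a ∈ A, SS R Q (cf a) a p + M * (x / L ^ (c + 1)) := by
    rw [← hsign]
    have hA1 : ∑ q ∈ Ioc Q (2 * Q), ∑ a ∈ T q,
        |err y q (a : ZMod q) - ∑ p ∈ PX y, uu R q a p| ≤ M * (x / L ^ (c + 1)) := by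
      calc ∑ q ∈ Ioc Q (2 * Q), ∑ a ∈ T q, |err y q (a : ZMod q) - ∑ p ∈ PX y, uu R q a p|
          ≤ ∑ q ∈ Ioc Q (2 * Q), M * |err y q (s q : ZMod q) - ∑ p ∈ PX y, uu R q (s q) p| := by
            refine sum_le_sum fun q _ => ?_
            calc ∑ a ∈ T q, |err y q (a : ZMod q) - ∑ p ∈ PX y, uu R q a p|
                ≤ ∑ a ∈ T q, |err y q (s q : ZMod q) - ∑ p ∈ PX y, uu R q (s q) p| :=
                  sum_le_sum fun a ha => hs2 q a ha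
              _ = ((T q).card : ℝ) * |err y q (s q : ZMod q) - ∑ p ∈ PX y, uu R q (s q) p| := by
                  rw [sum_const, nsmul_eq_mul]
              _ ≤ M * |err y q (s q : ZMod q) - ∑ p ∈ PX y, uu R q (s q) p| := by
                  refine mul_le_mul_of_nonneg_right ?_ (abs_nonneg _)
                  exact_mod_cast (hT q).2.1
        _ = M * ∑ q ∈ Ioc Q (2 * Q), |err y q (s q : ZMod q) - ∑ p ∈ PX y, uu R q (s q) p| := by
            rw [mul_sum]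
        _ ≤ M * (x / L ^ (c + 1)) := by gcongr
    calc ∑ q ∈ Ioc Q (2 * Q), ∑ a ∈ T q, |err y q (a : ZMod q)|
        ≤ ∑ q ∈ Ioc Q (2 * Q), ∑ a ∈ T q, (|∑ p ∈ PX y, uu R q a p| +
            |err y q (a : ZMod q) - ∑ p ∈ PX y, uu R q a p|) := by
          refine sum_le_sum fun q _ => sum_le_sum fun a _ => ?_
          have := abs_add_le (∑ p ∈ PX y, uu R q a p)
            (err y q (a : ZMod q) - ∑ p ∈ PX y, uu R q a p)
          rwa [add_sub_cancel] at this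
      _ = ∑ q ∈ Ioc Q (2 * Q), ∑ a ∈ T q, |∑ p ∈ PX y, uu R q a p| +
            ∑ q ∈ Ioc Q (2 * Q), ∑ a ∈ T q,
              |err y q (a : ZMod q) - ∑ p ∈ PX y, uu R q a p| := by
          rw [← sum_add_distrib]
          exact sum_congr rfl fun q _ => sum_add_distrib
      _ ≤ _ := by gcongr
  -- primes in A
  have hS2 : ∑ p ∈ (PX y).filter (fun p : ℕ => (p : ℤ) ∈ A), ∑ a ∈ A, SS R Q (cf a) a p ≤
      K * (Q + K * (x : ℝ) ^ ((1 : ℝ) / 1000)) := by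
    have hcard : (((PX y).filter (fun p : ℕ => (p : ℤ) ∈ A)).card : ℝ) ≤ K := by
      have : ((PX y).filter (fun p : ℕ => (p : ℤ) ∈ A)).card ≤ A.card := by
        refine card_le_card_of_injOn (fun p : ℕ => (p : ℤ)) ?_ ?_
        · intro p hp
          exact (mem_filter.1 hp).2
        · intro p _ p' _ h
          exact Int.ofNat.inj h
      rw [hKdef]
      exact Nat.cast_le.2 this
    have hone : ∀ p ∈ (PX y).filter (fun p : ℕ => (p : ℤ) ∈ A), ∑ a ∈ A, SS R Q (cf a) a p ≤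
        Q + K * (x : ℝ) ^ ((1 : ℝ) / 1000) := by
      intro p hp
      rw [mem_filter] at hp
      have hpx : |(p : ℤ)| ≤ x := hA _ hp.2
      have hb : ∀ a ∈ A, SS R Q (cf a) a p ≤
          (if a = (p : ℤ) then (Q : ℝ) else 0) + (x : ℝ) ^ ((1 : ℝ) / 1000) := by
        intro a ha
        refine (le_abs_self _).trans ((ss_le_sa R Q (cf a) (hcf a) a p).trans ?_)
        by_cases hap : a = (p : ℤ)
        · rw [if_pos hap, hap]
          have := pt_ctr R Q (p : ℤ)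
          have h5 : (0 : ℝ) ≤ (x : ℝ) ^ ((1 : ℝ) / 1000) := by positivity
          linarith
        · rw [if_neg hap, zero_add]
          exact hpt a p hap (hA a ha) hpx
      refine (sum_le_sum hb).trans ?_
      rw [sum_add_distrib, sum_ite_eq' A (p : ℤ) (fun _ => (Q : ℝ)), if_pos hp.2, sum_const,
        nsmul_eq_mul]
    refine (sum_le_sum hone).trans ?_
    rw [sum_const, nsmul_eq_mul]
    gcongr
  -- primes outside A
  have hD := Pool.Agent.H35.KM.dia_sel x Q R J M hx3 hQ hQ2 hR1 hRx (by omega) A hA T hT cf hcf hc0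
  set E : ℤ → ℤ → ℝ := fun a a' => (x : ℝ) ^ (1 - 1 / 20 + m) +
      (x : ℝ) ^ (3 / 10 + m) * (Q : ℝ) ^ ((7 : ℝ) / 20) *
        (Real.sqrt (r2 (Ioc Q (2 * Q)) (cf a)) * Real.sqrt (r2 (Ioc Q (2 * Q)) (cf a'))) with hEdef
  have hE0 : ∀ a a', 0 ≤ E a a' := fun a a' => by
    rw [hEdef]
    positivity
  have hE : ∀ a ∈ A, ∀ a' ∈ A, a ≠ a' →
      |∑ n ∈ RW x J, ww x J n * (SS R Q (cf a) a n * SS R Q (cf a') a' n)| ≤ E a a' :=
    fun a ha a' ha' haa =>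
      hcr a a' haa (hA a ha) (hA a' ha') (hAA a ha a' ha') (cf a) (cf a') (hcf a) (hcf a')
  have hexp := Pool.Agent.H35.KL.bk2 x Q R J (by omega) (by omega) A cf hcf (M * (10 ^ 5 * x * L ^ 5))
    ((x : ℝ) ^ ((1 : ℝ) / 1000)) E (by positivity) hE0 hD hE
    (fun a ha n hn han => hpt a n han (hA a ha) (hA n hn)) (fun a _ => pt_ctr R Q a)
  have hcau := bk_cauchy x y Q R J (by omega) hyx hJ2 A cf
  -- numerics
  have hQ0 : (0 : ℝ) ≤ Q := by positivity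
  -- the total of the norms
  have hr2 : (∑ a ∈ A, Real.sqrt (r2 (Ioc Q (2 * Q)) (cf a))) ^ 2 ≤ K * (M * Q) := by
    have e1 : (∑ a ∈ A, Real.sqrt (r2 (Ioc Q (2 * Q)) (cf a))) ^ 2 ≤
        K * ∑ a ∈ A, Real.sqrt (r2 (Ioc Q (2 * Q)) (cf a)) ^ 2 :=
      sq_sum_le_card_mul_sum_sq
    have e2 : ∑ a ∈ A, Real.sqrt (r2 (Ioc Q (2 * Q)) (cf a)) ^ 2 ≤ M * Q := by
      calc ∑ a ∈ A, Real.sqrt (r2 (Ioc Q (2 * Q)) (cf a)) ^ 2
          = ∑ a ∈ A, ∑ q ∈ Ioc Q (2 * Q), cf a q ^ 2 :=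
            sum_congr rfl fun a _ => Real.sq_sqrt (Pool.Agent.H35.KL.r2_nonneg _ _)
        _ = ∑ q ∈ Ioc Q (2 * Q), ∑ a ∈ A, cf a q ^ 2 := sum_comm
        _ ≤ ∑ q ∈ Ioc Q (2 * Q), (M : ℝ) := by
            refine sum_le_sum fun q _ => ?_
            calc ∑ a ∈ A, cf a q ^ 2 ≤ ∑ a ∈ A, (if a ∈ T q then (1 : ℝ) else 0) := by
                  refine sum_le_sum fun a _ => ?_
                  split_ifs with h
                  · exact (sq_le_one_iff_abs_le_one _).2 (hcf a q)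
                  · rw [hc0 a q h]
                    norm_num
              _ = ((A.filter (fun a => a ∈ T q)).card : ℝ) := by
                  rw [sum_boole]
              _ ≤ ((T q).card : ℝ) := by
                  refine Nat.cast_le.2 (card_le_card ?_)
                  intro a ha
                  exact (mem_filter.1 ha).2
              _ ≤ M := by exact_mod_cast (hT q).2.1
        _ = M * Q := by
            rw [sum_const, Nat.card_Ioc, nsmul_eq_mul, mul_comm]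
            congr 2
            omega
    exact e1.trans (mul_le_mul_of_nonneg_left e2 hK0)
  have hEsum : ∑ a ∈ A, ∑ a' ∈ A, E a a' = K ^ 2 * (x : ℝ) ^ (1 - 1 / 20 + m) +
      (x : ℝ) ^ (3 / 10 + m) * (Q : ℝ) ^ ((7 : ℝ) / 20) *
        (∑ a ∈ A, Real.sqrt (r2 (Ioc Q (2 * Q)) (cf a))) ^ 2 := by
    rw [hEdef]
    simp only [sum_add_distrib, sum_const, nsmul_eq_mul]
    congr 1
    · rw [hKdef]
      ring
    · rw [sq, sum_mul_sum, mul_sum]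
      exact sum_congr rfl fun a _ => by rw [mul_sum]
  have hKEM : ∑ a ∈ A, ∑ a' ∈ A, E a a' + K ^ 2 * (3 * K * ((x : ℝ) ^ ((1 : ℝ) / 1000)) ^ 2 +
      6 * Q * (x : ℝ) ^ ((1 : ℝ) / 1000)) ≤ M * x := by
    have hK2 : K ^ 2 ≤ (x : ℝ) ^ (2 * κ + 2 * m) := by
      calc K ^ 2 ≤ ((x : ℝ) ^ (κ + m)) ^ 2 := by gcongr
        _ = (x : ℝ) ^ (κ + m) * (x : ℝ) ^ (κ + m) := by ring
        _ = (x : ℝ) ^ (κ + m + (κ + m)) := hpw _ _
        _ = _ := by congr 1; ring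
    have t1 : K ^ 2 * (x : ℝ) ^ (1 - 1 / 20 + m) ≤ (x : ℝ) ^ (1 - m) := by
      calc K ^ 2 * (x : ℝ) ^ (1 - 1 / 20 + m)
          ≤ (x : ℝ) ^ (2 * κ + 2 * m) * (x : ℝ) ^ (1 - 1 / 20 + m) := by gcongr
        _ = (x : ℝ) ^ (2 * κ + 2 * m + (1 - 1 / 20 + m)) := hpw _ _
        _ ≤ (x : ℝ) ^ (1 - m) := hmono _ _ (by linarith)
    have t1' : (x : ℝ) ^ (3 / 10 + m) * (Q : ℝ) ^ ((7 : ℝ) / 20) *
        (∑ a ∈ A, Real.sqrt (r2 (Ioc Q (2 * Q)) (cf a))) ^ 2 ≤ M * (x : ℝ) ^ (1 - m) := by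
      have q1 : (Q : ℝ) ^ ((7 : ℝ) / 20) ≤
          (x : ℝ) ^ (l * (7 / 20)) := by
        calc (Q : ℝ) ^ ((7 : ℝ) / 20)
            ≤ ((x : ℝ) ^ l) ^ ((7 : ℝ) / 20) :=
              Real.rpow_le_rpow hQ0 hQx (by norm_num)
          _ = _ := (Real.rpow_mul hX0.le _ _).symm
      have q2 : (0 : ℝ) ≤ (Q : ℝ) ^ ((7 : ℝ) / 20) := by positivity
      calc (x : ℝ) ^ (3 / 10 + m) * (Q : ℝ) ^ ((7 : ℝ) / 20) *
            (∑ a ∈ A, Real.sqrt (r2 (Ioc Q (2 * Q)) (cf a))) ^ 2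
          ≤ (x : ℝ) ^ (3 / 10 + m) * (x : ℝ) ^ (l * (7 / 20)) *
            ((x : ℝ) ^ (κ + m) * (M * (x : ℝ) ^ l)) := by
            refine mul_le_mul (mul_le_mul_of_nonneg_left q1 (by positivity)) ?_ (by positivity)
              (by positivity)
            refine hr2.trans (mul_le_mul hKA ?_ (by positivity) (by positivity))
            exact mul_le_mul_of_nonneg_left hQx (by positivity)
        _ = M * ((x : ℝ) ^ (3 / 10 + m) * (x : ℝ) ^ (l * (7 / 20)) *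
            (x : ℝ) ^ (κ + m) * (x : ℝ) ^ l) := by ring
        _ = M * (x : ℝ) ^ (3 / 10 + m + l * (7 / 20) + (κ + m) +
            l) := by rw [hpw, hpw, hpw]
        _ ≤ M * (x : ℝ) ^ (1 - m) := by
            refine mul_le_mul_of_nonneg_left (hmono _ _ ?_) (by positivity)
            linarith
    have t2 : K ^ 2 * (3 * K * ((x : ℝ) ^ ((1 : ℝ) / 1000)) ^ 2) ≤
        3 * (x : ℝ) ^ (1 - m) := by
      calc K ^ 2 * (3 * K * ((x : ℝ) ^ ((1 : ℝ) / 1000)) ^ 2)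
          ≤ (x : ℝ) ^ (2 * κ + 2 * m) * (3 * (x : ℝ) ^ (κ + m) *
            ((x : ℝ) ^ ((1 : ℝ) / 1000)) ^ 2) := by gcongr
        _ = 3 * ((x : ℝ) ^ (2 * κ + 2 * m) * (x : ℝ) ^ (κ + m) *
            ((x : ℝ) ^ ((1 : ℝ) / 1000) * (x : ℝ) ^ ((1 : ℝ) / 1000))) := by ring
        _ = 3 * (x : ℝ) ^ (2 * κ + 2 * m + (κ + m) + ((1 : ℝ) / 1000 + 1 / 1000)) := by
            rw [hpw, hpw, hpw]
        _ ≤ 3 * (x : ℝ) ^ (1 - m) := by
            have := hmono (2 * κ + 2 * m + (κ + m) + ((1 : ℝ) / 1000 + 1 / 1000))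
              (1 - m) (by linarith)
            linarith
    have t3 : K ^ 2 * (6 * Q * (x : ℝ) ^ ((1 : ℝ) / 1000)) ≤
        6 * (x : ℝ) ^ (1 - m) := by
      calc K ^ 2 * (6 * Q * (x : ℝ) ^ ((1 : ℝ) / 1000))
          ≤ (x : ℝ) ^ (2 * κ + 2 * m) * (6 * (x : ℝ) ^ l *
            (x : ℝ) ^ ((1 : ℝ) / 1000)) := by gcongr
        _ = 6 * ((x : ℝ) ^ (2 * κ + 2 * m) * (x : ℝ) ^ l *
            (x : ℝ) ^ ((1 : ℝ) / 1000)) := by ring
        _ = 6 * (x : ℝ) ^ (2 * κ + 2 * m + l + (1 : ℝ) / 1000) := by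
            rw [hpw, hpw]
        _ ≤ 6 * (x : ℝ) ^ (1 - m) := by
            have := hmono (2 * κ + 2 * m + l + (1 : ℝ) / 1000)
              (1 - m) (by linarith)
            linarith
    have t4 : 11 * (x : ℝ) ^ (1 - m) ≤ x := by
      calc 11 * (x : ℝ) ^ (1 - m)
          ≤ (x : ℝ) ^ m * (x : ℝ) ^ (1 - m) := by gcongr
        _ = (x : ℝ) ^ (m + (1 - m)) := hpw _ _
        _ = (x : ℝ) ^ (1 : ℝ) := by congr 1; ring
        _ = x := hx1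
    have hz : (0 : ℝ) ≤ (x : ℝ) ^ (1 - m) := by positivity
    calc ∑ a ∈ A, ∑ a' ∈ A, E a a' + K ^ 2 * (3 * K * ((x : ℝ) ^ ((1 : ℝ) / 1000)) ^ 2 +
          6 * Q * (x : ℝ) ^ ((1 : ℝ) / 1000))
        = (K ^ 2 * (x : ℝ) ^ (1 - 1 / 20 + m) +
          (x : ℝ) ^ (3 / 10 + m) * (Q : ℝ) ^ ((7 : ℝ) / 20) *
            (∑ a ∈ A, Real.sqrt (r2 (Ioc Q (2 * Q)) (cf a))) ^ 2) +
          (K ^ 2 * (3 * K * ((x : ℝ) ^ ((1 : ℝ) / 1000)) ^ 2) +
          K ^ 2 * (6 * Q * (x : ℝ) ^ ((1 : ℝ) / 1000))) := by rw [hEsum]; ring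
      _ ≤ ((x : ℝ) ^ (1 - m) + M * (x : ℝ) ^ (1 - m)) +
          (3 * (x : ℝ) ^ (1 - m) + 6 * (x : ℝ) ^ (1 - m)) :=
          add_le_add (add_le_add t1 t1') (add_le_add t2 t3)
      _ = (M + 10) * (x : ℝ) ^ (1 - m) := by ring
      _ ≤ (11 * M) * (x : ℝ) ^ (1 - m) := by
          refine mul_le_mul_of_nonneg_right ?_ hz
          linarith
      _ = M * (11 * (x : ℝ) ^ (1 - m)) := by ring
      _ ≤ M * x := mul_le_mul_of_nonneg_left t4 (by positivity)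
  set S := ∑ p ∈ (PX y).filter (fun p : ℕ => (p : ℤ) ∉ A), ∑ a ∈ A, SS R Q (cf a) a p with hS
  have hS3 : S ≤ Real.sqrt M * x * L ^ 3 / 4 := by
    have hL5 : 1 ≤ L ^ 5 := one_le_pow₀ hL1
    have hsq : S ^ 2 ≤ (Real.sqrt M * x * L ^ 3 / 4) ^ 2 := by
      have e1 : (Real.sqrt M * x * L ^ 3 / 4) ^ 2 = M * x ^ 2 * L ^ 6 / 16 := by
        have := Real.sq_sqrt (show (0 : ℝ) ≤ M by positivity)
        calc (Real.sqrt M * x * L ^ 3 / 4) ^ 2 = (Real.sqrt M) ^ 2 * x ^ 2 * L ^ 6 / 16 := by ring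
          _ = _ := by rw [this]
      rw [e1]
      calc S ^ 2 ≤ x * ∑ n ∈ (RW x J).filter (fun n => n ∉ A),
            ww x J n * (∑ a ∈ A, SS R Q (cf a) a n) ^ 2 := hcau
        _ ≤ x * (M * (10 ^ 5 * x * L ^ 5) + M * x) := by
            refine mul_le_mul_of_nonneg_left (hexp.trans ?_) hX0.le
            rw [add_assoc]
            exact add_le_add le_rfl hKEM
        _ = M * x ^ 2 * (10 ^ 5 * L ^ 5 + 1) := by ring
        _ ≤ M * x ^ 2 * (L ^ 6 / 16) := by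
            refine mul_le_mul_of_nonneg_left ?_ (by positivity)
            have : L ^ 6 = L * L ^ 5 := by ring
            rw [this]
            nlinarith
        _ = M * x ^ 2 * L ^ 6 / 16 := by ring
    exact (le_abs_self _).trans (abs_le_of_sq_le_sq hsq (by positivity))
  have hsplit : ∑ p ∈ PX y, ∑ a ∈ A, SS R Q (cf a) a p =
      ∑ p ∈ (PX y).filter (fun p : ℕ => (p : ℤ) ∈ A), ∑ a ∈ A, SS R Q (cf a) a p + S := by
    rw [hS, sum_filter_add_sum_filter_not]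
  have hS4 : K * (Q + K * (x : ℝ) ^ ((1 : ℝ) / 1000)) ≤ x / L ^ (c + 1) := by
    rw [le_div_iff₀ (by positivity)]
    have t1 : K * (K * (x : ℝ) ^ ((1 : ℝ) / 1000)) ≤ (x : ℝ) ^ ((11 : ℝ) / 20) := by
      calc K * (K * (x : ℝ) ^ ((1 : ℝ) / 1000))
          ≤ (x : ℝ) ^ (κ + m) * ((x : ℝ) ^ (κ + m) * (x : ℝ) ^ ((1 : ℝ) / 1000)) := by
            gcongr
        _ = (x : ℝ) ^ (κ + m + (κ + m + 1 / 1000)) := by rw [hpw, hpw]
        _ ≤ _ := hmono _ _ (by linarith)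
    have t2 : K * Q ≤ (x : ℝ) ^ ((11 : ℝ) / 20) := by
      calc K * Q ≤ (x : ℝ) ^ (κ + m) * (x : ℝ) ^ l := by gcongr
        _ = (x : ℝ) ^ (κ + m + l) := hpw _ _
        _ ≤ _ := hmono _ _ (by linarith)
    calc K * (Q + K * (x : ℝ) ^ ((1 : ℝ) / 1000)) * L ^ (c + 1)
        = (K * Q + K * (K * (x : ℝ) ^ ((1 : ℝ) / 1000))) * L ^ (c + 1) := by ring
      _ ≤ ((x : ℝ) ^ ((11 : ℝ) / 20) + (x : ℝ) ^ ((11 : ℝ) / 20)) * L ^ (c + 1) := by gcongr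
      _ = (x : ℝ) ^ ((11 : ℝ) / 20) * (2 * L ^ (c + 1)) := by ring
      _ ≤ (x : ℝ) ^ ((11 : ℝ) / 20) * (x : ℝ) ^ ((9 : ℝ) / 20) := by gcongr
      _ = (x : ℝ) ^ ((11 : ℝ) / 20 + (9 : ℝ) / 20) := hpw _ _
      _ = (x : ℝ) ^ (1 : ℝ) := by congr 1; norm_num
      _ = x := hx1
  have hpos : 0 ≤ (x : ℝ) / L ^ (c + 1) := by positivity
  have hS5 : M * (x / L ^ (c + 1)) + M * (x / L ^ (c + 1)) ≤ M * x / L ^ c := by
    have e : M * x / L ^ c = M * (x / L ^ (c + 1)) * L := by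
      rw [pow_succ]; field_simp
    rw [e]
    have : 0 ≤ M * (x / L ^ (c + 1)) := by positivity
    nlinarith
  have hS6 : (x : ℝ) / L ^ (c + 1) ≤ M * (x / L ^ (c + 1)) := by nlinarith
  linarith

end Pool.Agent.H35.WT
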